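import Pool.Agent.H79.Sq.M3
namespace Pool.Agent.H79.Sq
open MeasureTheory Real Set
open scoped ENNReal

/-- circle average of the logarithm of the squared distance. -/
lemma circ (a b : ℝ) {r : ℝ} (hr : 0 < r) :
    IntegrableOn (fun α : ℝ => log ((a + r * cos (2 * π * α)) ^ 2 + (b + r * sin (2 * π * α)) ^ 2)) (Ioo 0 1) ∧
    ∫ α in Ioo (0:ℝ) 1, log ((a + r * cos (2 * π * α)) ^ 2 + (b + r * sin (2 * π * α)) ^ 2) =
      2 * (log r + log⁺ (r⁻¹ * √(a ^ 2 + b ^ 2))) := by
  set w : ℂ := ⟨-a, -b⟩ with hw
  have hnorm : ‖(0:ℂ) - w‖ = √(a ^ 2 + b ^ 2) := by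
    rw [zero_sub, norm_neg, Complex.norm_def, Complex.normSq_mk]
    congr 1; ring
  have hf : ∀ α : ℝ, log ((a + r * cos (2 * π * α)) ^ 2 + (b + r * sin (2 * π * α)) ^ 2) =
      2 * log ‖circleMap 0 r (2 * π * α) - w‖ := by
    intro α
    have : ‖circleMap 0 r (2 * π * α) - w‖ ^ 2 =
        (a + r * cos (2 * π * α)) ^ 2 + (b + r * sin (2 * π * α)) ^ 2 := by
      rw [← Complex.normSq_eq_norm_sq, Complex.normSq_apply]
      have h1 : (circleMap 0 r (2 * π * α) - w).re = a + r * cos (2 * π * α) := by
        simp only [Complex.sub_re, hw, circleMap, zero_add]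
        rw [Complex.re_ofReal_mul, Complex.exp_ofReal_mul_I_re]
        ring
      have h2 : (circleMap 0 r (2 * π * α) - w).im = b + r * sin (2 * π * α) := by
        simp only [Complex.sub_im, hw, circleMap, zero_add]
        rw [Complex.im_ofReal_mul, Complex.exp_ofReal_mul_I_im]
        ring
      rw [h1, h2]; ring
    rw [← this, Real.log_pow]
    norm_num
  have hci : CircleIntegrable (fun z : ℂ => log ‖z - w‖) 0 r :=
    MeromorphicOn.circleIntegrable_log_norm (fun _ _ => by fun_prop)
  have hii : IntervalIntegrable (fun θ : ℝ => log ‖circleMap 0 r θ - w‖) volume 0 (2 * π) := hci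
  have hpi := pi_pos
  have hii2 : IntervalIntegrable (fun α : ℝ => log ‖circleMap 0 r (2 * π * α) - w‖) volume 0 1 := by
    have := hii.comp_mul_left (c := 2 * π)
    rwa [zero_div, div_self (by positivity)] at this
  constructor
  · simp_rw [hf]
    rw [← integrableOn_Ioc_iff_integrableOn_Ioo, ← intervalIntegrable_iff_integrableOn_Ioc_of_le zero_le_one]
    exact hii2.const_mul 2
  · simp_rw [hf]
    rw [integral_const_mul, ← integral_Ioc_eq_integral_Ioo, ← intervalIntegral.integral_of_le zero_le_one]
    congr 1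
    have h3 := circleAverage_log_norm_sub_const_eq_log_radius_add_posLog (a := w) (c := 0) hr.ne'
    rw [hnorm] at h3
    rw [← h3, Real.circleAverage_def]
    have h4 := intervalIntegral.integral_comp_mul_left (a := 0) (b := 1)
      (fun θ : ℝ => log ‖circleMap 0 r θ - w‖) (c := 2 * π) (by positivity)
    rw [h4]
    simp

/-- twice the logarithmic potential of the uniform measure of the unit disc, as function of the squared radius -/
noncomputable def U2 (τ : ℝ) : ℝ := if τ ≤ 1 then τ - 1 else log τ

lemma U2_le (τ : ℝ) : U2 τ ≤ τ - 1 := by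
  unfold U2
  split_ifs with h1
  · exact le_rfl
  · exact Real.log_le_sub_one_of_pos (by linarith)

lemma radial_eq {τ s : ℝ} (hs : 0 < s) :
    2 * (log (√s) + log⁺ ((√s)⁻¹ * √τ)) = if τ ≤ s then log s else log τ := by
  have h1 : log (√s) = log s / 2 := Real.log_sqrt hs.le
  split_ifs with h
  · have : (√s)⁻¹ * √τ ≤ 1 := by
      rw [inv_mul_le_iff₀ (Real.sqrt_pos.2 hs), mul_one]
      exact Real.sqrt_le_sqrt h
    rw [(posLog_eq_zero_iff _).2 (by rw [abs_of_nonneg (by positivity)]; exact this), h1]
    ring
  · push Not at h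
    have h0 : 0 < τ := hs.trans h
    have : 1 ≤ (√s)⁻¹ * √τ := by
      rw [le_inv_mul_iff₀ (Real.sqrt_pos.2 hs), mul_one]
      exact Real.sqrt_le_sqrt h.le
    rw [posLog_eq_log (by rw [abs_of_nonneg (by positivity)]; exact this),
      Real.log_mul (inv_ne_zero (Real.sqrt_pos.2 hs).ne') (Real.sqrt_pos.2 h0).ne', Real.log_inv,
      h1, Real.log_sqrt h0.le]
    ring

lemma radial_int {τ : ℝ} (hτ : 0 ≤ τ) :
    IntegrableOn (fun s : ℝ => if τ ≤ s then log s else log τ) (Ioo 0 1) ∧
    ∫ s in Ioo (0:ℝ) 1, (if τ ≤ s then log s else log τ) = U2 τ := by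
  have hlog : ∀ a b : ℝ, IntervalIntegrable log volume a b := fun a b => intervalIntegral.intervalIntegrable_log'
  unfold U2
  by_cases h1 : τ ≤ 1
  · rw [if_pos h1]
    have hA : IntervalIntegrable (fun s : ℝ => if τ ≤ s then log s else log τ) volume 0 τ := by
      refine IntervalIntegrable.congr_ae (f := fun _ => log τ) (intervalIntegrable_const) ?_
      rw [uIoc_of_le hτ]
      have : ∀ᵐ s : ℝ ∂volume, s ≠ τ := by
        simp [ae_iff]
      filter_upwards [ae_restrict_mem measurableSet_Ioc, ae_restrict_of_ae this] with s hs hne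
      rw [if_neg (not_le.2 (lt_of_le_of_ne hs.2 hne))]
    have hB : IntervalIntegrable (fun s : ℝ => if τ ≤ s then log s else log τ) volume τ 1 := by
      refine IntervalIntegrable.congr_ae (f := log) (hlog _ _) ?_
      rw [uIoc_of_le h1]
      filter_upwards [ae_restrict_mem measurableSet_Ioc] with s hs
      rw [if_pos hs.1.le]
    constructor
    · rw [← integrableOn_Ioc_iff_integrableOn_Ioo, ← intervalIntegrable_iff_integrableOn_Ioc_of_le zero_le_one]
      exact hA.trans hB
    · rw [← integral_Ioc_eq_integral_Ioo, ← intervalIntegral.integral_of_le zero_le_one,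
        ← intervalIntegral.integral_add_adjacent_intervals hA hB]
      have e1 : ∫ s in (0:ℝ)..τ, (if τ ≤ s then log s else log τ) = ∫ s in (0:ℝ)..τ, log τ := by
        apply intervalIntegral.integral_congr_ae
        have : ∀ᵐ s : ℝ ∂volume, s ≠ τ := by
          simp [ae_iff]
        filter_upwards [this] with s hne hs
        rw [uIoc_of_le hτ] at hs
        rw [if_neg (not_le.2 (lt_of_le_of_ne hs.2 hne))]
      have e2 : ∫ s in τ..1, (if τ ≤ s then log s else log τ) = ∫ s in τ..1, log s := by
        apply intervalIntegral.integral_congr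
        intro s hs
        rw [uIcc_of_le h1] at hs
        simp only [if_pos hs.1]
      rw [e1, e2, integral_log, intervalIntegral.integral_const]
      simp
      ring
  · rw [if_neg h1]
    push Not at h1
    have hc : ∀ s ∈ Ioo (0:ℝ) 1, (if τ ≤ s then log s else log τ) = log τ := fun s hs => by
      rw [if_neg (by have := hs.2; linarith)]
    constructor
    · rw [integrableOn_congr_fun hc measurableSet_Ioo]
      exact integrable_const _
    · rw [setIntegral_congr_fun measurableSet_Ioo hc]
      simp

end Pool.Agent.H79.Sq
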