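import Pool.Agent.H79.Sq.A1
namespace Pool.Agent.H79.Sq
open MeasureTheory Real Set
open scoped ENNReal

lemma integrable_of_le {X Y : Type*} [MeasurableSpace X] [MeasurableSpace Y] {p : Measure X} {q : Measure Y}
    [IsFiniteMeasure p] [IsFiniteMeasure q] {h : X × Y → ℝ} (hm : Measurable h) (D : ℝ)
    (hle : ∀ᵐ x ∂p, ∀ᵐ y ∂q, h (x, y) ≤ D) (hint : ∀ᵐ x ∂p, Integrable (fun y => h (x, y)) q)
    (hm2 : Integrable (fun x => ∫ y, h (x, y) ∂q) p) : Integrable h (p.prod q) := by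
  rw [integrable_prod_iff hm.aestronglyMeasurable]
  refine ⟨hint, ?_⟩
  have hb : Integrable (fun x => q.real univ * (D + |D|) - ∫ y, h (x, y) ∂q) p :=
    (integrable_const _).sub hm2
  refine hb.mono' ?_ ?_
  · exact (hm.norm.stronglyMeasurable.integral_prod_right').aestronglyMeasurable
  · filter_upwards [hle, hint] with x h1 h2
    rw [Real.norm_of_nonneg (integral_nonneg fun y => norm_nonneg _)]
    calc ∫ y, ‖h (x, y)‖ ∂q ≤ ∫ y, ((D + |D|) - h (x, y)) ∂q := by
          apply integral_mono_ae h2.norm ((integrable_const _).sub h2)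
          filter_upwards [h1] with y hy
          show ‖h (x, y)‖ ≤ (D + |D|) - h (x, y)
          rw [Real.norm_eq_abs]
          rcases abs_cases (h (x, y)) with ⟨e1, _⟩ | ⟨e1, _⟩ <;>
          rcases abs_cases D with ⟨e2, _⟩ | ⟨e2, _⟩ <;> linarith
      _ = _ := by
          rw [integral_sub (integrable_const _) h2, integral_const, smul_eq_mul]

lemma Φ_0 (u : Ω) : Φ u 0 = -(√u.1 * cos (2 * π * u.2.1)) := rfl
lemma Φ_1 (u : Ω) : Φ u 1 = -(√u.1 * sin (2 * π * u.2.1)) := rfl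
lemma Φ_2 (u : Ω) : Φ u 2 = √(1 - u.1) * cos (π * u.2.2) := rfl

theorem pot2 (a b : ℝ) : Integrable (fun y : E => log ((a - y 0) ^ 2 + (b - y 1) ^ 2)) μ ∧
    ∫ y : E, log ((a - y 0) ^ 2 + (b - y 1) ^ 2) ∂μ = U2 (a ^ 2 + b ^ 2) := by
  set τ := a ^ 2 + b ^ 2 with hτ
  have hτ0 : 0 ≤ τ := by positivity
  set h : Ω → ℝ := fun u => log ((a + √u.1 * cos (2 * π * u.2.1)) ^ 2 + (b + √u.1 * sin (2 * π * u.2.1)) ^ 2) with hh
  have hm : Measurable h := by
    rw [hh]
    fun_prop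
  have hcomp : (fun y : E => log ((a - y 0) ^ 2 + (b - y 1) ^ 2)) ∘ Φ = h := by
    funext u
    simp only [Function.comp, hh, Φ_0, Φ_1, sub_neg_eq_add]
  have hmE : Measurable (fun y : E => log ((a - y 0) ^ 2 + (b - y 1) ^ 2)) := by
    fun_prop
  have hs : ∀ s ∈ Ioo (0:ℝ) 1, Integrable (fun v : ℝ × ℝ => h (s, v))
      ((volume.restrict (Ioo (0:ℝ) 1)).prod (volume.restrict (Ioo (0:ℝ) 1))) ∧
      ∫ v : ℝ × ℝ, h (s, v) ∂((volume.restrict (Ioo (0:ℝ) 1)).prod (volume.restrict (Ioo (0:ℝ) 1))) =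
      (if τ ≤ s then log s else log τ) := by
    intro s hs
    obtain ⟨h1, h2⟩ := circ a b (Real.sqrt_pos.2 hs.1)
    constructor
    · exact Integrable.comp_fst h1 (volume.restrict (Ioo (0:ℝ) 1))
    · have := integral_fun_fst (μ := volume.restrict (Ioo (0:ℝ) 1)) (ν := volume.restrict (Ioo (0:ℝ) 1))
        (fun α : ℝ => log ((a + √s * cos (2 * π * α)) ^ 2 + (b + √s * sin (2 * π * α)) ^ 2))
      rw [show (fun v : ℝ × ℝ => h (s, v)) = fun z : ℝ × ℝ =>
        (fun α : ℝ => log ((a + √s * cos (2 * π * α)) ^ 2 + (b + √s * sin (2 * π * α)) ^ 2)) z.1 from rfl,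
        this, h2, radial_eq hs.1, ← hτ]
      simp
  have hR := radial_int hτ0
  have hD : ∀ u ∈ Ioo (0:ℝ) 1, ∀ v : ℝ × ℝ, h (u, v) ≤ log ((√τ + 1) ^ 2) := by
    intro s hs v
    simp only [hh]
    have hs1 : √s ≤ 1 := by rw [Real.sqrt_le_one]; exact hs.2.le
    have hs0 := Real.sqrt_nonneg s
    have hq : (a + √s * cos (2 * π * v.1)) ^ 2 + (b + √s * sin (2 * π * v.1)) ^ 2 ≤ (√τ + 1) ^ 2 := by
      have hcs := Real.sin_sq_add_cos_sq (2 * π * v.1)
      have h3 : (a * cos (2 * π * v.1) + b * sin (2 * π * v.1)) ≤ √τ := by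
        apply Real.le_sqrt_of_sq_le
        nlinarith [sq_nonneg (a * sin (2 * π * v.1) - b * cos (2 * π * v.1))]
      have h4 := Real.sq_sqrt hτ0
      have h5 := Real.sqrt_nonneg τ
      have h6 := mul_le_mul_of_nonneg_left h3 hs0
      have h7 := mul_le_of_le_one_left h5 hs1
      have h8 : (a + √s * cos (2 * π * v.1)) ^ 2 + (b + √s * sin (2 * π * v.1)) ^ 2 =
        τ + 2 * (√s * (a * cos (2 * π * v.1) + b * sin (2 * π * v.1))) +
        (√s) ^ 2 * (sin (2 * π * v.1) ^ 2 + cos (2 * π * v.1) ^ 2) := by rw [hτ]; ring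
      rw [h8, hcs]
      nlinarith
    rcases eq_or_lt_of_le (show 0 ≤ (a + √s * cos (2 * π * v.1)) ^ 2 + (b + √s * sin (2 * π * v.1)) ^ 2 by positivity) with h0 | h0
    · rw [← h0, Real.log_zero]
      apply Real.log_nonneg
      nlinarith [Real.sqrt_nonneg τ]
    · exact Real.log_le_log h0 hq
  have hI : Integrable h P := by
    unfold P
    refine integrable_of_le hm (log ((√τ + 1) ^ 2)) ?_ ?_ ?_
    · filter_upwards [ae_restrict_mem measurableSet_Ioo] with s hs
      exact Filter.Eventually.of_forall fun v => hD s hs v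
    · filter_upwards [ae_restrict_mem measurableSet_Ioo] with s hs'
      exact (hs s hs').1
    · refine Integrable.congr hR.1 ?_
      filter_upwards [ae_restrict_mem measurableSet_Ioo] with s hs'
      exact (hs s hs').2.symm
  constructor
  · rw [← map_Φ, integrable_map_measure hmE.aestronglyMeasurable measurable_Φ.aemeasurable, hcomp]
    exact hI
  · rw [← map_Φ, integral_map measurable_Φ.aemeasurable hmE.aestronglyMeasurable]
    have : (fun u : Ω => log ((a - Φ u 0) ^ 2 + (b - Φ u 1) ^ 2)) = h := hcomp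
    rw [this]
    unfold P at hI ⊢
    rw [integral_prod _ hI, ← hR.2]
    exact setIntegral_congr_fun measurableSet_Ioo fun s hs' => (hs s hs').2

end Pool.Agent.H79.Sq
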