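import Pool.Agent.H79.Sq.A2
namespace Pool.Agent.H79.Sq
open MeasureTheory Real Set
open scoped ENNReal

lemma f_iso (O : E ≃ₗᵢ[ℝ] E) (y : E) : f (O y) = f y := by
  unfold f; rw [O.norm_map]

lemma mu_iso (O : E ≃ₗᵢ[ℝ] E) : MeasurePreserving O μ μ := by
  refine ⟨O.continuous.measurable, ?_⟩
  ext A hA
  rw [Measure.map_apply O.continuous.measurable hA]
  unfold μ
  rw [withDensity_apply _ (O.continuous.measurable hA), withDensity_apply _ hA]
  have := (O.measurePreserving).setLIntegral_comp_preimage hA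
    (f := fun y => ENNReal.ofReal (f y)) (by have := measurable_f; fun_prop)
  simp only [f_iso] at this
  exact this

lemma mu_abs : μ ≪ (volume : Measure E) := withDensity_absolutelyContinuous _ _

lemma ae_coord_ne (a : ℝ) : ∀ᵐ y : E ∂μ, y 0 ≠ a := by
  have key : ∀ᵐ y : E ∂(volume : Measure E), y 0 ≠ a := by
    rw [ae_iff]
    have hms : MeasurableSet {y : E | ¬ y 0 ≠ a} := by
      simp only [ne_eq, Decidable.not_not]
      exact measurableSet_eq_fun (by fun_prop) measurable_const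
    rw [← T_mp.measure_preimage hms.nullMeasurableSet]
    have : T ⁻¹' {y : E | ¬ y 0 ≠ a} = univ ×ˢ ({a} ×ˢ univ) := by
      ext p
      simp [T]
    rw [this, show (volume : Measure (ℝ × (ℝ × ℝ))) = (volume : Measure ℝ).prod ((volume : Measure ℝ).prod (volume : Measure ℝ)) from rfl,
      Measure.prod_prod, Measure.prod_prod]
    simp
  exact mu_abs.ae_le key

lemma ae_ne (x : E) : ∀ᵐ y : E ∂μ, y ≠ x := by
  filter_upwards [ae_coord_ne (x 0)] with y hy h
  exact hy (by rw [h])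

lemma ae_norm_lt : ∀ᵐ y : E ∂μ, ‖y‖ < 1 := by
  rw [ae_iff]
  unfold μ
  have hms : MeasurableSet {y : E | ¬ ‖y‖ < 1} := by
    simp only [not_lt]
    exact measurableSet_le measurable_const measurable_norm
  rw [withDensity_apply _ hms, lintegral_eq_zero_iff (by have := measurable_f; fun_prop)]
  filter_upwards [ae_restrict_mem hms] with y hy
  have hy' : 1 ≤ ‖y‖ := not_lt.1 hy
  unfold f
  rw [Real.sqrt_eq_zero_of_nonpos (by nlinarith)]
  simp

/-- squared norm of the cross product -/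
noncomputable def q (g v : E) : ℝ := ‖g‖ ^ 2 * ‖v‖ ^ 2 - (inner ℝ g v) ^ 2

lemma q_comm (g v : E) : q g v = q v g := by
  unfold q; rw [real_inner_comm]; ring

lemma q_neg (g v : E) : q g (-v) = q g v := by
  unfold q; rw [norm_neg, inner_neg_right]; ring

lemma q_nonneg (g v : E) : 0 ≤ q g v := by
  unfold q
  have := abs_real_inner_le_norm g v
  have h2 : (inner ℝ g v) ^ 2 ≤ (‖g‖ * ‖v‖) ^ 2 := by
    rw [← sq_abs]
    exact pow_le_pow_left₀ (abs_nonneg _) this 2
  nlinarith

lemma q_le (g v : E) : q g v ≤ ‖g‖ ^ 2 * ‖v‖ ^ 2 := by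
  unfold q
  have := sq_nonneg (inner ℝ g v)
  linarith

lemma q_iso (O : E ≃ₗᵢ[ℝ] E) (g v : E) : q (O g) (O v) = q g v := by
  unfold q
  rw [O.norm_map, O.norm_map, O.inner_map_map]

/-- every vector can be moved to a multiple of a coordinate vector. -/
lemma exists_iso (g : E) (i : Fin 3) : ∃ O : E ≃ₗᵢ[ℝ] E, O g = ‖g‖ • EuclideanSpace.single i (1:ℝ) := by
  refine ⟨(ℝ ∙ (g - ‖g‖ • EuclideanSpace.single i (1:ℝ)))ᗮ.reflection, ?_⟩
  apply Submodule.reflection_sub
  rw [norm_smul]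
  simp

lemma q_single (c : ℝ) (v : E) : q (c • EuclideanSpace.single 2 (1:ℝ)) v = c ^ 2 * (v 0 ^ 2 + v 1 ^ 2) := by
  unfold q
  rw [norm_smul, EuclideanSpace.norm_sq_eq v, inner_smul_left, EuclideanSpace.inner_single_left]
  simp [Fin.sum_univ_three]
  ring

end Pool.Agent.H79.Sq
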