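import Pool.Agent.H79.Sq.A3
namespace Pool.Agent.H79.Sq
open MeasureTheory Real Set
open scoped ENNReal

/-- L4 -/
theorem pot_q {g : E} (hg : g ≠ 0) (x : E) : Integrable (fun y : E => log (q g (x - y))) μ ∧
    ∫ y : E, log (q g (x - y)) ∂μ = log (‖g‖ ^ 2) + U2 (q g x / ‖g‖ ^ 2) := by
  obtain ⟨O, hO⟩ := exists_iso g 2
  have hg0 : 0 < ‖g‖ := norm_pos_iff.2 hg
  set a := (O x) 0
  set b := (O x) 1
  have h1 := pot2 a b
  set F : E → ℝ := fun y => log (‖g‖ ^ 2 * ((a - y 0) ^ 2 + (b - y 1) ^ 2)) with hF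
  have hcomp : (fun y : E => log (q g (x - y))) = F ∘ O := by
    funext y
    simp only [Function.comp, hF]
    rw [← q_iso O, hO, q_single, map_sub]
    rfl
  have hae : F =ᵐ[μ] fun y => log (‖g‖ ^ 2) + log ((a - y 0) ^ 2 + (b - y 1) ^ 2) := by
    filter_upwards [ae_coord_ne a] with y hy
    have : 0 < (a - y 0) ^ 2 := by
      have : a - y 0 ≠ 0 := sub_ne_zero.2 (Ne.symm hy)
      positivity
    rw [hF]
    simp only
    rw [Real.log_mul (by positivity) (by positivity)]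
  have hFi : Integrable F μ := by
    rw [integrable_congr hae]
    exact (integrable_const _).add h1.1
  have hFv : ∫ y, F y ∂μ = log (‖g‖ ^ 2) + U2 (a ^ 2 + b ^ 2) := by
    rw [integral_congr_ae hae, integral_add (integrable_const _) h1.1, h1.2, integral_const]
    simp
  have hq : q g x / ‖g‖ ^ 2 = a ^ 2 + b ^ 2 := by
    rw [← q_iso O, hO, q_single]
    field_simp
    rfl
  constructor
  · rw [hcomp, (mu_iso O).integrable_comp hFi.1]
    exact hFi
  · rw [hcomp, hq]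
    have := (mu_iso O).integral_comp O.toHomeomorph.measurableEmbedding F
    rw [← hFv, ← this]
    rfl

/-- L5 -/
theorem pot_q0 {v : E} (hv : v ≠ 0) : Integrable (fun g : E => log (q g v)) μ ∧
    ∫ g : E, log (q g v) ∂μ = log (‖v‖ ^ 2) - 1 := by
  have h := pot_q hv 0
  have e : (fun g : E => log (q g v)) = fun y : E => log (q v (0 - y)) := by
    funext y
    rw [zero_sub, q_neg, q_comm]
  rw [e]
  refine ⟨h.1, ?_⟩
  rw [h.2]
  have : q v 0 / ‖v‖ ^ 2 = 0 := by
    unfold q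
    simp
  rw [this]
  unfold U2
  norm_num
  ring

/-- L0 -/
theorem log_int (x : E) : Integrable (fun y : E => log (‖x - y‖ ^ 2)) μ := by
  have h1 := (pot2 (x 0) (x 1)).1
  have hb : Integrable (fun y : E => |log ((x 0 - y 0) ^ 2 + (x 1 - y 1) ^ 2)| + log ((‖x‖ + 1) ^ 2)) μ :=
    h1.abs.add (integrable_const _)
  have hmm : Measurable (fun y : E => ‖x - y‖ ^ 2) := by fun_prop
  refine hb.mono' hmm.log.aestronglyMeasurable ?_
  filter_upwards [ae_coord_ne (x 0), ae_norm_lt] with y hy hy1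
  rw [Real.norm_eq_abs]
  have hpos : 0 < (x 0 - y 0) ^ 2 := by
    have : x 0 - y 0 ≠ 0 := sub_ne_zero.2 (Ne.symm hy)
    positivity
  have hA : 0 < (x 0 - y 0) ^ 2 + (x 1 - y 1) ^ 2 := by positivity
  have hAB : (x 0 - y 0) ^ 2 + (x 1 - y 1) ^ 2 ≤ ‖x - y‖ ^ 2 := by
    rw [EuclideanSpace.norm_sq_eq, Fin.sum_univ_three]
    simp only [PiLp.sub_apply, Real.norm_eq_abs, sq_abs]
    nlinarith [sq_nonneg (x 2 - y 2)]
  have hBC : ‖x - y‖ ^ 2 ≤ (‖x‖ + 1) ^ 2 := by
    apply pow_le_pow_left₀ (norm_nonneg _)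
    linarith [norm_sub_le x y]
  have h2 := Real.log_le_log hA hAB
  have h3 := Real.log_le_log (hA.trans_le hAB) hBC
  have h4 : 0 ≤ log ((‖x‖ + 1) ^ 2) := Real.log_nonneg (by nlinarith [norm_nonneg x])
  rw [abs_le]
  constructor
  · have := neg_abs_le (log ((x 0 - y 0) ^ 2 + (x 1 - y 1) ^ 2))
    linarith
  · have := abs_nonneg (log ((x 0 - y 0) ^ 2 + (x 1 - y 1) ^ 2))
    linarith

lemma measurable_q : Measurable (fun p : E × E => q p.1 p.2) := by
  unfold q
  fun_prop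

/-- L6 -/
theorem pot_formula (x : E) : ∫ y : E, log (‖x - y‖ ^ 2) ∂μ =
    1 + ∫ g : E, (log (‖g‖ ^ 2) + U2 (q g x / ‖g‖ ^ 2)) ∂μ := by
  set h : E × E → ℝ := fun p => log (q p.2 (x - p.1)) with hh
  have hm : Measurable h := by
    have h1 : Measurable (fun p : E × E => q p.2 (x - p.1)) := by
      unfold q
      fun_prop
    exact h1.log
  have hA : ∀ᵐ y : E ∂μ, ∫ g, h (y, g) ∂μ = log (‖x - y‖ ^ 2) - 1 := by
    filter_upwards [ae_ne x] with y hy
    exact (pot_q0 (sub_ne_zero.2 (Ne.symm hy))).2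
  have hI : Integrable h (μ.prod μ) := by
    refine integrable_of_le hm (log ((‖x‖ + 1) ^ 2)) ?_ ?_ ?_
    · filter_upwards [ae_norm_lt] with y hy
      filter_upwards [ae_norm_lt] with g hg
      simp only [hh]
      have h4 : 0 ≤ log ((‖x‖ + 1) ^ 2) := Real.log_nonneg (by nlinarith [norm_nonneg x])
      rcases eq_or_lt_of_le (q_nonneg g (x - y)) with h0 | h0
      · rw [← h0, Real.log_zero]; exact h4
      · apply Real.log_le_log h0
        have h5 := q_le g (x - y)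
        have h6 : ‖x - y‖ ^ 2 ≤ (‖x‖ + 1) ^ 2 := by
          apply pow_le_pow_left₀ (norm_nonneg _)
          linarith [norm_sub_le x y]
        have h7 : ‖g‖ ^ 2 ≤ 1 := by nlinarith [norm_nonneg g]
        calc q g (x - y) ≤ ‖g‖ ^ 2 * ‖x - y‖ ^ 2 := h5
          _ ≤ 1 * (‖x‖ + 1) ^ 2 := mul_le_mul h7 h6 (by positivity) zero_le_one
          _ = _ := one_mul _
    · filter_upwards [ae_ne x] with y hy
      exact (pot_q0 (sub_ne_zero.2 (Ne.symm hy))).1
    · refine ((log_int x).sub (integrable_const 1)).congr ?_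
      filter_upwards [hA] with y hy
      rw [hy]
      rfl
  have hswap := integral_integral_swap (f := fun y g => h (y, g)) hI
  have h1 : ∫ y, ∫ g, h (y, g) ∂μ ∂μ = ∫ y : E, log (‖x - y‖ ^ 2) ∂μ - 1 := by
    rw [integral_congr_ae hA, integral_sub (log_int x) (integrable_const _), integral_const]
    simp
  have h2 : ∫ g, ∫ y, h (y, g) ∂μ ∂μ = ∫ g : E, (log (‖g‖ ^ 2) + U2 (q g x / ‖g‖ ^ 2)) ∂μ := by
    apply integral_congr_ae
    filter_upwards [ae_ne 0] with g hg
    exact (pot_q hg x).2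
  rw [h1, h2] at hswap
  linarith

end Pool.Agent.H79.Sq
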