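import Pool.Agent.H79.Sq.A4
namespace Pool.Agent.H79.Sq
open MeasureTheory Real Set
open scoped ENNReal

lemma norm_Φ_sq {u : Ω} (hu : u.1 ∈ Ioo (0:ℝ) 1) : ‖Φ u‖ ^ 2 = u.1 + (1 - u.1) * cos (π * u.2.2) ^ 2 := by
  unfold Φ
  rw [norm_T_sq]
  simp only
  have h1 := Real.sq_sqrt hu.1.le
  have h2 := Real.sq_sqrt (show 0 ≤ 1 - u.1 by have := hu.2; linarith)
  have h3 := Real.sin_sq_add_cos_sq (2 * π * u.2.1)
  have : (-(√u.1 * cos (2 * π * u.2.1))) ^ 2 + (-(√u.1 * sin (2 * π * u.2.1))) ^ 2 + (√(1 - u.1) * cos (π * u.2.2)) ^ 2 =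
    (√u.1) ^ 2 * (sin (2 * π * u.2.1) ^ 2 + cos (2 * π * u.2.1) ^ 2) + (√(1 - u.1)) ^ 2 * cos (π * u.2.2) ^ 2 := by ring
  rw [this, h1, h2, h3, mul_one]

lemma int_log_one_add_sqrt : ∫ s in Ioo (0:ℝ) 1, 2 * log ((1 + √s) / 2) = 1 - 2 * log 2 := by
  have hH : ∫ s in (0:ℝ)..1, log (1 + √s) = 1 / 2 := by
    have hc : Continuous (fun s : ℝ => log (1 + √s)) := by
      apply Continuous.log (by fun_prop)
      intro s
      have := Real.sqrt_nonneg s
      positivity
    have := intervalIntegral.integral_eq_sub_of_hasDerivAt_of_le (a := 0) (b := 1)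
      (f := fun s : ℝ => (s - 1) * log (1 + √s) + √s - s / 2) (f' := fun s => log (1 + √s)) zero_le_one
      (by
        apply Continuous.continuousOn
        exact (((continuous_id.sub continuous_const).mul hc).add Real.continuous_sqrt).sub (by fun_prop))
      (by
        intro s hs
        have hs0 : 0 < √s := Real.sqrt_pos.2 hs.1
        have h1 := Real.hasDerivAt_sqrt hs.1.ne'
        have h2 : HasDerivAt (fun s : ℝ => 1 + √s) (1 / (2 * √s)) s := h1.const_add 1
        have h3 := h2.log (by positivity)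
        have h4 : HasDerivAt (fun s : ℝ => s - 1) 1 s := (hasDerivAt_id s).sub_const 1
        have h5 := ((h4.mul h3).add h1).sub ((hasDerivAt_id s).div_const 2)
        refine h5.congr_deriv ?_
        have h6 : (√s) ^ 2 = s := Real.sq_sqrt hs.1.le
        have h7 : s - 1 = (√s - 1) * (1 + √s) := by nlinarith
        rw [h7]
        field_simp
        ring)
      (hc.intervalIntegrable _ _)
    rw [this]
    simp
    norm_num
  rw [← integral_Ioc_eq_integral_Ioo, ← intervalIntegral.integral_of_le zero_le_one]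
  have e : ∀ s : ℝ, 2 * log ((1 + √s) / 2) = 2 * (log (1 + √s) - log 2) := fun s => by
    rw [Real.log_div (by have := Real.sqrt_nonneg s; positivity) (by norm_num)]
  simp_rw [e]
  rw [intervalIntegral.integral_const_mul, intervalIntegral.integral_sub, hH]
  · simp
    ring
  · apply Continuous.intervalIntegrable
    apply Continuous.log (by fun_prop)
    intro s
    have := Real.sqrt_nonneg s
    positivity
  · exact intervalIntegrable_const

/-- L7 -/
theorem int_log_norm : ∫ y : E, log (‖y‖ ^ 2) ∂μ = 1 - 2 * log 2 := by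
  have h0 := log_int 0
  simp only [zero_sub, norm_neg] at h0
  have hm : Measurable (fun y : E => log (‖y‖ ^ 2)) := by
    have : Measurable (fun y : E => ‖y‖ ^ 2) := by fun_prop
    exact this.log
  have hI : Integrable (fun u : Ω => log (‖Φ u‖ ^ 2)) P := by
    have := (integrable_map_measure (μ := P) (f := Φ) hm.aestronglyMeasurable measurable_Φ.aemeasurable).1
      (by rw [map_Φ]; exact h0)
    exact this
  rw [← map_Φ, integral_map measurable_Φ.aemeasurable hm.aestronglyMeasurable]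
  unfold P at hI ⊢
  rw [integral_prod _ hI, ← int_log_one_add_sqrt]
  refine setIntegral_congr_fun measurableSet_Ioo fun s (hs : s ∈ Ioo (0:ℝ) 1) => ?_
  have hs0 : 0 < √s := Real.sqrt_pos.2 hs.1
  have hs1 : √s < 1 := by rw [Real.sqrt_lt' one_pos]; simpa using hs.2
  have hr : 0 < (1 - √s) / 2 := by linarith
  have h1 := (circ ((1 + √s) / 2) 0 hr).2
  have h2 : ∀ v : ℝ × ℝ, log (‖Φ (s, v)‖ ^ 2) =
      (fun β : ℝ => log (((1 + √s) / 2 + (1 - √s) / 2 * cos (2 * π * β)) ^ 2 +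
        (0 + (1 - √s) / 2 * sin (2 * π * β)) ^ 2)) v.2 := by
    intro v
    rw [norm_Φ_sq (u := (s, v)) hs]
    simp only
    congr 1
    have h3 := Real.sin_sq_add_cos_sq (2 * π * v.2)
    have h4 : cos (2 * π * v.2) = 2 * cos (π * v.2) ^ 2 - 1 := by
      rw [← Real.cos_two_mul]; ring_nf
    have h5 : (√s) ^ 2 = s := Real.sq_sqrt hs.1.le
    have h6 : ((1 + √s) / 2 + (1 - √s) / 2 * cos (2 * π * v.2)) ^ 2 + (0 + (1 - √s) / 2 * sin (2 * π * v.2)) ^ 2
      = ((1 + √s) / 2) ^ 2 + 2 * ((1 + √s) / 2) * ((1 - √s) / 2) * cos (2 * π * v.2) +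
        ((1 - √s) / 2) ^ 2 * (sin (2 * π * v.2) ^ 2 + cos (2 * π * v.2) ^ 2) := by ring
    rw [h6, h3, h4]
    nlinarith
  simp_rw [h2]
  rw [integral_fun_snd (fun β : ℝ => log (((1 + √s) / 2 + (1 - √s) / 2 * cos (2 * π * β)) ^ 2 +
        (0 + (1 - √s) / 2 * sin (2 * π * β)) ^ 2)), h1]
  have h7 : √(((1 + √s) / 2) ^ 2 + 0 ^ 2) = (1 + √s) / 2 := by
    rw [zero_pow two_ne_zero, add_zero, Real.sqrt_sq (by positivity)]
  have h8 : log⁺ (((1 - √s) / 2)⁻¹ * ((1 + √s) / 2)) = log (((1 - √s) / 2)⁻¹ * ((1 + √s) / 2)) := by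
    apply posLog_eq_log
    have : 1 ≤ ((1 - √s) / 2)⁻¹ * ((1 + √s) / 2) := by
      rw [le_inv_mul_iff₀ hr]; linarith
    rw [abs_of_nonneg (by linarith)]; exact this
  rw [h7, h8, Real.log_mul (inv_ne_zero hr.ne') (by positivity), Real.log_inv]
  simp

end Pool.Agent.H79.Sq
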