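import Pool.Agent.H79.Sq.A5
namespace Pool.Agent.H79.Sq
open MeasureTheory Real Set
open scoped ENNReal

lemma dir_bound (g x : E) : 0 ≤ (inner ℝ g x) ^ 2 / ‖g‖ ^ 2 ∧ (inner ℝ g x) ^ 2 / ‖g‖ ^ 2 ≤ ‖x‖ ^ 2 := by
  refine ⟨by positivity, ?_⟩
  have := q_nonneg g x
  unfold q at this
  rcases eq_or_ne g 0 with rfl | hg
  · simp
  · rw [div_le_iff₀ (by have := norm_pos_iff.2 hg; positivity)]
    nlinarith

lemma dir_int (x : E) : Integrable (fun g : E => (inner ℝ g x) ^ 2 / ‖g‖ ^ 2) μ := by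
  refine (integrable_const (‖x‖ ^ 2)).mono' (Measurable.aestronglyMeasurable (by fun_prop)) ?_
  refine Filter.Eventually.of_forall fun g => ?_
  rw [Real.norm_of_nonneg (dir_bound g x).1]
  exact (dir_bound g x).2

/-- second moment of directions -/
lemma dir_val (x : E) : ∫ g : E, (inner ℝ g x) ^ 2 / ‖g‖ ^ 2 ∂μ = ‖x‖ ^ 2 / 3 := by
  have h1 : ∀ i : Fin 3, ∫ g : E, (inner ℝ g x) ^ 2 / ‖g‖ ^ 2 ∂μ = ‖x‖ ^ 2 * ∫ g : E, g i ^ 2 / ‖g‖ ^ 2 ∂μ := by
    intro i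
    obtain ⟨O, hO⟩ := exists_iso x i
    have h2 := (mu_iso O).integral_comp O.toHomeomorph.measurableEmbedding
      (fun g : E => ‖x‖ ^ 2 * (g i ^ 2 / ‖g‖ ^ 2))
    rw [← integral_const_mul, ← h2]
    apply integral_congr_ae
    refine Filter.Eventually.of_forall fun g => ?_
    simp only
    rw [O.norm_map, ← O.inner_map_map, hO, inner_smul_right, EuclideanSpace.inner_single_right]
    simp
    ring
  have hi : ∀ i : Fin 3, Integrable (fun g : E => g i ^ 2 / ‖g‖ ^ 2) μ := by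
    intro i
    have := dir_int (EuclideanSpace.single i (1:ℝ))
    refine this.congr (Filter.Eventually.of_forall fun g => ?_)
    simp [EuclideanSpace.inner_single_right]
  have h3 : ∑ i : Fin 3, ∫ g : E, g i ^ 2 / ‖g‖ ^ 2 ∂μ = 1 := by
    rw [← integral_finsetSum _ (fun i _ => hi i)]
    have : ∀ᵐ g : E ∂μ, ∑ i : Fin 3, g i ^ 2 / ‖g‖ ^ 2 = 1 := by
      filter_upwards [ae_ne 0] with g hg
      rw [← Finset.sum_div, EuclideanSpace.norm_sq_eq]
      simp only [Real.norm_eq_abs, sq_abs]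
      apply div_self
      have h5 : ∑ i : Fin 3, g i ^ 2 = ‖g‖ ^ 2 := by
        rw [EuclideanSpace.norm_sq_eq]; simp
      rw [h5]
      have := norm_pos_iff.2 hg
      positivity
    rw [integral_congr_ae this]
    simp
  have h4 : ∑ i : Fin 3, ∫ g : E, (inner ℝ g x) ^ 2 / ‖g‖ ^ 2 ∂μ = ‖x‖ ^ 2 := by
    rw [Finset.sum_congr rfl (fun i _ => h1 i), ← Finset.mul_sum, h3, mul_one]
  rw [Finset.sum_const, Finset.card_univ, Fintype.card_fin, nsmul_eq_mul] at h4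
  push_cast at h4
  linarith

lemma measurable_U2 : Measurable U2 := by
  unfold U2
  exact Measurable.ite measurableSet_Iic (by fun_prop) Real.measurable_log

lemma neg_one_le_U2 {τ : ℝ} (h : 0 ≤ τ) : -1 ≤ U2 τ := by
  unfold U2
  split_ifs with h1
  · linarith
  · have := Real.log_nonneg (by push Not at h1; exact h1.le : (1:ℝ) ≤ τ)
    linarith

lemma q_div (x : E) : ∀ᵐ g : E ∂μ, q g x / ‖g‖ ^ 2 = ‖x‖ ^ 2 - (inner ℝ g x) ^ 2 / ‖g‖ ^ 2 := by
  filter_upwards [ae_ne 0] with g hg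
  have := norm_pos_iff.2 hg
  unfold q
  field_simp

lemma U2_int (x : E) : Integrable (fun g : E => U2 (q g x / ‖g‖ ^ 2)) μ := by
  have hm : Measurable (fun g : E => q g x / ‖g‖ ^ 2) := by
    unfold q
    fun_prop
  refine (integrable_const (1 + ‖x‖ ^ 2)).mono' (measurable_U2.comp hm).aestronglyMeasurable ?_
  filter_upwards [q_div x] with g hg
  have h0 : 0 ≤ q g x / ‖g‖ ^ 2 := div_nonneg (q_nonneg _ _) (by positivity)
  have h1 := neg_one_le_U2 h0
  have h2 := U2_le (q g x / ‖g‖ ^ 2)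
  have h3 := dir_bound g x
  rw [Real.norm_eq_abs, abs_le]
  constructor
  · nlinarith [sq_nonneg ‖x‖]
  · rw [hg] at h2 ⊢
    linarith [h3.1]

lemma log0_int : Integrable (fun g : E => log (‖g‖ ^ 2)) μ := by
  have h0 := log_int 0
  simpa only [zero_sub, norm_neg] using h0

lemma quad_int (x : E) : ∫ g : E, (‖x‖ ^ 2 - (inner ℝ g x) ^ 2 / ‖g‖ ^ 2 - 1) ∂μ = 2 / 3 * ‖x‖ ^ 2 - 1 := by
  have e : (fun g : E => ‖x‖ ^ 2 - (inner ℝ g x) ^ 2 / ‖g‖ ^ 2 - 1) =
    fun g : E => (‖x‖ ^ 2 - 1) - (inner ℝ g x) ^ 2 / ‖g‖ ^ 2 := by funext g; ring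
  rw [e, integral_sub (integrable_const _) (dir_int x), dir_val, integral_const]
  simp
  ring

/-- P1: the potential is at most the quadratic function. -/
theorem pot_le (x : E) : ∫ y : E, log (‖x - y‖ ^ 2) ∂μ ≤ 2 / 3 * ‖x‖ ^ 2 + 1 - 2 * log 2 := by
  rw [pot_formula, integral_add log0_int (U2_int x), int_log_norm]
  have h1 : ∫ g : E, U2 (q g x / ‖g‖ ^ 2) ∂μ ≤ ∫ g : E, (‖x‖ ^ 2 - (inner ℝ g x) ^ 2 / ‖g‖ ^ 2 - 1) ∂μ := by
    apply integral_mono_ae (U2_int x) (((integrable_const _).sub (dir_int x)).sub (integrable_const _))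
    filter_upwards [q_div x] with g hg
    rw [hg]
    exact U2_le _
  rw [quad_int] at h1
  linarith

/-- P2: equality in the unit ball. -/
theorem pot_eq {x : E} (hx : ‖x‖ ≤ 1) :
    ∫ y : E, log (‖x - y‖ ^ 2) ∂μ = 2 / 3 * ‖x‖ ^ 2 + 1 - 2 * log 2 := by
  rw [pot_formula, integral_add log0_int (U2_int x), int_log_norm]
  have h1 : ∫ g : E, U2 (q g x / ‖g‖ ^ 2) ∂μ = ∫ g : E, (‖x‖ ^ 2 - (inner ℝ g x) ^ 2 / ‖g‖ ^ 2 - 1) ∂μ := by
    apply integral_congr_ae
    filter_upwards [q_div x] with g hg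
    rw [hg]
    unfold U2
    rw [if_pos]
    have := (dir_bound g x).1
    nlinarith [norm_nonneg x]
  rw [quad_int] at h1
  linarith

lemma sq_int : Integrable (fun y : E => ‖y‖ ^ 2) μ := by
  refine (integrable_const (1:ℝ)).mono' (Measurable.aestronglyMeasurable (by fun_prop)) ?_
  filter_upwards [ae_norm_lt] with y hy
  rw [Real.norm_of_nonneg (by positivity)]
  nlinarith [norm_nonneg y]

end Pool.Agent.H79.Sq
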