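import Pool.Agent.H79.Sq.A6
namespace Pool.Agent.H79.Sq
open MeasureTheory Real Set
open scoped ENNReal

theorem int_sq : ∫ y : E, ‖y‖ ^ 2 ∂μ = 3 / 4 := by
  have hm : Measurable (fun y : E => ‖y‖ ^ 2) := by fun_prop
  have hI : Integrable (fun u : Ω => ‖Φ u‖ ^ 2) P := by
    have := (integrable_map_measure (μ := P) (f := Φ) hm.aestronglyMeasurable measurable_Φ.aemeasurable).1
      (by rw [map_Φ]; exact sq_int)
    exact this
  rw [← map_Φ, integral_map measurable_Φ.aemeasurable hm.aestronglyMeasurable]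
  unfold P at hI ⊢
  rw [integral_prod _ hI]
  have h1 : ∀ s ∈ Ioo (0:ℝ) 1, ∫ v : ℝ × ℝ, ‖Φ (s, v)‖ ^ 2
      ∂((volume.restrict (Ioo (0:ℝ) 1)).prod (volume.restrict (Ioo (0:ℝ) 1))) = s + (1 - s) * (1 / 2) := by
    intro s hs
    have h2 : ∀ v : ℝ × ℝ, ‖Φ (s, v)‖ ^ 2 = (fun β : ℝ => s + (1 - s) * cos (π * β) ^ 2) v.2 := fun v =>
      norm_Φ_sq (u := (s, v)) hs
    simp_rw [h2]
    rw [integral_fun_snd (fun β : ℝ => s + (1 - s) * cos (π * β) ^ 2), ← integral_Ioc_eq_integral_Ioo,
      ← intervalIntegral.integral_of_le zero_le_one, intervalIntegral.integral_add (by simp)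
      (Continuous.intervalIntegrable (by fun_prop) _ _), intervalIntegral.integral_const_mul]
    have h3 := intervalIntegral.integral_comp_mul_left (a := 0) (b := 1) (fun x : ℝ => cos x ^ 2)
      (c := π) pi_pos.ne'
    rw [h3, integral_cos_sq]
    simp
    have := pi_pos
    field_simp
    ring_nf
    simp
  rw [setIntegral_congr_fun measurableSet_Ioo h1, ← integral_Ioc_eq_integral_Ioo,
      ← intervalIntegral.integral_of_le zero_le_one]
  have e : ∀ s : ℝ, s + (1 - s) * (1 / 2) = 1 / 2 + 1 / 2 * s := fun s => by ring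
  simp_rw [e]
  rw [intervalIntegral.integral_add (by simp) (Continuous.intervalIntegrable (by fun_prop) _ _),
    intervalIntegral.integral_const_mul, integral_id]
  simp
  norm_num

/-- the logarithmic energy -/
theorem log2_int : Integrable (fun p : E × E => log (‖p.1 - p.2‖ ^ 2)) (μ.prod μ) := by
  have hm : Measurable (fun p : E × E => log (‖p.1 - p.2‖ ^ 2)) := by
    have : Measurable (fun p : E × E => ‖p.1 - p.2‖ ^ 2) := by fun_prop
    exact this.log
  refine integrable_of_le hm (log 4) ?_ ?_ ?_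
  · filter_upwards [ae_norm_lt] with x hx
    filter_upwards [ae_norm_lt] with y hy
    rcases eq_or_lt_of_le (show 0 ≤ ‖x - y‖ ^ 2 by positivity) with h0 | h0
    · rw [← h0, Real.log_zero]; exact Real.log_nonneg (by norm_num)
    · apply Real.log_le_log h0
      have := norm_sub_le x y
      nlinarith [norm_nonneg (x - y)]
  · exact Filter.Eventually.of_forall fun x => log_int x
  · refine (((sq_int.const_mul (2 / 3)).add (integrable_const 1)).sub (integrable_const (2 * log 2))).congr ?_
    filter_upwards [ae_norm_lt] with x hx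
    rw [pot_eq hx.le]
    rfl

theorem log2_val : ∫ p : E × E, log (‖p.1 - p.2‖ ^ 2) ∂(μ.prod μ) = 3 / 2 - 2 * log 2 := by
  rw [integral_prod _ log2_int]
  have : ∀ᵐ x : E ∂μ, ∫ y : E, log (‖x - y‖ ^ 2) ∂μ = 2 / 3 * ‖x‖ ^ 2 + (1 - 2 * log 2) := by
    filter_upwards [ae_norm_lt] with x hx
    rw [pot_eq hx.le]; ring
  rw [integral_congr_ae this, integral_add (sq_int.const_mul _) (integrable_const _), integral_const_mul,
    int_sq, integral_const]
  simp
  ring

end Pool.Agent.H79.Sq
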