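import Pool.Agent.H79.Sq.A7
namespace Pool.Agent.H79.Sq
open MeasureTheory Real Set Filter
open scoped ENNReal Topology

/-- the Frullani integrand -/
noncomputable def G (a t : ℝ) : ℝ := t⁻¹ * (exp (-(a * t)) - exp (-t))

lemma G_bound {a t : ℝ} (ha : 0 < a) (ht : 0 < t) : |G a t| ≤ |a - 1| * exp (-(min a 1 * t)) := by
  unfold G
  have key : ∀ x y : ℝ, 0 < x → x ≤ y → 0 ≤ t⁻¹ * (exp (-(x * t)) - exp (-(y * t))) ∧
      t⁻¹ * (exp (-(x * t)) - exp (-(y * t))) ≤ (y - x) * exp (-(x * t)) := by
    intro x y hx hxy
    have h1 : exp (-(y * t)) = exp (-(x * t)) * exp (-((y - x) * t)) := by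
      rw [← Real.exp_add]; ring_nf
    have h2 : 1 - (y - x) * t ≤ exp (-((y - x) * t)) := by
      have := Real.add_one_le_exp (-((y - x) * t)); linarith
    have h3 : exp (-((y - x) * t)) ≤ 1 := by
      rw [Real.exp_le_one_iff]; nlinarith
    have h4 := Real.exp_pos (-(x * t))
    constructor
    · rw [h1]
      apply mul_nonneg (by positivity)
      nlinarith
    · rw [inv_mul_le_iff₀ ht, h1]
      nlinarith
  rcases le_total a 1 with h | h
  · have := key a 1 ha h
    rw [one_mul] at this
    rw [abs_of_nonneg this.1, min_eq_left h, abs_of_nonpos (by linarith)]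
    linarith [this.2]
  · have := key 1 a one_pos h
    rw [one_mul] at this
    rw [min_eq_right h, one_mul, abs_of_nonneg (by linarith : (0:ℝ) ≤ a - 1), ← abs_neg, abs_of_nonneg]
    · linarith [this.2]
    · linarith [this.1]

lemma G_int {a : ℝ} (ha : 0 < a) : IntegrableOn (G a) (Ioi 0) := by
  have h1 : 0 < min a 1 := lt_min ha one_pos
  have h2 := (exp_neg_integrableOn_Ioi 0 h1).const_mul (|a - 1|)
  refine Integrable.mono' h2 ?_ ?_
  · unfold G
    exact Measurable.aestronglyMeasurable (by fun_prop)
  · filter_upwards [ae_restrict_mem measurableSet_Ioi] with t ht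
    have := G_bound ha ht
    rw [neg_mul]
    exact this

lemma G_val {a : ℝ} (ha : 0 < a) : ∫ t in Ioi (0:ℝ), G a t = -log a := by
  have h := Frullani.integral_Ioi_eq (f := fun x : ℝ => exp (-x)) (a := a) (b := 1) (L := 1) (R := 0)
    (by
      have hc : Continuous (fun x : ℝ => exp (-x)) := by fun_prop
      exact (hc.locallyIntegrable (μ := volume)).locallyIntegrableOn (Ioi 0)) ha one_pos
    (by
      have : Tendsto (fun x : ℝ => exp (-x)) (𝓝 0) (𝓝 (exp (-0))) := Continuous.tendsto (by fun_prop) 0
      rw [neg_zero, Real.exp_zero] at this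
      exact this.mono_left nhdsWithin_le_nhds)
    (by simpa using Real.tendsto_exp_neg_atTop_nhds_zero)
    (by
      have := G_int ha
      unfold G at this
      simpa using this)
  have e : ∀ t : ℝ, G a t = t⁻¹ • (exp (-(a * t)) - exp (-(1 * t))) := fun t => by
    unfold G; rw [one_mul]; rfl
  simp_rw [e]
  rw [h]
  rw [one_div, Real.log_inv]
  simp

lemma G_abs {a : ℝ} (ha : 0 < a) : ∫ t in Ioi (0:ℝ), |G a t| = |log a| := by
  have hs : ∀ t ∈ Ioi (0:ℝ), ∀ x y : ℝ, x ≤ y → 0 ≤ t⁻¹ * (exp (-(x * t)) - exp (-(y * t))) := by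
    intro t ht x y hxy
    apply mul_nonneg (inv_nonneg.2 (le_of_lt ht))
    have : exp (-(y * t)) ≤ exp (-(x * t)) := Real.exp_le_exp.2 (by
      have : 0 < t := ht
      nlinarith)
    linarith
  rcases le_total a 1 with h | h
  · rw [setIntegral_congr_fun (g := G a) measurableSet_Ioi, G_val ha, abs_of_nonpos (Real.log_nonpos ha.le h)]
    intro t ht
    have := hs t ht a 1 h
    simp only
    rw [abs_of_nonneg]
    unfold G
    rwa [one_mul] at this
  · rw [setIntegral_congr_fun (g := fun t => -G a t) measurableSet_Ioi, integral_neg, G_val ha,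
      abs_of_nonneg (Real.log_nonneg h), neg_neg]
    intro t ht
    have := hs t ht 1 a h
    simp only
    rw [abs_of_nonpos]
    unfold G
    rw [one_mul] at this
    linarith

/-- mixture representation of a log-integral -/
theorem mix {X : Type*} [MeasurableSpace X] {p : Measure X} [IsFiniteMeasure p] {a : X → ℝ} (hm : Measurable a)
    (hpos : ∀ᵐ x ∂p, 0 < a x) (hl : Integrable (fun x => log (a x)) p) :
    IntegrableOn (fun t : ℝ => t⁻¹ * (∫ x, exp (-(a x * t)) ∂p - p.real univ * exp (-t))) (Ioi 0) ∧
    ∫ t in Ioi (0:ℝ), t⁻¹ * (∫ x, exp (-(a x * t)) ∂p - p.real univ * exp (-t)) = -∫ x, log (a x) ∂p := by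
  have hmG : Measurable (fun z : X × ℝ => G (a z.1) z.2) := by
    unfold G
    fun_prop
  have hI : Integrable (fun z : X × ℝ => G (a z.1) z.2) (p.prod (volume.restrict (Ioi (0:ℝ)))) := by
    rw [integrable_prod_iff hmG.aestronglyMeasurable]
    constructor
    · filter_upwards [hpos] with x hx
      exact G_int hx
    · refine hl.abs.congr ?_
      filter_upwards [hpos] with x hx
      exact (G_abs hx).symm
  have hin : ∀ t ∈ Ioi (0:ℝ), ∫ x, G (a x) t ∂p = t⁻¹ * (∫ x, exp (-(a x * t)) ∂p - p.real univ * exp (-t)) := by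
    intro t ht
    unfold G
    have he : Integrable (fun x => exp (-(a x * t))) p := by
      refine (integrable_const (1:ℝ)).mono' (Measurable.aestronglyMeasurable (by fun_prop)) ?_
      filter_upwards [hpos] with x hx
      rw [Real.norm_of_nonneg (Real.exp_pos _).le, Real.exp_le_one_iff]
      have : 0 < t := ht
      nlinarith [mul_pos hx this]
    rw [integral_const_mul, integral_sub he (integrable_const _), integral_const, smul_eq_mul]
  have hsw := hI.integral_prod_right
  constructor
  · refine Integrable.congr hsw ?_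
    filter_upwards [ae_restrict_mem measurableSet_Ioi] with t ht
    exact hin t ht
  · rw [← setIntegral_congr_fun measurableSet_Ioi hin]
    have h1 := integral_integral_swap (f := fun x t => G (a x) t) hI
    rw [← h1, ← integral_neg]
    apply integral_congr_ae
    filter_upwards [hpos] with x hx
    exact G_val hx

end Pool.Agent.H79.Sq
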