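import Pool.Agent.H79.Sq.B1
namespace Pool.Agent.H79.Sq
open MeasureTheory Real Set Filter
open scoped ENNReal Topology

/-- total mass of a Gaussian -/
noncomputable def gm (b : ℝ) : ℝ := ∫ z : E, exp (-b * ‖z‖ ^ 2)

lemma gm_eq {b : ℝ} (hb : 0 < b) : gm b = (π / b) ^ (3 / 2 : ℝ) := by
  unfold gm
  rw [GaussianFourier.integral_rexp_neg_mul_sq_norm hb]
  simp

lemma gm_pos {b : ℝ} (hb : 0 < b) : 0 < gm b := by
  rw [gm_eq hb]
  have := pi_pos
  positivity

lemma gauss_int {b : ℝ} (hb : 0 < b) : Integrable (fun z : E => exp (-b * ‖z‖ ^ 2)) := by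
  by_contra h
  have h1 := gm_pos hb
  unfold gm at h1
  rw [integral_undef h] at h1
  exact lt_irrefl _ h1

/-- Gaussian bump -/
noncomputable def K (t : ℝ) (x z : E) : ℝ := exp (-(2 * t) * ‖x - z‖ ^ 2)

lemma K_mul (t : ℝ) (x y z : E) : K t x z * K t y z =
    exp (-(‖x - y‖ ^ 2 * t)) * exp (-(4 * t) * ‖z - (1 / 2 : ℝ) • (x + y)‖ ^ 2) := by
  unfold K
  rw [← Real.exp_add, ← Real.exp_add]
  congr 1
  have h1 := parallelogram_law_with_norm ℝ ((x - z)) ((y - z))
  have h2 : x - z + (y - z) = (-2 : ℝ) • (z - (1 / 2 : ℝ) • (x + y)) := by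
    module
  have h3 : x - z - (y - z) = x - y := by abel
  rw [h2, h3, norm_smul, Real.norm_eq_abs, show |(-2 : ℝ)| = 2 by norm_num] at h1
  linear_combination t * h1

lemma K_pair {t : ℝ} (ht : 0 < t) (x y : E) : Integrable (fun z => K t x z * K t y z) ∧
    ∫ z, K t x z * K t y z = exp (-(‖x - y‖ ^ 2 * t)) * gm (4 * t) := by
  have h4 : 0 < 4 * t := by positivity
  have hi := (gauss_int h4).comp_sub_right ((1 / 2 : ℝ) • (x + y))
  constructor
  · simp_rw [K_mul]
    exact hi.const_mul _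
  · simp_rw [K_mul]
    rw [integral_const_mul]
    congr 1
    unfold gm
    exact integral_sub_right_eq_self (fun z : E => exp (-(4 * t) * ‖z‖ ^ 2)) _

lemma K_pos (t : ℝ) (x z : E) : 0 < K t x z := Real.exp_pos _

lemma K_le {t : ℝ} (ht : 0 ≤ t) (x z : E) : K t x z ≤ 1 := by
  unfold K
  rw [Real.exp_le_one_iff]
  have := sq_nonneg ‖x - z‖
  nlinarith

lemma K_meas (t : ℝ) : Measurable (fun p : E × E => K t p.1 p.2) := by
  unfold K
  fun_prop

/-- smoothing of a measure -/
noncomputable def M (t : ℝ) (p : Measure E) (z : E) : ℝ := ∫ x, K t x z ∂p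

theorem M_pair {t : ℝ} (ht : 0 < t) (p p' : Measure E) [IsFiniteMeasure p] [IsFiniteMeasure p'] :
    Integrable (fun z => M t p z * M t p' z) ∧
    ∫ z, M t p z * M t p' z = (∫ u : E × E, exp (-(‖u.1 - u.2‖ ^ 2 * t)) ∂(p.prod p')) * gm (4 * t) := by
  set H : (E × E) × E → ℝ := fun w => K t w.1.1 w.2 * K t w.1.2 w.2 with hH
  have hm : Measurable H := by
    rw [hH]
    unfold K
    fun_prop
  have hn : ∀ u : E × E, ∀ z, ‖H (u, z)‖ = H (u, z) := fun u z =>
    Real.norm_of_nonneg (mul_nonneg (K_pos _ _ _).le (K_pos _ _ _).le)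
  have hb : Integrable (fun u : E × E => exp (-(‖u.1 - u.2‖ ^ 2 * t)) * gm (4 * t)) (p.prod p') := by
    apply Integrable.mul_const
    refine (integrable_const (1:ℝ)).mono' (Measurable.aestronglyMeasurable (by fun_prop)) ?_
    refine Eventually.of_forall fun u => ?_
    rw [Real.norm_of_nonneg (Real.exp_pos _).le, Real.exp_le_one_iff]
    have := sq_nonneg ‖u.1 - u.2‖
    nlinarith
  have hI : Integrable H ((p.prod p').prod volume) := by
    rw [integrable_prod_iff hm.aestronglyMeasurable]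
    refine ⟨Eventually.of_forall fun u => (K_pair ht u.1 u.2).1, ?_⟩
    refine hb.congr (Eventually.of_forall fun u => ?_)
    simp_rw [hn]
    exact (K_pair ht u.1 u.2).2.symm
  have hin : ∀ z, ∫ u, H (u, z) ∂(p.prod p') = M t p z * M t p' z := by
    intro z
    exact integral_prod_mul (fun x => K t x z) (fun y => K t y z)
  constructor
  · have := hI.integral_prod_right
    simpa only [hin] using this
  · have h1 := integral_integral_swap (f := fun u z => H (u, z)) hI
    simp_rw [hin] at h1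
    rw [← h1, ← integral_mul_const]
    exact integral_congr_ae (Eventually.of_forall fun u => (K_pair ht u.1 u.2).2)

/-- `b(t)` -/
noncomputable def bb (t : ℝ) : ℝ := ∫ u : E × E, exp (-(‖u.1 - u.2‖ ^ 2 * t)) ∂(μ.prod μ)

lemma exp_int {t : ℝ} (ht : 0 < t) {X : Type*} [MeasurableSpace X] {p : Measure X} [IsFiniteMeasure p]
    {a : X → ℝ} (hm : Measurable a) (ha : ∀ x, 0 ≤ a x) : Integrable (fun x => exp (-(a x * t))) p := by
  refine (integrable_const (1:ℝ)).mono' (Measurable.aestronglyMeasurable (by fun_prop)) ?_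
  refine Eventually.of_forall fun u => ?_
  rw [Real.norm_of_nonneg (Real.exp_pos _).le, Real.exp_le_one_iff]
  have := ha u
  nlinarith

/-- positive definiteness, in the weighted form. -/
theorem psd {ι : Type*} [Fintype ι] (x : ι → E) {t : ℝ} (ht : 0 < t) (w n : ℝ) :
    0 ≤ w ^ 2 * ∑ i, ∑ j, exp (-(‖x i - x j‖ ^ 2 * t)) -
      2 * n * w * ∑ i, ∫ y, exp (-(‖x i - y‖ ^ 2 * t)) ∂μ + n ^ 2 * bb t := by
  set p : Measure E := ∑ i, Measure.dirac (x i) with hp
  have hfin : IsFiniteMeasure p := by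
    rw [hp]
    infer_instance
  have hpint : ∀ F : E → ℝ, ∫ y, F y ∂p = ∑ i, F (x i) := by
    intro F
    rw [hp, integral_finsetSum_measure]
    · simp
    · intro i _
      exact integrable_dirac (by simp)
  obtain ⟨i1, v1⟩ := M_pair ht p p
  obtain ⟨i2, v2⟩ := M_pair ht p μ
  obtain ⟨i3, v3⟩ := M_pair ht μ μ
  have hc := gm_pos (show 0 < 4 * t by positivity)
  have hx1 : Integrable (fun u : E × E => exp (-(‖u.1 - u.2‖ ^ 2 * t))) (p.prod p) :=
    exp_int ht (by fun_prop) (fun u => by positivity)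
  have hx2 : Integrable (fun u : E × E => exp (-(‖u.1 - u.2‖ ^ 2 * t))) (p.prod μ) :=
    exp_int ht (by fun_prop) (fun u => by positivity)
  rw [integral_prod _ hx1, hpint] at v1
  simp_rw [hpint] at v1
  rw [integral_prod _ hx2, hpint] at v2
  have h0 : 0 ≤ ∫ z, (w * M t p z - n * M t μ z) ^ 2 := integral_nonneg fun z => sq_nonneg _
  have e : ∀ z, (w * M t p z - n * M t μ z) ^ 2 = w ^ 2 * (M t p z * M t p z) -
      2 * n * w * (M t p z * M t μ z) + n ^ 2 * (M t μ z * M t μ z) := fun z => by ring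
  simp_rw [e] at h0
  have i12 : Integrable (fun z => w ^ 2 * (M t p z * M t p z) - 2 * n * w * (M t p z * M t μ z)) :=
    (i1.const_mul _).sub (i2.const_mul _)
  rw [integral_add i12 (i3.const_mul _),
    integral_sub (i1.const_mul _) (i2.const_mul _), integral_const_mul, integral_const_mul, integral_const_mul,
    v1, v2, v3] at h0
  have : 0 ≤ (w ^ 2 * ∑ i, ∑ j, exp (-(‖x i - x j‖ ^ 2 * t)) -
      2 * n * w * ∑ i, ∫ y, exp (-(‖x i - y‖ ^ 2 * t)) ∂μ + n ^ 2 * bb t) * gm (4 * t) := by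
    unfold bb
    linarith
  exact nonneg_of_mul_nonneg_left this hc

end Pool.Agent.H79.Sq
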