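import Pool.Agent.H79.Sq.B2
namespace Pool.Agent.H79.Sq
open MeasureTheory Real Set Filter
open scoped ENNReal Topology

/-- kernel as an extended nonnegative function -/
noncomputable def κ (t : ℝ) (x y : E) : ℝ≥0∞ := ENNReal.ofReal (exp (-(‖x - y‖ ^ 2 * t)))

lemma κ_meas (t : ℝ) : Measurable (fun p : E × E => κ t p.1 p.2) := by
  unfold κ; fun_prop

lemma κ_meas' (t : ℝ) (x : E) : Measurable (κ t x) := by
  unfold κ; fun_prop

lemma κ_comm (t : ℝ) (x y : E) : κ t x y = κ t y x := by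
  unfold κ; rw [norm_sub_rev]

lemma gauss1 {t : ℝ} (ht : 0 < t) (c : ℝ) :
    ∫⁻ a : ℝ, ENNReal.ofReal (exp (-((c - a) ^ 2 * t))) = ENNReal.ofReal (√(π / t)) := by
  have h1 : Integrable (fun a : ℝ => exp (-t * (c - a) ^ 2)) :=
    (integrable_exp_neg_mul_sq ht).comp_sub_left c
  have h2 : ∫ a : ℝ, exp (-t * (c - a) ^ 2) = √(π / t) := by
    rw [integral_sub_left_eq_self (fun a : ℝ => exp (-t * a ^ 2)) volume c]
    exact integral_gaussian t
  rw [← h2, ofReal_integral_eq_lintegral_ofReal h1 (Eventually.of_forall fun a => (Real.exp_pos _).le)]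
  refine lintegral_congr fun a => ?_
  congr 2
  ring

/-- Step 2: uniform bound for the smoothing of `μ`. -/
lemma sup_bound {t : ℝ} (ht : 0 < t) (x : E) : ∫⁻ y, κ t x y ∂μ ≤ ENNReal.ofReal (1 / t) := by
  rw [lintegral_mu_disc _ (κ_meas' t x)]
  have hpi := pi_pos
  have h1 : ∀ p : ℝ × ℝ, ∫⁻ β in Ioo (0:ℝ) 1,
      κ t x (T (√(1 - p.1 ^ 2 - p.2 ^ 2) * cos (π * β), p)) * ENNReal.ofReal π⁻¹ ≤
      ENNReal.ofReal π⁻¹ * (ENNReal.ofReal (exp (-((x 0 - p.1) ^ 2 * t))) * ENNReal.ofReal (exp (-((x 1 - p.2) ^ 2 * t)))) := by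
    intro p
    calc _ ≤ ∫⁻ β in Ioo (0:ℝ) 1, ENNReal.ofReal π⁻¹ * (ENNReal.ofReal (exp (-((x 0 - p.1) ^ 2 * t))) * ENNReal.ofReal (exp (-((x 1 - p.2) ^ 2 * t)))) := by
          apply lintegral_mono
          intro β
          simp only
          rw [mul_comm]
          gcongr
          unfold κ
          rw [← ENNReal.ofReal_mul (Real.exp_pos _).le, ← Real.exp_add]
          apply ENNReal.ofReal_le_ofReal
          apply Real.exp_le_exp.2
          have : (x 0 - p.1) ^ 2 + (x 1 - p.2) ^ 2 ≤ ‖x - T (√(1 - p.1 ^ 2 - p.2 ^ 2) * cos (π * β), p)‖ ^ 2 := by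
            rw [EuclideanSpace.norm_sq_eq, Fin.sum_univ_three]
            simp only [PiLp.sub_apply, Real.norm_eq_abs, sq_abs]
            have e0 : (T (√(1 - p.1 ^ 2 - p.2 ^ 2) * cos (π * β), p)) 0 = p.1 := rfl
            have e1 : (T (√(1 - p.1 ^ 2 - p.2 ^ 2) * cos (π * β), p)) 1 = p.2 := rfl
            rw [e0, e1]
            nlinarith [sq_nonneg (x 2 - (T (√(1 - p.1 ^ 2 - p.2 ^ 2) * cos (π * β), p)) 2)]
          nlinarith
      _ = _ := by simp
  calc _ ≤ ∫⁻ p : ℝ × ℝ in {p | p.1 ^ 2 + p.2 ^ 2 < 1}, ENNReal.ofReal π⁻¹ * (ENNReal.ofReal (exp (-((x 0 - p.1) ^ 2 * t))) * ENNReal.ofReal (exp (-((x 1 - p.2) ^ 2 * t)))) :=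
        lintegral_mono fun p => h1 p
    _ ≤ ∫⁻ p : ℝ × ℝ, ENNReal.ofReal π⁻¹ * (ENNReal.ofReal (exp (-((x 0 - p.1) ^ 2 * t))) * ENNReal.ofReal (exp (-((x 1 - p.2) ^ 2 * t)))) :=
        setLIntegral_le_lintegral _ _
    _ = ENNReal.ofReal π⁻¹ * (ENNReal.ofReal (√(π / t)) * ENNReal.ofReal (√(π / t))) := by
        rw [lintegral_const_mul _ (by fun_prop)]
        congr 1
        rw [show (volume : Measure (ℝ × ℝ)) = (volume : Measure ℝ).prod (volume : Measure ℝ) from rfl,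
          lintegral_prod_mul (f := fun a : ℝ => ENNReal.ofReal (exp (-((x 0 - a) ^ 2 * t))))
            (g := fun a : ℝ => ENNReal.ofReal (exp (-((x 1 - a) ^ 2 * t)))) (by fun_prop) (by fun_prop),
          gauss1 ht, gauss1 ht]
    _ = ENNReal.ofReal (1 / t) := by
        rw [← ENNReal.ofReal_mul (by positivity), ← ENNReal.ofReal_mul (by positivity),
          Real.mul_self_sqrt (by positivity)]
        congr 1
        field_simp

end Pool.Agent.H79.Sq
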