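import Pool.Agent.H79.Sq.C1
namespace Pool.Agent.H79.Sq
open MeasureTheory Real Set Filter
open scoped ENNReal Topology

/-- region where the density is not too large compared to its planar profile -/
def S (τ : ℝ) : Set E := {y : E | τ * √(1 - (y 0) ^ 2 - (y 1) ^ 2) < √(1 - ‖y‖ ^ 2)}

lemma S_meas (τ : ℝ) : MeasurableSet (S τ) := by
  unfold S
  apply measurableSet_lt <;> fun_prop

lemma sin_pos' {β : ℝ} (h : β ∈ Ioo (0:ℝ) 1) : 0 < sin (π * β) :=
  sin_pos_of_pos_of_lt_pi (by have := h.1; have := pi_pos; positivity) (by nlinarith [h.2, pi_pos])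

lemma sqrt_Φ {s α β : ℝ} (hs : s ∈ Ioo (0:ℝ) 1) (hβ : β ∈ Ioo (0:ℝ) 1) :
    √(1 - ‖Φ (s, α, β)‖ ^ 2) = √(1 - s) * sin (π * β) := by
  rw [norm_Φ_sq (u := (s, α, β)) hs]
  have h1 := Real.sin_sq_add_cos_sq (π * β)
  have h2 : 1 - (s + (1 - s) * cos (π * β) ^ 2) = (1 - s) * sin (π * β) ^ 2 := by
    have : cos (π * β) ^ 2 = 1 - sin (π * β) ^ 2 := by linarith
    rw [this]; ring
  simp only
  rw [h2, Real.sqrt_mul (by linarith [hs.2]), Real.sqrt_sq (sin_pos' hβ).le]

lemma f_Φ {s α β : ℝ} (hs : s ∈ Ioo (0:ℝ) 1) (hβ : β ∈ Ioo (0:ℝ) 1) :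
    f (Φ (s, α, β)) = (π ^ 2 * (√(1 - s) * sin (π * β)))⁻¹ := by
  unfold f
  rw [sqrt_Φ hs hβ]

lemma mem_S {τ s α β : ℝ} (hs : s ∈ Ioo (0:ℝ) 1) (hβ : β ∈ Ioo (0:ℝ) 1) :
    Φ (s, α, β) ∈ S τ ↔ τ < sin (π * β) := by
  unfold S
  rw [Set.mem_ofPred_eq, sqrt_Φ hs hβ, Φ_0, Φ_1]
  have h1 : 1 - (-(√s * cos (2 * π * α))) ^ 2 - (-(√s * sin (2 * π * α))) ^ 2 = 1 - s := by
    have h2 := Real.sin_sq_add_cos_sq (2 * π * α)
    have h3 := Real.sq_sqrt hs.1.le
    have : (-(√s * cos (2 * π * α))) ^ 2 + (-(√s * sin (2 * π * α))) ^ 2 =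
      (√s) ^ 2 * (sin (2 * π * α) ^ 2 + cos (2 * π * α) ^ 2) := by ring
    rw [h2, h3] at this
    linarith
  simp only
  rw [h1]
  have h4 : 0 < √(1 - s) := Real.sqrt_pos.2 (by linarith [hs.2])
  rw [mul_comm τ, mul_lt_mul_iff_right₀ h4]

lemma sin_lower {β : ℝ} (h : β ∈ Ioo (0:ℝ) 1) : 2 * min β (1 - β) ≤ sin (π * β) := by
  have hpi := pi_pos
  have key : ∀ x : ℝ, 0 ≤ x → x ≤ 1 / 2 → 2 * x ≤ sin (π * x) := by
    intro x h0 h1
    have := Real.mul_le_sin (x := π * x) (by positivity) (by nlinarith)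
    have e : 2 / π * (π * x) = 2 * x := by field_simp
    rwa [e] at this
  rcases le_total β (1 / 2) with h1 | h1
  · rw [min_eq_left (by linarith)]
    exact key β h.1.le h1
  · rw [min_eq_right (by linarith)]
    have := key (1 - β) (by linarith [h.2]) (by linarith)
    rwa [show π * (1 - β) = π - π * β by ring, Real.sin_pi_sub] at this

lemma sin_upper {β : ℝ} (h : β ∈ Ioo (0:ℝ) 1) : sin (π * β) ≤ π * β ∧ sin (π * β) ≤ π * (1 - β) := by
  have hpi := pi_pos
  constructor
  · exact Real.sin_le (by have := h.1; positivity)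
  · have := Real.sin_le (x := π * (1 - β)) (by have := h.2; apply mul_nonneg hpi.le; linarith)
    rwa [show π * (1 - β) = π - π * β by ring, Real.sin_pi_sub, show π - π * β = π * (1 - β) by ring] at this

/-- Step 3 -/
lemma mu_Sc {τ : ℝ} (h0 : 0 < τ) : μ (S τ)ᶜ ≤ ENNReal.ofReal τ := by
  rw [← lintegral_indicator_one (S_meas τ).compl, lintegral_mu _ (measurable_one.indicator (S_meas τ).compl)]
  have hin : ∀ s ∈ Ioo (0:ℝ) 1, ∀ α : ℝ, ∫⁻ β in Ioo (0:ℝ) 1, (S τ)ᶜ.indicator (1 : E → ℝ≥0∞) (Φ (s, α, β)) ≤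
      ENNReal.ofReal τ := by
    intro s hs α
    calc _ ≤ ∫⁻ β in Ioo (0:ℝ) 1, (Iic (τ / 2) ∪ Ici (1 - τ / 2)).indicator (1 : ℝ → ℝ≥0∞) β := by
          refine setLIntegral_mono' measurableSet_Ioo fun β hβ => ?_
          by_cases hmem : Φ (s, α, β) ∈ (S τ)ᶜ
          · rw [indicator_of_mem hmem, indicator_of_mem]
            · rfl
            · have h1 : sin (π * β) ≤ τ := by
                by_contra hcon
                exact hmem ((mem_S hs hβ).2 (not_le.1 hcon))
              have h2 := sin_lower hβ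
              rcases min_choice β (1 - β) with h | h
              · left; rw [h] at h2; show β ≤ τ / 2; linarith
              · right; rw [h] at h2; show 1 - τ / 2 ≤ β; linarith
          · rw [indicator_of_notMem hmem]; exact zero_le
      _ = volume ((Iic (τ / 2) ∪ Ici (1 - τ / 2)) ∩ Ioo (0:ℝ) 1) := by
          rw [setLIntegral_indicator (measurableSet_Iic.union measurableSet_Ici)]
          simp
      _ ≤ volume (Ioc 0 (τ / 2) ∪ Ico (1 - τ / 2) 1) := by
          apply measure_mono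
          rintro β ⟨h1 | h1, h2⟩
          · left; exact ⟨h2.1, h1⟩
          · right; exact ⟨h1, h2.2⟩
      _ ≤ volume (Ioc 0 (τ / 2)) + volume (Ico (1 - τ / 2) 1) := measure_union_le _ _
      _ = ENNReal.ofReal τ := by
          rw [Real.volume_Ioc, Real.volume_Ico, ← ENNReal.ofReal_add (by linarith) (by linarith)]
          congr 1; ring
  calc _ ≤ ∫⁻ s in Ioo (0:ℝ) 1, ∫⁻ α in Ioo (0:ℝ) 1, ENNReal.ofReal τ := by
        refine setLIntegral_mono' measurableSet_Ioo fun s hs => ?_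
        exact lintegral_mono fun α => hin s hs α
    _ = ENNReal.ofReal τ := by simp

lemma int_recip {a : ℝ} (h0 : 0 < a) (h1 : a < 1 / 2) :
    ∫⁻ β in Ioo a (1 - a), ENNReal.ofReal (1 / (2 * β) + 1 / (2 * (1 - β))) ≤ ENNReal.ofReal (log (1 / a)) := by
  have hc : ContinuousOn (fun β : ℝ => 1 / (2 * β) + 1 / (2 * (1 - β))) (Icc a (1 - a)) := by
    apply ContinuousOn.add
    · apply ContinuousOn.div (by fun_prop) (by fun_prop)
      intro x hx
      have : 0 < x := lt_of_lt_of_le h0 hx.1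
      positivity
    · apply ContinuousOn.div (by fun_prop) (by fun_prop)
      intro x hx
      have : 0 < 1 - x := by linarith [hx.2]
      positivity
  have hii : IntervalIntegrable (fun β : ℝ => 1 / (2 * β) + 1 / (2 * (1 - β))) volume a (1 - a) := by
    apply ContinuousOn.intervalIntegrable
    rwa [uIcc_of_le (by linarith)]
  have hval : ∫ β in a..(1 - a), (1 / (2 * β) + 1 / (2 * (1 - β))) = log (1 - a) - log a := by
    rw [intervalIntegral.integral_eq_sub_of_hasDerivAt (f := fun β => (log β - log (1 - β)) / 2) _ hii]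
    · rw [show 1 - (1 - a) = a by ring]; ring
    · intro x hx
      rw [uIcc_of_le (by linarith)] at hx
      have hx0 : 0 < x := by linarith [hx.1]
      have hx1 : 0 < 1 - x := by linarith [hx.2]
      have e1 := Real.hasDerivAt_log hx0.ne'
      have e2 : HasDerivAt (fun β : ℝ => 1 - β) (-1) x := by simpa using (hasDerivAt_id x).const_sub 1
      have e3 := e2.log hx1.ne'
      refine ((e1.sub e3).div_const 2).congr_deriv ?_
      field_simp
      ring
  have hi : IntegrableOn (fun β : ℝ => 1 / (2 * β) + 1 / (2 * (1 - β))) (Ioo a (1 - a)) := by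
    rw [← integrableOn_Ioc_iff_integrableOn_Ioo]
    exact (intervalIntegrable_iff_integrableOn_Ioc_of_le (by linarith)).1 hii
  rw [← ofReal_integral_eq_lintegral_ofReal hi, ← integral_Ioc_eq_integral_Ioo,
    ← intervalIntegral.integral_of_le (by linarith), hval]
  · apply ENNReal.ofReal_le_ofReal
    rw [one_div, Real.log_inv]
    have := Real.log_nonpos (show 0 ≤ 1 - a by linarith) (by linarith)
    linarith
  · filter_upwards [ae_restrict_mem measurableSet_Ioo] with β hβ
    have hx0 : 0 < β := by linarith [hβ.1]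
    have hx1 : 0 < 1 - β := by linarith [hβ.2]
    simp only [Pi.zero_apply]
    positivity

lemma int_sqrt : ∫⁻ s in Ioo (0:ℝ) 1, ENNReal.ofReal ((π ^ 2 * √(1 - s))⁻¹) = ENNReal.ofReal (2 / π ^ 2) := by
  have hpi := pi_pos
  have hii : IntervalIntegrable (fun s : ℝ => (1 - s) ^ (-(1 / 2) : ℝ)) volume 0 1 := by
    have := (intervalIntegral.intervalIntegrable_rpow' (a := 1) (b := 0) (r := -(1 / 2)) (by norm_num)).comp_sub_left 1
    simpa using this
  have hval : ∫ s in (0:ℝ)..1, (1 - s) ^ (-(1 / 2) : ℝ) = 2 := by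
    rw [intervalIntegral.integral_comp_sub_left (fun x : ℝ => x ^ (-(1 / 2) : ℝ)) 1]
    rw [integral_rpow (by left; norm_num)]
    norm_num
  have e : ∀ s ∈ Ioo (0:ℝ) 1, (π ^ 2 * √(1 - s))⁻¹ = (π ^ 2)⁻¹ * (1 - s) ^ (-(1 / 2) : ℝ) := by
    intro s hs
    have h1 : 0 < 1 - s := by linarith [hs.2]
    rw [Real.rpow_neg h1.le, ← Real.sqrt_eq_rpow, mul_inv]
  rw [setLIntegral_congr_fun measurableSet_Ioo (fun s hs => by rw [e s hs])]
  have hi : IntegrableOn (fun s : ℝ => (π ^ 2)⁻¹ * (1 - s) ^ (-(1 / 2) : ℝ)) (Ioo 0 1) := by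
    rw [← integrableOn_Ioc_iff_integrableOn_Ioo]
    exact (intervalIntegrable_iff_integrableOn_Ioc_of_le zero_le_one).1 (hii.const_mul _)
  rw [← ofReal_integral_eq_lintegral_ofReal hi, integral_const_mul, ← integral_Ioc_eq_integral_Ioo,
    ← intervalIntegral.integral_of_le zero_le_one, hval]
  · congr 1; ring
  · filter_upwards [ae_restrict_mem measurableSet_Ioo] with s hs
    have h1 : 0 < 1 - s := by linarith [hs.2]
    simp only [Pi.zero_apply]
    positivity

/-- Step 4 -/
lemma int_S {τ : ℝ} (h0 : 0 < τ) (h1 : τ ≤ 1) :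
    ∫⁻ y, (S τ).indicator (fun y => ENNReal.ofReal (f y)) y ∂μ ≤ ENNReal.ofReal (2 / π ^ 2 * log (π / τ)) := by
  have hpi := pi_pos
  have hpi3 := Real.pi_gt_three
  have hmf := measurable_f
  rw [lintegral_mu _ (Measurable.indicator (by fun_prop) (S_meas τ))]
  have ha0 : 0 < τ / π := by positivity
  have ha1 : τ / π < 1 / 2 := by rw [div_lt_div_iff₀ hpi two_pos]; linarith
  have hin : ∀ s ∈ Ioo (0:ℝ) 1, ∀ α : ℝ,
      ∫⁻ β in Ioo (0:ℝ) 1, (S τ).indicator (fun y => ENNReal.ofReal (f y)) (Φ (s, α, β)) ≤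
      ENNReal.ofReal ((π ^ 2 * √(1 - s))⁻¹) * ENNReal.ofReal (log (π / τ)) := by
    intro s hs α
    have hss : 0 < √(1 - s) := Real.sqrt_pos.2 (by linarith [hs.2])
    calc _ ≤ ∫⁻ β in Ioo (0:ℝ) 1, (Ioo (τ / π) (1 - τ / π)).indicator
            (fun β => ENNReal.ofReal ((π ^ 2 * √(1 - s))⁻¹) * ENNReal.ofReal (1 / (2 * β) + 1 / (2 * (1 - β)))) β := by
          refine setLIntegral_mono' measurableSet_Ioo fun β hβ => ?_
          by_cases hmem : Φ (s, α, β) ∈ S τ
          · rw [indicator_of_mem hmem]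
            have hτs := (mem_S hs hβ).1 hmem
            have hu := sin_upper hβ
            have hmem2 : β ∈ Ioo (τ / π) (1 - τ / π) := by
              constructor
              · rw [div_lt_iff₀ hpi]; linarith [hu.1]
              · have : τ / π < 1 - β := by rw [div_lt_iff₀ hpi]; linarith [hu.2]
                linarith
            rw [indicator_of_mem hmem2, f_Φ hs hβ, ← ENNReal.ofReal_mul (by positivity)]
            apply ENNReal.ofReal_le_ofReal
            rw [← mul_assoc, mul_inv]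
            apply mul_le_mul_of_nonneg_left _ (by positivity)
            have hl := sin_lower hβ
            have hβ0 := hβ.1
            have hβ1 : 0 < 1 - β := by linarith [hβ.2]
            rcases min_choice β (1 - β) with h | h
            · rw [h] at hl
              calc (sin (π * β))⁻¹ ≤ (2 * β)⁻¹ := inv_anti₀ (by positivity) hl
                _ = 1 / (2 * β) := (one_div _).symm
                _ ≤ _ := by
                  have : 0 ≤ 1 / (2 * (1 - β)) := by positivity
                  linarith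
            · rw [h] at hl
              calc (sin (π * β))⁻¹ ≤ (2 * (1 - β))⁻¹ := inv_anti₀ (by positivity) hl
                _ = 1 / (2 * (1 - β)) := (one_div _).symm
                _ ≤ _ := by
                  have : 0 ≤ 1 / (2 * β) := by positivity
                  linarith
          · rw [indicator_of_notMem hmem]; exact zero_le
      _ = ∫⁻ β in Ioo (τ / π) (1 - τ / π) ∩ Ioo (0:ℝ) 1,
            ENNReal.ofReal ((π ^ 2 * √(1 - s))⁻¹) * ENNReal.ofReal (1 / (2 * β) + 1 / (2 * (1 - β))) := by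
          rw [setLIntegral_indicator measurableSet_Ioo]
      _ ≤ ∫⁻ β in Ioo (τ / π) (1 - τ / π),
            ENNReal.ofReal ((π ^ 2 * √(1 - s))⁻¹) * ENNReal.ofReal (1 / (2 * β) + 1 / (2 * (1 - β))) :=
          lintegral_mono_set inter_subset_left
      _ = ENNReal.ofReal ((π ^ 2 * √(1 - s))⁻¹) * ∫⁻ β in Ioo (τ / π) (1 - τ / π),
             ENNReal.ofReal (1 / (2 * β) + 1 / (2 * (1 - β))) := by
          rw [lintegral_const_mul _ (by fun_prop)]
      _ ≤ _ := by
          gcongr
          have := int_recip ha0 ha1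
          rwa [one_div_div] at this
  calc _ ≤ ∫⁻ s in Ioo (0:ℝ) 1, ∫⁻ α in Ioo (0:ℝ) 1,
          ENNReal.ofReal ((π ^ 2 * √(1 - s))⁻¹) * ENNReal.ofReal (log (π / τ)) := by
        refine setLIntegral_mono' measurableSet_Ioo fun s hs => ?_
        exact lintegral_mono fun α => hin s hs α
    _ = ∫⁻ s in Ioo (0:ℝ) 1, ENNReal.ofReal ((π ^ 2 * √(1 - s))⁻¹) * ENNReal.ofReal (log (π / τ)) := by simp
    _ = _ := by
        rw [lintegral_mul_const _ (by fun_prop), int_sqrt, ← ENNReal.ofReal_mul (by positivity)]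

end Pool.Agent.H79.Sq
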