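import Pool.Agent.H79.Sq.C2
namespace Pool.Agent.H79.Sq
open MeasureTheory Real Set Filter
open scoped ENNReal Topology

lemma mul_le_sq (a b : ℝ≥0∞) : a * b ≤ a * a + b * b := by
  rcases le_total a b with h | h
  · calc a * b ≤ b * b := by gcongr
      _ ≤ a * a + b * b := le_add_self
  · calc a * b ≤ a * a := by gcongr
      _ ≤ a * a + b * b := le_self_add

/-- integral of the kernel in Lebesgue measure -/
lemma κ_int {t : ℝ} (ht : 0 < t) (x : E) : ∫⁻ y, κ t x y = ENNReal.ofReal (gm t) := by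
  have h1 : Integrable (fun y : E => exp (-t * ‖x - y‖ ^ 2)) := (gauss_int ht).comp_sub_left x
  have h2 : ∫ y : E, exp (-t * ‖x - y‖ ^ 2) = gm t :=
    integral_sub_left_eq_self (fun z : E => exp (-t * ‖z‖ ^ 2)) volume x
  rw [← h2, ofReal_integral_eq_lintegral_ofReal h1 (Eventually.of_forall fun a => (Real.exp_pos _).le)]
  refine lintegral_congr fun a => ?_
  unfold κ
  congr 2
  ring

/-- the truncated density -/
noncomputable def F (τ : ℝ) (y : E) : ℝ≥0∞ := (S τ).indicator (fun y => ENNReal.ofReal (f y)) y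

lemma F_meas (τ : ℝ) : Measurable (F τ) := by
  unfold F
  have := measurable_f
  exact Measurable.indicator (by fun_prop) (S_meas τ)

lemma setL (τ : ℝ) {h : E → ℝ≥0∞} (hh : Measurable h) : ∫⁻ y in S τ, h y ∂μ = ∫⁻ y, F τ y * h y := by
  have hmf := measurable_f
  rw [← lintegral_indicator (S_meas τ)]
  unfold μ
  rw [lintegral_withDensity_eq_lintegral_mul _ (by fun_prop) (hh.indicator (S_meas τ))]
  refine lintegral_congr fun y => ?_
  simp only [Pi.mul_apply, F]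
  by_cases hy : y ∈ S τ
  · rw [indicator_of_mem hy, indicator_of_mem hy]
  · rw [indicator_of_notMem hy, indicator_of_notMem hy]; simp

lemma F_sq (τ : ℝ) : ∫⁻ y, F τ y * F τ y = ∫⁻ y, (S τ).indicator (fun y => ENNReal.ofReal (f y)) y ∂μ := by
  rw [← setL τ (F_meas τ)]
  rw [← lintegral_indicator (S_meas τ)]
  refine lintegral_congr fun y => ?_
  unfold F
  by_cases hy : y ∈ S τ
  · rw [indicator_of_mem hy]
  · rw [indicator_of_notMem hy, indicator_of_notMem hy]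

lemma SS_bound {t : ℝ} (ht : 0 < t) (τ : ℝ) : ∫⁻ x in S τ, ∫⁻ y in S τ, κ t x y ∂μ ∂μ ≤
    2 * (ENNReal.ofReal (gm t) * ∫⁻ y, F τ y * F τ y) := by
  have hF := F_meas τ
  have hκ := κ_meas t
  have hm1 : Measurable (fun x : E => ∫⁻ y, F τ y * κ t x y) := by
    apply Measurable.lintegral_prod_right' (f := fun p : E × E => F τ p.2 * κ t p.1 p.2)
    exact (hF.comp measurable_snd).mul hκ
  have e1 : ∀ x, ∫⁻ y in S τ, κ t x y ∂μ = ∫⁻ y, F τ y * κ t x y := fun x => setL τ (κ_meas' t x)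
  simp_rw [e1]
  rw [setL τ hm1]
  have e2 : ∀ x, F τ x * ∫⁻ y, F τ y * κ t x y = ∫⁻ y, (F τ x * F τ y) * κ t x y := by
    intro x
    rw [← lintegral_const_mul _ (show Measurable (fun y => F τ y * κ t x y) from hF.mul (κ_meas' t x))]
    refine lintegral_congr fun y => ?_
    ring
  simp_rw [e2]
  have hmA : Measurable (fun p : E × E => F τ p.1 * F τ p.1 * κ t p.1 p.2) :=
    ((hF.comp measurable_fst).mul (hF.comp measurable_fst)).mul hκ
  have hmB : Measurable (fun p : E × E => F τ p.2 * F τ p.2 * κ t p.1 p.2) :=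
    ((hF.comp measurable_snd).mul (hF.comp measurable_snd)).mul hκ
  have hA : ∫⁻ x, ∫⁻ y, F τ x * F τ x * κ t x y = ENNReal.ofReal (gm t) * ∫⁻ y, F τ y * F τ y := by
    rw [← lintegral_const_mul _ (show Measurable (fun y => F τ y * F τ y) from hF.mul hF)]
    refine lintegral_congr fun x => ?_
    rw [lintegral_const_mul _ (κ_meas' t x), κ_int ht, mul_comm]
  have hB : ∫⁻ x, ∫⁻ y, F τ y * F τ y * κ t x y = ENNReal.ofReal (gm t) * ∫⁻ y, F τ y * F τ y := by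
    rw [← hA, lintegral_lintegral_swap (f := fun x y => F τ y * F τ y * κ t x y) hmB.aemeasurable]
    refine lintegral_congr fun x => lintegral_congr fun y => ?_
    rw [κ_comm]
  calc _ ≤ ∫⁻ x, ∫⁻ y, (F τ x * F τ x * κ t x y + F τ y * F τ y * κ t x y) := by
        refine lintegral_mono fun x => lintegral_mono fun y => ?_
        rw [← add_mul]
        exact mul_le_mul_left (mul_le_sq _ _) _
    _ = ∫⁻ x, ((∫⁻ y, F τ x * F τ x * κ t x y) + ∫⁻ y, F τ y * F τ y * κ t x y) := by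
        refine lintegral_congr fun x => ?_
        exact lintegral_add_left ((κ_meas' t x).const_mul _) _
    _ = _ := by
        have hmA' : Measurable (fun x => ∫⁻ y, F τ x * F τ x * κ t x y) := hmA.lintegral_prod_right'
        rw [lintegral_add_left hmA', hA, hB, two_mul]

theorem B_bound {t : ℝ} (ht : 1 ≤ t) : ∫⁻ x, ∫⁻ y, κ t x y ∂μ ∂μ ≤
    ENNReal.ofReal (2 * (gm t * (2 / π ^ 2 * log (π * √t))) + 2 * ((√t)⁻¹ * (1 / t))) := by
  have ht0 : 0 < t := by linarith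
  have hst : 0 < √t := Real.sqrt_pos.2 ht0
  set τ := (√t)⁻¹ with hτ
  have hτ0 : 0 < τ := by positivity
  have hτ1 : τ ≤ 1 := by
    rw [hτ]
    apply inv_le_one_of_one_le₀
    rw [Real.one_le_sqrt]; exact ht
  have hpi := pi_pos
  have hpi3 := Real.pi_gt_three
  have hκ := κ_meas t
  have hm : Measurable (fun x : E => ∫⁻ y, κ t x y ∂μ) := hκ.lintegral_prod_right'
  have hSm := S_meas τ
  have h1 : ∫⁻ x in S τ, ∫⁻ y in S τ, κ t x y ∂μ ∂μ ≤ ENNReal.ofReal (2 * (gm t * (2 / π ^ 2 * log (π * √t)))) := by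
    refine (SS_bound ht0 τ).trans ?_
    rw [F_sq]
    have := int_S hτ0 hτ1
    have hlog : 0 ≤ log (π / τ) := by
      apply Real.log_nonneg
      rw [le_div_iff₀ hτ0]; linarith
    rw [show π * √t = π / τ by rw [hτ]; field_simp, ENNReal.ofReal_mul zero_le_two, ENNReal.ofReal_mul (gm_pos ht0).le,
      show ENNReal.ofReal 2 = 2 by simp]
    gcongr
  have hsc : ∀ x, ∫⁻ y in (S τ)ᶜ, κ t x y ∂μ ≤ ∫⁻ y in (S τ)ᶜ, κ t x y ∂μ := fun x => le_rfl
  have h2 : ∫⁻ x in (S τ)ᶜ, ∫⁻ y, κ t x y ∂μ ∂μ ≤ ENNReal.ofReal (τ * (1 / t)) := by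
    calc _ ≤ ∫⁻ x in (S τ)ᶜ, ENNReal.ofReal (1 / t) ∂μ := lintegral_mono fun x => sup_bound ht0 x
      _ = ENNReal.ofReal (1 / t) * μ (S τ)ᶜ := by rw [setLIntegral_const]
      _ ≤ ENNReal.ofReal (1 / t) * ENNReal.ofReal τ := by gcongr; exact mu_Sc hτ0
      _ = _ := by rw [← ENNReal.ofReal_mul (by positivity), mul_comm]
  have h3 : ∫⁻ x in S τ, ∫⁻ y in (S τ)ᶜ, κ t x y ∂μ ∂μ ≤ ENNReal.ofReal (τ * (1 / t)) := by
    calc _ ≤ ∫⁻ x, ∫⁻ y in (S τ)ᶜ, κ t x y ∂μ ∂μ := setLIntegral_le_lintegral _ _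
      _ = ∫⁻ y in (S τ)ᶜ, ∫⁻ x, κ t x y ∂μ ∂μ :=
          lintegral_lintegral_swap (f := fun x y => κ t x y) hκ.aemeasurable
      _ = ∫⁻ y in (S τ)ᶜ, ∫⁻ x, κ t y x ∂μ ∂μ :=
          lintegral_congr fun y => lintegral_congr fun x => κ_comm _ _ _
      _ ≤ _ := h2
  calc ∫⁻ x, ∫⁻ y, κ t x y ∂μ ∂μ = ∫⁻ x in S τ, ∫⁻ y, κ t x y ∂μ ∂μ + ∫⁻ x in (S τ)ᶜ, ∫⁻ y, κ t x y ∂μ ∂μ :=
        (lintegral_add_compl _ hSm).symm
    _ = ∫⁻ x in S τ, (∫⁻ y in S τ, κ t x y ∂μ + ∫⁻ y in (S τ)ᶜ, κ t x y ∂μ) ∂μ + ∫⁻ x in (S τ)ᶜ, ∫⁻ y, κ t x y ∂μ ∂μ := by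
        congr 1
        exact lintegral_congr fun x => (lintegral_add_compl _ hSm).symm
    _ = ∫⁻ x in S τ, ∫⁻ y in S τ, κ t x y ∂μ ∂μ + ∫⁻ x in S τ, ∫⁻ y in (S τ)ᶜ, κ t x y ∂μ ∂μ +
          ∫⁻ x in (S τ)ᶜ, ∫⁻ y, κ t x y ∂μ ∂μ := by
        rw [lintegral_add_left]
        exact hκ.lintegral_prod_right'
    _ ≤ ENNReal.ofReal (2 * (gm t * (2 / π ^ 2 * log (π * √t)))) + ENNReal.ofReal (τ * (1 / t)) + ENNReal.ofReal (τ * (1 / t)) := by
        gcongr
    _ = _ := by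
        have hlog : 0 ≤ log (π * √t) := by
          apply Real.log_nonneg
          have : 1 ≤ √t := by rw [Real.one_le_sqrt]; exact ht
          nlinarith
        have := gm_pos ht0
        rw [← ENNReal.ofReal_add (by positivity) (by positivity), ← ENNReal.ofReal_add (by positivity) (by positivity)]
        congr 1
        ring

theorem bb_bound {t : ℝ} (ht : 1 ≤ t) : bb t ≤ 20 * ((1 + log t) * t ^ (-(3 / 2) : ℝ)) := by
  have ht0 : 0 < t := by linarith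
  have hpi := pi_pos
  have hpi3 := Real.pi_gt_three
  have hpi4 := Real.pi_le_four
  have hst : 0 < √t := Real.sqrt_pos.2 ht0
  have hlt : 0 ≤ log t := Real.log_nonneg ht
  have hi : Integrable (fun u : E × E => exp (-(‖u.1 - u.2‖ ^ 2 * t))) (μ.prod μ) :=
    exp_int ht0 (by fun_prop) (fun u => by positivity)
  have h1 : ENNReal.ofReal (bb t) = ∫⁻ x, ∫⁻ y, κ t x y ∂μ ∂μ := by
    unfold bb
    rw [ofReal_integral_eq_lintegral_ofReal hi (Eventually.of_forall fun a => (Real.exp_pos _).le),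
      lintegral_prod _ (by fun_prop)]
    rfl
  have h2 := B_bound ht
  rw [← h1] at h2
  have hr : 0 < t ^ (-(3 / 2) : ℝ) := Real.rpow_pos_of_pos ht0 _
  have hlog : log (π * √t) = log π + log t / 2 := by
    rw [Real.log_mul hpi.ne' hst.ne', Real.log_sqrt ht0.le]
  have hlpi : log π ≤ 3 := by
    have := Real.log_le_sub_one_of_pos hpi; linarith
  have hlpi0 : 0 ≤ log π := Real.log_nonneg (by linarith)
  have hgm : gm t ≤ 8 * t ^ (-(3 / 2) : ℝ) := by
    rw [gm_eq ht0, Real.div_rpow hpi.le ht0.le, Real.rpow_neg ht0.le, div_eq_mul_inv]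
    gcongr
    calc π ^ (3 / 2 : ℝ) ≤ (4 : ℝ) ^ (3 / 2 : ℝ) := Real.rpow_le_rpow hpi.le hpi4 (by norm_num)
      _ = 8 := by
        rw [show (4 : ℝ) = 2 ^ (2 : ℝ) by norm_num, ← Real.rpow_mul (by norm_num)]
        norm_num
  have hx : (√t)⁻¹ * (1 / t) = t ^ (-(3 / 2) : ℝ) := by
    rw [Real.sqrt_eq_rpow, ← Real.rpow_neg ht0.le, one_div t, ← Real.rpow_neg_one t, ← Real.rpow_add ht0]
    norm_num
  have hnn : 0 ≤ 2 * (gm t * (2 / π ^ 2 * log (π * √t))) + 2 * ((√t)⁻¹ * (1 / t)) := by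
    rw [hlog]
    have := gm_pos ht0
    positivity
  have h3 := (ENNReal.ofReal_le_ofReal_iff hnn).1 h2
  refine h3.trans ?_
  rw [hx, hlog]
  have hpi9 : 2 / π ^ 2 ≤ 2 / 9 := by
    apply div_le_div_of_nonneg_left (by norm_num) (by norm_num)
    nlinarith
  have h4 : gm t * (2 / π ^ 2 * (log π + log t / 2)) ≤ 8 * t ^ (-(3 / 2) : ℝ) * (2 / 9 * (3 + log t / 2)) := by
    gcongr
  nlinarith [mul_nonneg hlt hr.le]

end Pool.Agent.H79.Sq
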