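import Pool.Agent.H79.Sq.C3
namespace Pool.Agent.H79.Sq
open MeasureTheory Real Set Filter
open scoped ENNReal Topology

lemma tail_log {T : ℝ} (hT : 1 ≤ T) : IntegrableOn (fun t : ℝ => (1 + log t) * t ^ (-(3 / 2) : ℝ)) (Ioi T) ∧
    ∫ t in Ioi T, (1 + log t) * t ^ (-(3 / 2) : ℝ) = 2 * (3 + log T) * T ^ (-(1 / 2) : ℝ) := by
  have hT0 : 0 < T := by linarith
  have hder : ∀ x ∈ Ici T, HasDerivAt (fun t : ℝ => -2 * (3 + log t) * t ^ (-(1 / 2) : ℝ))
      ((1 + log x) * x ^ (-(3 / 2) : ℝ)) x := by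
    intro x hx
    have hx0 : 0 < x := lt_of_lt_of_le hT0 hx
    have h1 : HasDerivAt (fun t : ℝ => -2 * (3 + log t)) (-2 * x⁻¹) x :=
      ((Real.hasDerivAt_log hx0.ne').const_add 3).const_mul (-2)
    have h2 := Real.hasDerivAt_rpow_const (x := x) (p := -(1 / 2)) (Or.inl hx0.ne')
    refine (h1.mul h2).congr_deriv ?_
    have e1 : x ^ (-(1 / 2) - 1 : ℝ) = x ^ (-(3 / 2) : ℝ) := by norm_num
    have e2 : x⁻¹ * x ^ (-(1 / 2) : ℝ) = x ^ (-(3 / 2) : ℝ) := by
      rw [← Real.rpow_neg_one x, ← Real.rpow_add hx0]; norm_num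
    rw [e1]
    linear_combination (-2) * e2
  have hpos : ∀ x ∈ Ioi T, 0 ≤ (1 + log x) * x ^ (-(3 / 2) : ℝ) := by
    intro x hx
    have hx' : T < x := hx
    have hx0 : 0 < x := hT0.trans hx
    have := Real.log_nonneg (show 1 ≤ x by linarith)
    positivity
  have hlim : Tendsto (fun t : ℝ => -2 * (3 + log t) * t ^ (-(1 / 2) : ℝ)) atTop (𝓝 0) := by
    have h1 : Tendsto (fun t : ℝ => t ^ (-(1 / 2) : ℝ)) atTop (𝓝 0) := tendsto_rpow_neg_atTop (by norm_num)
    have h2 : Tendsto (fun t : ℝ => log t / t ^ (1 / 2 : ℝ)) atTop (𝓝 0) :=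
      (isLittleO_log_rpow_atTop (by norm_num : (0:ℝ) < 1 / 2)).tendsto_div_nhds_zero
    have h3 := (h1.const_mul (-6)).add (h2.const_mul (-2))
    simp only [mul_zero, add_zero] at h3
    refine h3.congr' ?_
    filter_upwards [eventually_gt_atTop 0] with t ht
    rw [Real.rpow_neg ht.le]
    field_simp
    ring
  constructor
  · exact integrableOn_Ioi_deriv_of_nonneg' hder hpos hlim
  · rw [integral_Ioi_of_hasDerivAt_of_nonneg' hder hpos hlim]
    ring

/-- The energy inequality for a configuration of distinct points. -/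
theorem energy {ι : Type*} [Fintype ι] [DecidableEq ι] (x : ι → E) (hx : ∀ i j, i ≠ j → x i ≠ x j) {T : ℝ} (hT : 1 ≤ T) :
    ∑ i, ∑ j ∈ Finset.univ.erase i, log (‖x i - x j‖ ^ 2) ≤
      4 / 3 * (Fintype.card ι) * ∑ i, ‖x i‖ ^ 2 + (Fintype.card ι : ℝ) ^ 2 * (1 / 2 - 2 * log 2) +
      (Fintype.card ι) * (log T + 2) + 40 * (Fintype.card ι : ℝ) ^ 2 * ((3 + log T) * T ^ (-(3 / 2) : ℝ)) := by
  set n : ℝ := (Fintype.card ι : ℝ) with hn
  have hn0 : 0 ≤ n := by positivity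
  have hT0 : 0 < T := by linarith
  -- the three mixtures
  have hA1 : ∀ i, ∀ j ∈ Finset.univ.erase i, 0 < ‖x i - x j‖ ^ 2 := by
    intro i j hj
    have : x i - x j ≠ 0 := sub_ne_zero.2 (hx i j (Finset.ne_of_mem_erase hj).symm)
    have := norm_pos_iff.2 this
    positivity
  set S1 : ℝ → ℝ := fun t => ∑ i, ∑ j ∈ Finset.univ.erase i, G (‖x i - x j‖ ^ 2) t with hS1
  have i1 : IntegrableOn S1 (Ioi 0) :=
    integrable_finsetSum _ fun i _ => integrable_finsetSum _ fun j hj => G_int (hA1 i j hj)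
  have v1 : ∫ t in Ioi (0:ℝ), S1 t = - ∑ i, ∑ j ∈ Finset.univ.erase i, log (‖x i - x j‖ ^ 2) := by
    rw [hS1, integral_finsetSum _ fun i _ => integrable_finsetSum _ fun j hj => G_int (hA1 i j hj),
      ← Finset.sum_neg_distrib]
    refine Finset.sum_congr rfl fun i _ => ?_
    rw [integral_finsetSum _ fun j hj => G_int (hA1 i j hj), ← Finset.sum_neg_distrib]
    exact Finset.sum_congr rfl fun j hj => G_val (hA1 i j hj)
  have hm2 : ∀ i, IntegrableOn (fun t : ℝ => t⁻¹ * (∫ y, exp (-(‖x i - y‖ ^ 2 * t)) ∂μ - μ.real univ * exp (-t))) (Ioi 0) ∧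
      ∫ t in Ioi (0:ℝ), t⁻¹ * (∫ y, exp (-(‖x i - y‖ ^ 2 * t)) ∂μ - μ.real univ * exp (-t)) =
        -∫ y, log (‖x i - y‖ ^ 2) ∂μ := by
    intro i
    apply mix (by fun_prop) _ (log_int (x i))
    filter_upwards [ae_ne (x i)] with y hy
    have := norm_pos_iff.2 (sub_ne_zero.2 hy.symm)
    positivity
  have hm3 : IntegrableOn (fun t : ℝ => t⁻¹ * (∫ u : E × E, exp (-(‖u.1 - u.2‖ ^ 2 * t)) ∂(μ.prod μ) -
        (μ.prod μ).real univ * exp (-t))) (Ioi 0) ∧
      ∫ t in Ioi (0:ℝ), t⁻¹ * (∫ u : E × E, exp (-(‖u.1 - u.2‖ ^ 2 * t)) ∂(μ.prod μ) - (μ.prod μ).real univ * exp (-t)) =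
        -∫ u : E × E, log (‖u.1 - u.2‖ ^ 2) ∂(μ.prod μ) := by
    apply mix (by fun_prop) _ log2_int
    have : ∀ᵐ x ∂μ, ∀ᵐ y ∂μ, 0 < ‖x - y‖ ^ 2 := by
      refine Eventually.of_forall fun x => ?_
      filter_upwards [ae_ne x] with y hy
      have := norm_pos_iff.2 (sub_ne_zero.2 hy.symm)
      positivity
    exact (Measure.ae_prod_iff_ae_ae (measurableSet_lt measurable_const (by fun_prop))).2 this
  simp only [probReal_univ, one_mul] at hm2 hm3
  rw [log2_val] at hm3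
  set S2 : ℝ → ℝ := fun t => ∑ i, t⁻¹ * (∫ y, exp (-(‖x i - y‖ ^ 2 * t)) ∂μ - exp (-t)) with hS2
  have i2 : IntegrableOn S2 (Ioi 0) := integrable_finsetSum _ fun i _ => (hm2 i).1
  have v2 : ∫ t in Ioi (0:ℝ), S2 t = - ∑ i, ∫ y, log (‖x i - y‖ ^ 2) ∂μ := by
    rw [hS2, integral_finsetSum _ fun i _ => (hm2 i).1, ← Finset.sum_neg_distrib]
    exact Finset.sum_congr rfl fun i _ => (hm2 i).2
  set S3 : ℝ → ℝ := fun t => t⁻¹ * (bb t - exp (-t)) with hS3
  have i3 : IntegrableOn S3 (Ioi 0) := hm3.1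
  have v3 : ∫ t in Ioi (0:ℝ), S3 t = -(3 / 2 - 2 * log 2) := hm3.2
  set L : ℝ → ℝ := fun t => S1 t - 2 * n * S2 t + n ^ 2 * S3 t with hL
  have iL : IntegrableOn L (Ioi 0) := (i1.sub (i2.const_mul _)).add (i3.const_mul _)
  have i12 : IntegrableOn (fun t => S1 t - 2 * n * S2 t) (Ioi 0) := i1.sub (i2.const_mul _)
  have vL : ∫ t in Ioi (0:ℝ), L t = - ∑ i, ∑ j ∈ Finset.univ.erase i, log (‖x i - x j‖ ^ 2) +
      2 * n * ∑ i, ∫ y, log (‖x i - y‖ ^ 2) ∂μ - n ^ 2 * (3 / 2 - 2 * log 2) := by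
    rw [hL, integral_add i12 (i3.const_mul _), integral_sub i1 (i2.const_mul _), integral_const_mul,
      integral_const_mul, v1, v2, v3]
    ring
  -- the pointwise lower bound
  have key : ∀ t : ℝ, 0 < t → ∀ w : ℝ, 0 < w → w ≤ 1 →
      -(t⁻¹ * (n * (w - exp (-t)) + n ^ 2 * ((1 / w - 1) * bb t))) ≤ L t := by
    intro t ht w hw0 hw1
    set a : ℝ := ∑ i, ∑ j, exp (-(‖x i - x j‖ ^ 2 * t)) with ha
    set m : ℝ := ∑ i, ∫ y, exp (-(‖x i - y‖ ^ 2 * t)) ∂μ with hm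
    have hpsd := psd x ht w n
    rw [← ha, ← hm] at hpsd
    have hsplit : ∀ i, ∑ j, exp (-(‖x i - x j‖ ^ 2 * t)) = ∑ j ∈ Finset.univ.erase i, exp (-(‖x i - x j‖ ^ 2 * t)) + 1 := by
      intro i
      rw [← Finset.sum_erase_add _ _ (Finset.mem_univ i)]
      simp
    have hcard : ∀ i : ι, ((Finset.univ.erase i).card : ℝ) = n - 1 := by
      intro i
      rw [Finset.card_erase_of_mem (Finset.mem_univ i), Finset.card_univ, Nat.cast_sub (Fintype.card_pos_iff.2 ⟨i⟩)]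
      simp [hn]
    have e1 : S1 t = t⁻¹ * (a - n - n * (n - 1) * exp (-t)) := by
      have h1 : ∀ i, ∑ j ∈ Finset.univ.erase i, G (‖x i - x j‖ ^ 2) t =
          t⁻¹ * (∑ j, exp (-(‖x i - x j‖ ^ 2 * t)) - 1 - (n - 1) * exp (-t)) := by
        intro i
        unfold G
        rw [← Finset.mul_sum, Finset.sum_sub_distrib, Finset.sum_const, nsmul_eq_mul, hcard, hsplit]
        ring
      rw [hS1]
      simp only
      rw [Finset.sum_congr rfl fun i _ => h1 i, ← Finset.mul_sum, Finset.sum_sub_distrib, Finset.sum_sub_distrib,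
        Finset.sum_const, Finset.sum_const, nsmul_eq_mul, nsmul_eq_mul, Finset.card_univ, ← hn, ← ha]
      ring
    have e2 : S2 t = t⁻¹ * (m - n * exp (-t)) := by
      rw [hS2]
      simp only
      rw [← Finset.mul_sum, Finset.sum_sub_distrib, Finset.sum_const, nsmul_eq_mul, Finset.card_univ, ← hn, ← hm]
    have han : n ≤ a := by
      rw [ha, hn]
      calc (Fintype.card ι : ℝ) = ∑ i : ι, (1 : ℝ) := by simp
        _ ≤ _ := Finset.sum_le_sum fun i _ => by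
          rw [hsplit]
          have : 0 ≤ ∑ j ∈ Finset.univ.erase i, exp (-(‖x i - x j‖ ^ 2 * t)) :=
            Finset.sum_nonneg fun j _ => (Real.exp_pos _).le
          linarith
    have hdiv : 0 ≤ w * a - 2 * n * m + n ^ 2 * bb t / w := by
      have : w * (w * a - 2 * n * m + n ^ 2 * bb t / w) = w ^ 2 * a - 2 * n * w * m + n ^ 2 * bb t := by
        field_simp
      rw [← this] at hpsd
      exact nonneg_of_mul_nonneg_right hpsd hw0
    have e3 : L t = t⁻¹ * (a - 2 * n * m + n ^ 2 * bb t - n + n * exp (-t)) := by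
      rw [hL]
      simp only
      rw [e1, e2, hS3]
      ring
    rw [e3, ← mul_neg]
    apply mul_le_mul_of_nonneg_left _ (inv_nonneg.2 ht.le)
    have h1 : (1 - w) * n ≤ (1 - w) * a := mul_le_mul_of_nonneg_left han (by linarith)
    have h2 : n ^ 2 * ((1 / w - 1) * bb t) = n ^ 2 * bb t / w - n ^ 2 * bb t := by
      field_simp
    rw [h2]
    nlinarith
  -- the three pieces
  have hsub1 : Ioc (0:ℝ) 1 ⊆ Ioi 0 := fun t ht => ht.1
  have hsub2 : Ioc (1:ℝ) T ⊆ Ioi 0 := fun t ht => lt_trans one_pos ht.1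
  have hsub3 : Ioi T ⊆ Ioi 0 := fun t ht => hT0.trans ht
  have hsplitL : ∫ t in Ioi (0:ℝ), L t = (∫ t in Ioc (0:ℝ) 1, L t) + ((∫ t in Ioc (1:ℝ) T, L t) + ∫ t in Ioi T, L t) := by
    rw [← setIntegral_union (Ioc_disjoint_Ioi le_rfl) measurableSet_Ioi (iL.mono_set hsub2) (iL.mono_set hsub3),
      Ioc_union_Ioi_eq_Ioi hT,
      ← setIntegral_union (Ioc_disjoint_Ioi le_rfl) measurableSet_Ioi (iL.mono_set hsub1)
        (iL.mono_set (fun t (ht : 1 < t) => (lt_trans one_pos ht : (0:ℝ) < t))),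
      Ioc_union_Ioi_eq_Ioi zero_le_one]
  have hp1 : -n ≤ ∫ t in Ioc (0:ℝ) 1, L t := by
    have : ∫ t in Ioc (0:ℝ) 1, (-n) = -n := by simp
    rw [← this]
    apply setIntegral_mono_on (integrableOn_const (by simp)) (iL.mono_set hsub1) measurableSet_Ioc
    intro t ht
    refine le_trans ?_ (key t ht.1 1 one_pos le_rfl)
    have h1 : 1 - exp (-t) ≤ t := by have := Real.add_one_le_exp (-t); linarith
    have h2 : t⁻¹ * (1 - exp (-t)) ≤ 1 := by
      rw [inv_mul_le_iff₀ ht.1]; linarith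
    have : t⁻¹ * (n * (1 - exp (-t)) + n ^ 2 * ((1 / 1 - 1) * bb t)) = n * (t⁻¹ * (1 - exp (-t))) := by ring
    rw [this]
    nlinarith
  have hinv : IntervalIntegrable (fun t : ℝ => -(n * t⁻¹)) volume 1 T := by
    apply ContinuousOn.intervalIntegrable
    rw [uIcc_of_le hT]
    apply ContinuousOn.neg
    apply ContinuousOn.mul continuousOn_const
    apply ContinuousOn.inv₀ continuousOn_id
    intro t ht
    have : 0 < t := lt_of_lt_of_le one_pos ht.1
    exact this.ne'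
  have hp2 : -(n * log T) ≤ ∫ t in Ioc (1:ℝ) T, L t := by
    have : ∫ t in Ioc (1:ℝ) T, (-(n * t⁻¹)) = -(n * log T) := by
      rw [← intervalIntegral.integral_of_le hT, intervalIntegral.integral_neg, intervalIntegral.integral_const_mul,
        integral_inv_of_pos one_pos hT0, div_one]
    rw [← this]
    apply setIntegral_mono_on ((intervalIntegrable_iff_integrableOn_Ioc_of_le hT).1 hinv) (iL.mono_set hsub2) measurableSet_Ioc
    intro t ht
    have ht0 : 0 < t := hsub2 ht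
    refine le_trans ?_ (key t ht0 1 one_pos le_rfl)
    have h1 : 1 - exp (-t) ≤ 1 := by have := Real.exp_pos (-t); linarith
    have : t⁻¹ * (n * (1 - exp (-t)) + n ^ 2 * ((1 / 1 - 1) * bb t)) = n * (t⁻¹ * (1 - exp (-t))) := by ring
    rw [this]
    have h2 : t⁻¹ * (1 - exp (-t)) ≤ t⁻¹ := by
      have : 0 < t⁻¹ := by positivity
      nlinarith
    nlinarith
  obtain ⟨it, vt⟩ := tail_log hT
  have ir : IntegrableOn (fun t : ℝ => t ^ (-2 : ℝ)) (Ioi T) := integrableOn_Ioi_rpow_of_lt (by norm_num) hT0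
  have vr : ∫ t in Ioi T, t ^ (-2 : ℝ) = T⁻¹ := by
    rw [integral_Ioi_rpow_of_lt (by norm_num) hT0]
    norm_num
    rw [Real.rpow_neg_one]
  have hp3 : -(n + 40 * n ^ 2 * ((3 + log T) * T ^ (-(3 / 2) : ℝ))) ≤ ∫ t in Ioi T, L t := by
    have : ∫ t in Ioi T, -(n * T * t ^ (-2 : ℝ) + 20 * n ^ 2 / T * ((1 + log t) * t ^ (-(3 / 2) : ℝ))) =
        -(n + 40 * n ^ 2 * ((3 + log T) * T ^ (-(3 / 2) : ℝ))) := by
      rw [integral_neg, integral_add (ir.const_mul _) (it.const_mul _), integral_const_mul, integral_const_mul,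
        vr, vt]
      have e4 : T ^ (-(3 / 2) : ℝ) = T⁻¹ * T ^ (-(1 / 2) : ℝ) := by
        rw [← Real.rpow_neg_one T, ← Real.rpow_add hT0]; norm_num
      rw [e4]
      field_simp
      ring
    rw [← this]
    apply setIntegral_mono_on _ (iL.mono_set hsub3) measurableSet_Ioi
    · intro t ht
      have ht' : T < t := ht
      have ht0 : 0 < t := hsub3 ht
      have hw0 : 0 < T / t := by positivity
      have hw1 : T / t ≤ 1 := by rw [div_le_one ht0]; exact ht'.le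
      refine le_trans ?_ (key t ht0 (T / t) hw0 hw1)
      apply neg_le_neg
      have hb := bb_bound (t := t) (by linarith)
      have hb0 : 0 ≤ bb t := integral_nonneg fun u => (Real.exp_pos _).le
      have h1 : t⁻¹ * (n * (T / t - exp (-t))) ≤ n * T * t ^ (-2 : ℝ) := by
        have : t ^ (-2 : ℝ) = t⁻¹ * t⁻¹ := by
          rw [← Real.rpow_neg_one t, ← Real.rpow_add ht0]; norm_num
        rw [this]
        have h2 : T / t - exp (-t) ≤ T * t⁻¹ := by
          have := Real.exp_pos (-t); rw [div_eq_mul_inv]; linarith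
        have h3 : 0 < t⁻¹ := by positivity
        calc t⁻¹ * (n * (T / t - exp (-t))) ≤ t⁻¹ * (n * (T * t⁻¹)) := by gcongr
          _ = _ := by ring
      have h2 : t⁻¹ * (n ^ 2 * ((1 / (T / t) - 1) * bb t)) ≤ 20 * n ^ 2 / T * ((1 + log t) * t ^ (-(3 / 2) : ℝ)) := by
        have h3 : 1 / (T / t) - 1 ≤ t / T := by
          rw [one_div_div]; linarith
        calc t⁻¹ * (n ^ 2 * ((1 / (T / t) - 1) * bb t)) ≤ t⁻¹ * (n ^ 2 * ((t / T) * bb t)) := by gcongr
          _ = n ^ 2 / T * bb t := by field_simp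
          _ ≤ n ^ 2 / T * (20 * ((1 + log t) * t ^ (-(3 / 2) : ℝ))) := by gcongr
          _ = _ := by ring
      calc _ = t⁻¹ * (n * (T / t - exp (-t))) + t⁻¹ * (n ^ 2 * ((1 / (T / t) - 1) * bb t)) := by ring
        _ ≤ _ := add_le_add h1 h2
    · exact ((ir.const_mul _).add (it.const_mul _)).neg
  have hpot : ∑ i, ∫ y, log (‖x i - y‖ ^ 2) ∂μ ≤ 2 / 3 * ∑ i, ‖x i‖ ^ 2 + n * (1 - 2 * log 2) := by
    calc _ ≤ ∑ i, (2 / 3 * ‖x i‖ ^ 2 + 1 - 2 * log 2) := Finset.sum_le_sum fun i _ => pot_le (x i)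
      _ = _ := by
        rw [Finset.sum_sub_distrib, Finset.sum_add_distrib, ← Finset.mul_sum, Finset.sum_const, Finset.sum_const,
          nsmul_eq_mul, nsmul_eq_mul, Finset.card_univ, ← hn]
        ring
  rw [hsplitL] at vL
  have h2n : 2 * n * ∑ i, ∫ y, log (‖x i - y‖ ^ 2) ∂μ ≤ 2 * n * (2 / 3 * ∑ i, ‖x i‖ ^ 2 + n * (1 - 2 * log 2)) :=
    mul_le_mul_of_nonneg_left hpot (by positivity)
  nlinarith

end Pool.Agent.H79.Sq
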