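import Pool.Agent.H79.Sq.U1
namespace Pool.Agent.H79.Sq
open MeasureTheory Real Set Filter
open scoped ENNReal Topology

lemma f_nonneg (y : E) : 0 ≤ f y := by unfold f; positivity

lemma f_int : Integrable f (volume : Measure E) := by
  refine ⟨measurable_f.aestronglyMeasurable, ?_⟩
  rw [hasFiniteIntegral_iff_ofReal (Eventually.of_forall f_nonneg)]
  have : ∫⁻ y, ENNReal.ofReal (f y) = μ univ := by
    unfold μ
    rw [withDensity_apply _ MeasurableSet.univ, Measure.restrict_univ]
  rw [this, measure_univ]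
  exact ENNReal.one_lt_top

lemma pi_mu (n : ℕ) : Measure.pi (fun _ : Fin n => μ) =
    (volume : Measure (Fin n → E)).withDensity (fun x => ∏ i, ENNReal.ofReal (f (x i))) := by
  apply Measure.pi_eq
  intro s hs
  have hmf := measurable_f
  rw [withDensity_apply _ (MeasurableSet.univ_pi hs), volume_pi, Measure.restrict_pi_pi]
  have e1 : ∀ x : Fin n → E, ∏ i, ENNReal.ofReal (f (x i)) = ENNReal.ofReal (∏ i, f (x i)) := fun x =>
    (ENNReal.ofReal_prod_of_nonneg fun i _ => f_nonneg _).symm
  simp_rw [e1]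
  have hi : Integrable (fun x : Fin n → E => ∏ i, f (x i)) (Measure.pi fun i => volume.restrict (s i)) :=
    Integrable.fintype_prod (fun i => f_int.restrict)
  rw [← ofReal_integral_eq_lintegral_ofReal hi (Eventually.of_forall fun x => Finset.prod_nonneg fun i _ => f_nonneg _),
    integral_fintype_prod_eq_prod (fun _ => f), ENNReal.ofReal_prod_of_nonneg (fun i _ => integral_nonneg f_nonneg)]
  refine Finset.prod_congr rfl fun i _ => ?_
  rw [ofReal_integral_eq_lintegral_ofReal f_int.restrict (Eventually.of_forall f_nonneg)]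
  unfold μ
  rw [withDensity_apply _ (hs i)]

/-- inverse density -/
noncomputable def g (y : E) : ℝ := π ^ 2 * √(1 - ‖y‖ ^ 2)

lemma g_nonneg (y : E) : 0 ≤ g y := by unfold g; positivity

lemma g_meas : Measurable g := by unfold g; fun_prop

lemma gf_le (y : E) : g y * f y ≤ 1 := by
  unfold g f
  exact mul_inv_le_one

theorem lower1 {n : ℕ} (H : (Fin n → E) → ℝ) (hH : Measurable H) (h0 : ∀ x, 0 ≤ H x) :
    ∫⁻ u : Fin n → Ω, ENNReal.ofReal (H (fun i => Φ (u i)) * ∏ i, g (Φ (u i))) ∂(Measure.pi fun _ => P) ≤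
      ∫⁻ x, ENNReal.ofReal (H x) := by
  have hmg := g_meas
  have hmf := measurable_f
  have hm : Measurable (fun x : Fin n → E => ENNReal.ofReal (H x * ∏ i, g (x i))) := by
    apply Measurable.ennreal_ofReal
    apply hH.mul
    fun_prop
  have hmap : (Measure.pi fun _ : Fin n => P).map (fun u i => Φ (u i)) = Measure.pi (fun _ : Fin n => μ) := by
    have : ∀ i : Fin n, SigmaFinite (P.map Φ) := fun i => by rw [map_Φ]; infer_instance
    rw [Measure.pi_map_pi (fun _ => measurable_Φ.aemeasurable)]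
    simp only [map_Φ]
  have hmΦ : Measurable (fun (u : Fin n → Ω) (i : Fin n) => Φ (u i)) := by
    have := measurable_Φ
    fun_prop
  have e1 : ∫⁻ u : Fin n → Ω, ENNReal.ofReal (H (fun i => Φ (u i)) * ∏ i, g (Φ (u i))) ∂(Measure.pi fun _ => P) =
      ∫⁻ x, ENNReal.ofReal (H x * ∏ i, g (x i)) ∂(Measure.pi (fun _ : Fin n => μ)) := by
    rw [← hmap, lintegral_map hm hmΦ]
  rw [e1, pi_mu, lintegral_withDensity_eq_lintegral_mul _ (by fun_prop) hm]
  refine lintegral_mono fun x => ?_
  simp only [Pi.mul_apply]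
  rw [← ENNReal.ofReal_prod_of_nonneg (fun i _ => f_nonneg _), ← ENNReal.ofReal_mul (Finset.prod_nonneg fun i _ => f_nonneg _)]
  apply ENNReal.ofReal_le_ofReal
  have : (∏ i, f (x i)) * (H x * ∏ i, g (x i)) = H x * ∏ i, (g (x i) * f (x i)) := by
    rw [Finset.prod_mul_distrib]; ring
  rw [this]
  apply mul_le_of_le_one_right (h0 x)
  exact Finset.prod_le_one (fun i _ => mul_nonneg (g_nonneg _) (f_nonneg _)) (fun i _ => gf_le _)

end Pool.Agent.H79.Sq
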