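import Pool.Agent.H79.Sq.L1
namespace Pool.Agent.H79.Sq
open MeasureTheory Real Set Filter Function
open scoped ENNReal Topology Nat

lemma ofReal_integral_le {X : Type*} [MeasurableSpace X] {ρ : Measure X} {ψ : X → ℝ} (hψ : Integrable ψ ρ) :
    ENNReal.ofReal (∫ x, ψ x ∂ρ) ≤ ∫⁻ x, ENNReal.ofReal (ψ x) ∂ρ := by
  rw [integral_eq_lintegral_pos_part_sub_lintegral_neg_part hψ]
  calc _ ≤ ENNReal.ofReal (∫⁻ x, ENNReal.ofReal (ψ x) ∂ρ).toReal := by
        apply ENNReal.ofReal_le_ofReal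
        have : 0 ≤ (∫⁻ x, ENNReal.ofReal (-ψ x) ∂ρ).toReal := ENNReal.toReal_nonneg
        linarith
    _ ≤ _ := ENNReal.ofReal_toReal_le

lemma jensen {X : Type*} [MeasurableSpace X] {ρ : Measure X} [IsProbabilityMeasure ρ] {h : X → ℝ} (hh : Integrable h ρ) :
    ENNReal.ofReal (exp (∫ x, h x ∂ρ)) ≤ ∫⁻ x, ENNReal.ofReal (exp (h x)) ∂ρ := by
  set c := ∫ x, h x ∂ρ with hc
  have hi : Integrable (fun x => exp c * (1 + (h x - c))) ρ :=
    ((integrable_const (1:ℝ)).add (hh.sub (integrable_const c))).const_mul _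
  have h1 := ofReal_integral_le hi
  have hsb : Integrable (fun x => h x - c) ρ := hh.sub (integrable_const c)
  have h2 : ∫ x, exp c * (1 + (h x - c)) ∂ρ = exp c := by
    rw [integral_const_mul, integral_add (integrable_const _) hsb,
      integral_sub hh (integrable_const c), ← hc]
    simp
  rw [h2] at h1
  refine h1.trans (lintegral_mono fun x => ENNReal.ofReal_le_ofReal ?_)
  have h3 := Real.add_one_le_exp (h x - c)
  have h4 : exp (h x) = exp c * exp (h x - c) := by rw [← Real.exp_add]; congr 1; ring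
  rw [h4]
  apply mul_le_mul_of_nonneg_left _ (Real.exp_pos _).le
  linarith

lemma comp_perm_mp {n : ℕ} (π₀ : Equiv.Perm (Fin n)) :
    MeasurePreserving (fun (u : Fin n → Ω) => u ∘ π₀) (Measure.pi fun _ => P) (Measure.pi fun _ => P) := by
  have := measurePreserving_piCongrLeft (fun _ : Fin n => P) π₀.symm
  convert this using 1
  funext u
  funext i
  have h := Equiv.piCongrLeft_apply_apply (P := fun _ : Fin n => Ω) (e := π₀.symm) u (π₀ i)
  rw [Equiv.symm_apply_apply] at h
  exact h.symm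

theorem perm_bound {n : ℕ} (C : Fin n → Set Ω) (hC : ∀ i, MeasurableSet (C i)) (hd : Pairwise (Disjoint on C))
    (W : (Fin n → Ω) → ℝ≥0∞) (hW : Measurable W) (hsym : ∀ (σ : Equiv.Perm (Fin n)) u, W (u ∘ σ) = W u) :
    (n ! : ℝ≥0∞) * ∫⁻ u in univ.pi C, W u ∂(Measure.pi fun _ => P) ≤ ∫⁻ u, W u ∂(Measure.pi fun _ => P) := by
  set R : Equiv.Perm (Fin n) → Set (Fin n → Ω) := fun σ => (fun u : Fin n → Ω => u ∘ σ) ⁻¹' (univ.pi C) with hR
  have hRm : ∀ σ, MeasurableSet (R σ) := fun σ => (comp_perm_mp σ).measurable (MeasurableSet.univ_pi hC)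
  have hRd : Pairwise (Disjoint on R) := by
    intro σ τ hne
    rw [Function.onFun, Set.disjoint_left]
    intro u h1 h2
    apply hne
    ext i
    by_contra hcon
    have hcon' : σ i ≠ τ i := fun h => hcon (by rw [h])
    set i' := τ.symm (σ i) with hi'
    have hii : i' ≠ i := by
      intro h
      apply hcon'
      rw [← h, hi', Equiv.apply_symm_apply, ← hi', h]
    have h3 : u (σ i) ∈ C i := h1 i (mem_univ _)
    have h4 : u (τ i') ∈ C i' := h2 i' (mem_univ _)
    rw [hi', Equiv.apply_symm_apply, ← hi'] at h4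
    exact Set.disjoint_left.1 (hd hii.symm) h3 h4
  have hval : ∀ σ, ∫⁻ u in R σ, W u ∂(Measure.pi fun _ => P) = ∫⁻ u in univ.pi C, W u ∂(Measure.pi fun _ => P) := by
    intro σ
    have := (comp_perm_mp σ).setLIntegral_comp_preimage (MeasurableSet.univ_pi hC) hW
    simp_rw [hsym σ] at this
    exact this
  calc (n ! : ℝ≥0∞) * ∫⁻ u in univ.pi C, W u ∂(Measure.pi fun _ => P) =
      ∑ σ : Equiv.Perm (Fin n), ∫⁻ u in R σ, W u ∂(Measure.pi fun _ => P) := by
        rw [Finset.sum_congr rfl fun σ _ => hval σ, Finset.sum_const, Finset.card_univ, Fintype.card_perm,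
          Fintype.card_fin, nsmul_eq_mul]
    _ = ∫⁻ u in ⋃ σ, R σ, W u ∂(Measure.pi fun _ => P) := by
        rw [lintegral_iUnion hRm hRd, tsum_fintype]
    _ ≤ _ := setLIntegral_le_lintegral _ _

end Pool.Agent.H79.Sq
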