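import Pool.Agent.H79.Sq.L2
namespace Pool.Agent.H79.Sq
open MeasureTheory Real Set Filter Function
open scoped ENNReal Topology Nat

/-- normalized restriction -/
noncomputable def pr (n : ℕ) (A : Set Ω) : Measure Ω := (n : ℝ≥0∞) • P.restrict A

lemma pr_prob {n : ℕ} (hn : 1 ≤ n) {A : Set Ω} (hA : P A = (n : ℝ≥0∞)⁻¹) : IsProbabilityMeasure (pr n A) := by
  constructor
  unfold pr
  rw [Measure.smul_apply, Measure.restrict_apply_univ, hA, smul_eq_mul]
  exact ENNReal.mul_inv_cancel (by simp; omega) (by simp)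

lemma pr_le (n : ℕ) (A : Set Ω) : pr n A ≤ (n : ℝ≥0∞) • P := by
  unfold pr
  intro s
  simp only [Measure.smul_apply, smul_eq_mul]
  gcongr
  exact Measure.restrict_le_self

lemma pr_abs (n : ℕ) (A : Set Ω) : pr n A ≪ P := by
  unfold pr
  exact (Measure.absolutelyContinuous_of_le Measure.restrict_le_self).smul_left _

lemma pr_int (n : ℕ) (A : Set Ω) (h : Ω → ℝ) : ∫ u, h u ∂(pr n A) = n * ∫ u in A, h u ∂P := by
  unfold pr
  rw [integral_smul_measure]
  simp

lemma pi_pr {n : ℕ} (C : Fin n → Set Ω) :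
    Measure.pi (fun i => pr n (C i)) = ((n : ℝ≥0∞) ^ n) • (Measure.pi fun _ => P).restrict (univ.pi C) := by
  have hfin : ∀ i, IsFiniteMeasure (pr n (C i)) := fun i => by
    constructor
    refine (pr_le n (C i) univ).trans_lt ?_
    simp only [Measure.smul_apply, smul_eq_mul, measure_univ, mul_one]
    exact ENNReal.natCast_lt_top n
  apply Measure.pi_eq
  intro s hs
  rw [Measure.smul_apply, Measure.restrict_pi_pi, Measure.pi_pi, smul_eq_mul]
  unfold pr
  simp only [Measure.smul_apply, smul_eq_mul]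
  rw [Finset.prod_mul_distrib, Finset.prod_const, Finset.card_univ, Fintype.card_fin]

/-- law of a pair of coordinates -/
lemma pair_law {n : ℕ} (p : Fin n → Measure Ω) [∀ i, IsProbabilityMeasure (p i)] {i j : Fin n} (hij : i ≠ j) :
    (Measure.pi p).map (fun u => (u i, u j)) = (p i).prod (p j) := by
  have h1 := ProbabilityTheory.iIndepFun_pi (μ := p) (X := fun _ => (id : Ω → Ω)) (fun i => aemeasurable_id)
  have h2 := h1.indepFun hij
  have h3 := (ProbabilityTheory.indepFun_iff_map_prod_eq_prod_map_map (f := fun u : Fin n → Ω => u i)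
    (g := fun u : Fin n → Ω => u j) (measurable_pi_apply i).aemeasurable (measurable_pi_apply j).aemeasurable).1 h2
  rw [h3]
  congr 1
  · exact (measurePreserving_eval p i).map_eq
  · exact (measurePreserving_eval p j).map_eq

end Pool.Agent.H79.Sq
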