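import Pool.Agent.H79.Sq.L3
namespace Pool.Agent.H79.Sq
open MeasureTheory Real Set Filter Function
open scoped ENNReal Topology Nat

/-- log of the squared distance in parameter space -/
noncomputable def g2 (p : Ω × Ω) : ℝ := log (‖Φ p.1 - Φ p.2‖ ^ 2)

lemma g2_meas : Measurable g2 := by
  unfold g2
  have h := measurable_Φ
  have : Measurable (fun p : Ω × Ω => ‖Φ p.1 - Φ p.2‖ ^ 2) := by fun_prop
  exact this.log

lemma map_ΦΦ : (P.prod P).map (Prod.map Φ Φ) = μ.prod μ := by
  have h1 : SFinite (P.map Φ) := by rw [map_Φ]; infer_instance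
  rw [← Measure.map_prod_map _ _ measurable_Φ measurable_Φ, map_Φ]

lemma g2_int : Integrable g2 (P.prod P) := by
  have h1 := log2_int
  rw [← map_ΦΦ] at h1
  have := (integrable_map_measure h1.aestronglyMeasurable
    (measurable_Φ.prodMap measurable_Φ).aemeasurable).1 h1
  exact this

lemma g2_val : ∫ p, g2 p ∂(P.prod P) = 3 / 2 - 2 * log 2 := by
  have h1 := log2_int
  rw [← log2_val]
  rw [← map_ΦΦ] at h1 ⊢
  rw [integral_map (measurable_Φ.prodMap measurable_Φ).aemeasurable h1.aestronglyMeasurable]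
  rfl

lemma ae_dist : ∀ᵐ p ∂(P.prod P), Φ p.1 ≠ Φ p.2 := by
  have h1 : ∀ᵐ w ∂(μ.prod μ), w.1 ≠ w.2 := by
    have : ∀ᵐ x ∂μ, ∀ᵐ y ∂μ, x ≠ y := Eventually.of_forall fun x => by
      filter_upwards [ae_ne x] with y hy
      exact hy.symm
    exact (Measure.ae_prod_iff_ae_ae (by
      have : MeasurableSet {x : E × E | x.1 = x.2} := measurableSet_eq_fun measurable_fst measurable_snd
      exact this.compl)).2 this
  rw [← map_ΦΦ] at h1
  exact ae_of_ae_map (measurable_Φ.prodMap measurable_Φ).aemeasurable h1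

lemma ae_ball : ∀ᵐ u ∂P, ‖Φ u‖ < 1 := by
  have h1 := ae_norm_lt
  rw [← map_Φ] at h1
  exact ae_of_ae_map measurable_Φ.aemeasurable h1

lemma nΦ_int : Integrable (fun u : Ω => ‖Φ u‖ ^ 2) P := by
  have hm : Measurable (fun y : E => ‖y‖ ^ 2) := by fun_prop
  exact (integrable_map_measure (μ := P) (f := Φ) hm.aestronglyMeasurable measurable_Φ.aemeasurable).1
      (by rw [map_Φ]; exact sq_int)

lemma nΦ_val : ∫ u, ‖Φ u‖ ^ 2 ∂P = 3 / 4 := by
  have hm : Measurable (fun y : E => ‖y‖ ^ 2) := by fun_prop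
  rw [← int_sq, ← map_Φ, integral_map measurable_Φ.aemeasurable hm.aestronglyMeasurable]

lemma log01 : IntegrableOn (fun x : ℝ => |log x|) (Ioo 0 1) := by
  have : IntervalIntegrable log volume 0 1 := intervalIntegral.intervalIntegrable_log'
  rw [← integrableOn_Ioc_iff_integrableOn_Ioo]
  exact ((intervalIntegrable_iff_integrableOn_Ioc_of_le zero_le_one).1 this).abs

lemma log10 : IntegrableOn (fun x : ℝ => |log (1 - x)|) (Ioo 0 1) := by
  have : IntervalIntegrable log volume 1 0 := intervalIntegral.intervalIntegrable_log'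
  have h2 := this.comp_sub_left 1
  rw [← integrableOn_Ioc_iff_integrableOn_Ioo]
  simp only [sub_self, sub_zero] at h2
  exact ((intervalIntegrable_iff_integrableOn_Ioc_of_le zero_le_one).1 h2).abs

/-- log of the inverse density -/
noncomputable def lg (u : Ω) : ℝ := log (g (Φ u))

lemma lg_meas : Measurable lg := by
  unfold lg
  exact (g_meas.comp measurable_Φ).log

lemma ae_cube : ∀ᵐ u ∂P, u.1 ∈ Ioo (0:ℝ) 1 ∧ u.2.1 ∈ Ioo (0:ℝ) 1 ∧ u.2.2 ∈ Ioo (0:ℝ) 1 := by
  unfold P
  rw [Measure.prod_restrict, Measure.prod_restrict]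
  filter_upwards [ae_restrict_mem (measurableSet_Ioo.prod (measurableSet_Ioo.prod measurableSet_Ioo))] with u hu
  exact ⟨hu.1, hu.2.1, hu.2.2⟩

lemma lg_int : Integrable lg P := by
  have hb : Integrable (fun u : Ω => 2 * log π + |log (1 - u.1)| + (|log u.2.2| + |log (1 - u.2.2)|)) P := by
    unfold P
    have a1 : Integrable (fun u : Ω => |log (1 - u.1)|)
      ((volume.restrict (Ioo (0:ℝ) 1)).prod ((volume.restrict (Ioo (0:ℝ) 1)).prod (volume.restrict (Ioo (0:ℝ) 1)))) :=
      Integrable.comp_fst log10 _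
    have a2 : Integrable (fun u : Ω => |log u.2.2| + |log (1 - u.2.2)|)
      ((volume.restrict (Ioo (0:ℝ) 1)).prod ((volume.restrict (Ioo (0:ℝ) 1)).prod (volume.restrict (Ioo (0:ℝ) 1)))) :=
      Integrable.comp_snd (Integrable.comp_snd (Integrable.add log01 log10) _) _
    exact ((integrable_const _).add a1).add a2
  refine hb.mono' lg_meas.aestronglyMeasurable ?_
  filter_upwards [ae_cube] with u hu
  obtain ⟨h1, h2, h3⟩ := hu
  have hpi := pi_pos
  have hpi3 := Real.pi_gt_three
  have hs := sqrt_Φ (α := u.2.1) h1 h3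
  have hsin := sin_pos' h3
  have h1s : 0 < 1 - u.1 := by linarith [h1.2]
  have hsq : 0 < √(1 - u.1) := Real.sqrt_pos.2 h1s
  have e : lg u = 2 * log π + log (1 - u.1) / 2 + log (sin (π * u.2.2)) := by
    unfold lg g
    rw [show u = (u.1, u.2.1, u.2.2) from rfl, hs, Real.log_mul (by positivity) (by positivity),
      Real.log_mul hsq.ne' hsin.ne', Real.log_pow, Real.log_sqrt h1s.le]
    push_cast
    ring
  rw [e, Real.norm_eq_abs]
  have hlpi : 0 ≤ log π := Real.log_nonneg (by linarith)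
  have hb1 := abs_nonneg (log (1 - u.1))
  have k1 : |log (sin (π * u.2.2))| ≤ |log u.2.2| + |log (1 - u.2.2)| := by
    have hs1 : sin (π * u.2.2) ≤ 1 := Real.sin_le_one _
    rw [abs_of_nonpos (Real.log_nonpos hsin.le hs1)]
    have hl := sin_lower h3
    have hx1 : 0 < 1 - u.2.2 := by linarith [h3.2]
    have n1 := neg_abs_le (log u.2.2)
    have n2 := neg_abs_le (log (1 - u.2.2))
    have p1 := abs_nonneg (log u.2.2)
    have p2 := abs_nonneg (log (1 - u.2.2))
    rcases min_choice u.2.2 (1 - u.2.2) with h | h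
    · rw [h] at hl
      have := Real.log_le_log h3.1 (show u.2.2 ≤ sin (π * u.2.2) by linarith [h3.1])
      linarith
    · rw [h] at hl
      have := Real.log_le_log hx1 (show 1 - u.2.2 ≤ sin (π * u.2.2) by linarith)
      linarith
  have k2 : |log (1 - u.1) / 2| ≤ |log (1 - u.1)| := by
    rw [abs_div]; norm_num
  calc |2 * log π + log (1 - u.1) / 2 + log (sin (π * u.2.2))| ≤
      |2 * log π + log (1 - u.1) / 2| + |log (sin (π * u.2.2))| := abs_add_le _ _
    _ ≤ (|2 * log π| + |log (1 - u.1) / 2|) + |log (sin (π * u.2.2))| := by gcongr; exact abs_add_le _ _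
    _ ≤ _ := by
      rw [abs_of_nonneg (by positivity : (0:ℝ) ≤ 2 * log π)]
      linarith

end Pool.Agent.H79.Sq
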