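import Pool.Agent.H79.Sq.L4
namespace Pool.Agent.H79.Sq
open MeasureTheory Real Set Filter Function
open scoped ENNReal Topology Nat

/-- logarithm of the integrand in parameter space -/
noncomputable def hh {n : ℕ} (u : Fin n → Ω) : ℝ :=
  1 / 2 * ∑ i, ∑ j ∈ Finset.univ.erase i, g2 (u i, u j) - 2 / 3 * n * ∑ i, ‖Φ (u i)‖ ^ 2 + ∑ i, lg (u i)

/-- the scaled integrand -/
noncomputable def HH {n : ℕ} (x : Fin n → E) : ℝ := Q x * exp (-(2 / 3 * n) * ∑ i, ‖x i‖ ^ 2)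

lemma HH_nonneg {n : ℕ} (x : Fin n → E) : 0 ≤ HH x := mul_nonneg (Q_nonneg x) (Real.exp_pos _).le

lemma HH_cont {n : ℕ} : Continuous (HH : (Fin n → E) → ℝ) := by
  unfold HH
  have := Q_cont (n := n)
  fun_prop

lemma HH_hh {n : ℕ} (u : Fin n → Ω) (hd : ∀ i j, i ≠ j → Φ (u i) ≠ Φ (u j)) (hb : ∀ i, ‖Φ (u i)‖ < 1) :
    HH (fun i => Φ (u i)) * ∏ i, g (Φ (u i)) = exp (hh u) := by
  unfold HH hh
  rw [Q_eq _ hd, ← Real.exp_add, Real.exp_add]
  rw [Real.exp_add, Real.exp_sum]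
  rw [sub_eq_add_neg, Real.exp_add]
  have h1 : ∀ i, exp (lg (u i)) = g (Φ (u i)) := by
    intro i
    unfold lg
    apply Real.exp_log
    unfold g
    have := pi_pos
    have : 0 < √(1 - ‖Φ (u i)‖ ^ 2) := Real.sqrt_pos.2 (by
      have := hb i
      nlinarith [norm_nonneg (Φ (u i))])
    positivity
  have e : -(2 / 3 * (n : ℝ)) * ∑ i, ‖Φ (u i)‖ ^ 2 = -(2 / 3 * (n : ℝ) * ∑ i, ‖Φ (u i)‖ ^ 2) := by ring
  rw [Finset.prod_congr rfl fun i _ => h1 i, ← e]
  rfl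

lemma pr_real {n : ℕ} {h : Ω → ℝ} (hi : Integrable h P) (A : Set Ω) : Integrable h (pr n A) :=
  (hi.smul_measure (c := (n : ℝ≥0∞)) (by simp)).mono_measure (pr_le n A)

lemma pr_pair {n : ℕ} (A B : Set Ω) : (pr n A).prod (pr n B) = ((n : ℝ≥0∞) * n) • ((P.prod P).restrict (A ×ˢ B)) := by
  unfold pr
  rw [Measure.prod_smul_left, Measure.prod_smul_right, Measure.prod_restrict, smul_smul]

lemma pr_pair_int {n : ℕ} {h : Ω × Ω → ℝ} (hi : Integrable h (P.prod P)) (A B : Set Ω) :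
    Integrable h ((pr n A).prod (pr n B)) ∧
    ∫ p, h p ∂((pr n A).prod (pr n B)) = (n : ℝ) * n * ∫ p in A ×ˢ B, h p ∂(P.prod P) := by
  rw [pr_pair]
  constructor
  · exact (hi.restrict).smul_measure (ENNReal.mul_ne_top (by simp) (by simp))
  · rw [integral_smul_measure]
    simp

/-- total over disjoint pieces -/
lemma cover {n : ℕ} (hn : 1 ≤ n) (C : Fin n → Set Ω) (hC : ∀ i, MeasurableSet (C i)) (hd : Pairwise (Disjoint on C))
    (hP : ∀ i, P (C i) = (n : ℝ≥0∞)⁻¹) : ∀ᵐ u ∂P, u ∈ ⋃ i, C i := by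
  have h1 : P (⋃ i, C i) = 1 := by
    rw [measure_iUnion hd hC, tsum_fintype, Finset.sum_congr rfl fun i _ => hP i, Finset.sum_const, Finset.card_univ,
      Fintype.card_fin, nsmul_eq_mul]
    exact ENNReal.mul_inv_cancel (by simp; omega) (by simp)
  rw [← prob_compl_eq_zero_iff (MeasurableSet.iUnion hC)] at h1
  exact h1

lemma sum_single {n : ℕ} (hn : 1 ≤ n) (C : Fin n → Set Ω) (hC : ∀ i, MeasurableSet (C i)) (hd : Pairwise (Disjoint on C))
    (hP : ∀ i, P (C i) = (n : ℝ≥0∞)⁻¹) {h : Ω → ℝ} (hi : Integrable h P) :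
    ∑ i, ∫ u, h u ∂(pr n (C i)) = n * ∫ u, h u ∂P := by
  simp_rw [pr_int]
  rw [← Finset.mul_sum, ← integral_iUnion_fintype hC hd (fun i => hi.integrableOn)]
  congr 1
  have := cover hn C hC hd hP
  rw [Measure.restrict_eq_self_of_ae_mem this]

lemma sum_pair {n : ℕ} (hn : 1 ≤ n) (C : Fin n → Set Ω) (hC : ∀ i, MeasurableSet (C i)) (hd : Pairwise (Disjoint on C))
    (hP : ∀ i, P (C i) = (n : ℝ≥0∞)⁻¹) {h : Ω × Ω → ℝ} (hi : Integrable h (P.prod P)) :
    ∑ i, ∑ j, ∫ p, h p ∂((pr n (C i)).prod (pr n (C j))) = (n : ℝ) ^ 2 * ∫ p, h p ∂(P.prod P) := by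
  have h1 : ∀ i j, ∫ p, h p ∂((pr n (C i)).prod (pr n (C j))) = (n : ℝ) * n * ∫ p in C i ×ˢ C j, h p ∂(P.prod P) :=
    fun i j => (pr_pair_int hi _ _).2
  simp_rw [h1]
  rw [← Finset.sum_product', ← Finset.mul_sum, Finset.univ_product_univ]
  have hd2 : Pairwise (Disjoint on fun q : Fin n × Fin n => C q.1 ×ˢ C q.2) := by
    intro q q' hne
    rw [Function.onFun, Set.disjoint_left]
    rintro p ⟨ha, hb⟩ ⟨ha', hb'⟩
    apply hne
    ext1
    · by_contra hcon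
      exact Set.disjoint_left.1 (hd hcon) ha ha'
    · by_contra hcon
      exact Set.disjoint_left.1 (hd hcon) hb hb'
  rw [← integral_iUnion_fintype (fun q : Fin n × Fin n => (hC q.1).prod (hC q.2)) hd2 (fun q => hi.integrableOn)]
  have hae : ∀ᵐ p ∂(P.prod P), p ∈ ⋃ q : Fin n × Fin n, C q.1 ×ˢ C q.2 := by
    have hc := cover hn C hC hd hP
    have hc2 : ∀ᵐ a ∂P, ∀ᵐ b ∂P, (a, b) ∈ ⋃ q : Fin n × Fin n, C q.1 ×ˢ C q.2 := by
      filter_upwards [hc] with a ha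
      filter_upwards [hc] with b hb
      obtain ⟨i, hi⟩ := mem_iUnion.1 ha
      obtain ⟨j, hj⟩ := mem_iUnion.1 hb
      exact mem_iUnion.2 ⟨(i, j), hi, hj⟩
    exact (Measure.ae_prod_iff_ae_ae (MeasurableSet.iUnion fun q : Fin n × Fin n => (hC q.1).prod (hC q.2))).2 hc2
  rw [Measure.restrict_eq_self_of_ae_mem hae]
  ring

theorem expect {n : ℕ} (hn : 1 ≤ n) (C : Fin n → Set Ω) (hC : ∀ i, MeasurableSet (C i)) (hd : Pairwise (Disjoint on C))
    (hP : ∀ i, P (C i) = (n : ℝ≥0∞)⁻¹) (D : Fin n → ℝ)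
    (hDC : ∀ i, ∀ u ∈ C i, ∀ v ∈ C i, ‖Φ u - Φ v‖ ^ 2 ≤ D i) :
    Integrable (hh : (Fin n → Ω) → ℝ) (Measure.pi fun i => pr n (C i)) ∧
    (n : ℝ) ^ 2 * (1 / 4 - log 2) - 1 / 2 * ∑ i, log (D i) + n * ∫ u, lg u ∂P ≤
      ∫ u, hh u ∂(Measure.pi fun i => pr n (C i)) := by
  have hprob : ∀ i, IsProbabilityMeasure (pr n (C i)) := fun i => pr_prob hn (hP i)
  set Pi' := Measure.pi fun i => pr n (C i) with hPi'
  have hmp : ∀ i, MeasurePreserving (fun u : Fin n → Ω => u i) Pi' (pr n (C i)) := fun i => measurePreserving_eval _ i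
  have e1 : ∀ i {h : Ω → ℝ}, Integrable h P → Integrable (fun u : Fin n → Ω => h (u i)) Pi' ∧
      ∫ u, h (u i) ∂Pi' = ∫ v, h v ∂(pr n (C i)) := by
    intro i h hi
    have hi' := pr_real (n := n) hi (C i)
    constructor
    · exact (hmp i).integrable_comp_of_integrable hi'
    · rw [← (hmp i).map_eq] at hi' ⊢
      rw [integral_map (hmp i).measurable.aemeasurable hi'.aestronglyMeasurable]
  have e2 : ∀ i j, i ≠ j → Integrable (fun u : Fin n → Ω => g2 (u i, u j)) Pi' ∧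
      ∫ u, g2 (u i, u j) ∂Pi' = ∫ p, g2 p ∂((pr n (C i)).prod (pr n (C j))) := by
    intro i j hij
    have hl := pair_law (fun i => pr n (C i)) hij
    have hi' := (pr_pair_int (n := n) g2_int (C i) (C j)).1
    rw [← hl] at hi' ⊢
    have hmm : AEMeasurable (fun u : Fin n → Ω => (u i, u j)) Pi' :=
      ((measurable_pi_apply i).prodMk (measurable_pi_apply j)).aemeasurable
    constructor
    · exact (integrable_map_measure hi'.aestronglyMeasurable hmm).1 hi'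
    · rw [integral_map hmm hi'.aestronglyMeasurable]
  have i1 : Integrable (fun u : Fin n → Ω => ∑ i, ∑ j ∈ Finset.univ.erase i, g2 (u i, u j)) Pi' :=
    integrable_finsetSum _ fun i _ => integrable_finsetSum _ fun j hj => (e2 i j (Finset.ne_of_mem_erase hj).symm).1
  have i2 : Integrable (fun u : Fin n → Ω => ∑ i, ‖Φ (u i)‖ ^ 2) Pi' :=
    integrable_finsetSum _ fun i _ => (e1 i nΦ_int).1
  have i3 : Integrable (fun u : Fin n → Ω => ∑ i, lg (u i)) Pi' :=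
    integrable_finsetSum _ fun i _ => (e1 i lg_int).1
  have i12 : Integrable (fun u : Fin n → Ω => 1 / 2 * ∑ i, ∑ j ∈ Finset.univ.erase i, g2 (u i, u j) -
      2 / 3 * n * ∑ i, ‖Φ (u i)‖ ^ 2) Pi' := (i1.const_mul _).sub (i2.const_mul _)
  refine ⟨i12.add i3, ?_⟩
  have v1 : ∫ u, ∑ i, ∑ j ∈ Finset.univ.erase i, g2 (u i, u j) ∂Pi' =
      ∑ i, ∑ j ∈ Finset.univ.erase i, ∫ p, g2 p ∂((pr n (C i)).prod (pr n (C j))) := by
    rw [integral_finsetSum _ fun i _ => integrable_finsetSum _ fun j hj => (e2 i j (Finset.ne_of_mem_erase hj).symm).1]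
    refine Finset.sum_congr rfl fun i _ => ?_
    rw [integral_finsetSum _ fun j hj => (e2 i j (Finset.ne_of_mem_erase hj).symm).1]
    exact Finset.sum_congr rfl fun j hj => (e2 i j (Finset.ne_of_mem_erase hj).symm).2
  have v2 : ∫ u, ∑ i, ‖Φ (u i)‖ ^ 2 ∂Pi' = n * (3 / 4) := by
    rw [integral_finsetSum _ fun i _ => (e1 i nΦ_int).1, Finset.sum_congr rfl fun i _ => (e1 i nΦ_int).2,
      sum_single hn C hC hd hP nΦ_int, nΦ_val]
  have v3 : ∫ u, ∑ i, lg (u i) ∂Pi' = n * ∫ u, lg u ∂P := by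
    rw [integral_finsetSum _ fun i _ => (e1 i lg_int).1, Finset.sum_congr rfl fun i _ => (e1 i lg_int).2,
      sum_single hn C hC hd hP lg_int]
  have v : ∫ u, hh u ∂Pi' = 1 / 2 * ∑ i, ∑ j ∈ Finset.univ.erase i, ∫ p, g2 p ∂((pr n (C i)).prod (pr n (C j))) -
      2 / 3 * n * (n * (3 / 4)) + n * ∫ u, lg u ∂P := by
    unfold hh
    rw [integral_add i12 i3, integral_sub (i1.const_mul _) (i2.const_mul _), integral_const_mul, integral_const_mul,
      v1, v2, v3]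
  have hdiag : ∀ i, ∫ p, g2 p ∂((pr n (C i)).prod (pr n (C i))) ≤ log (D i) := by
    intro i
    have hle : ∀ᵐ p ∂((pr n (C i)).prod (pr n (C i))), g2 p ≤ log (D i) := by
      rw [pr_pair]
      have : ∀ᵐ p ∂((P.prod P).restrict (C i ×ˢ C i)), g2 p ≤ log (D i) := by
        filter_upwards [ae_restrict_mem ((hC i).prod (hC i)), ae_restrict_of_ae ae_dist] with p hp hne
        unfold g2
        apply Real.log_le_log
        · have := norm_pos_iff.2 (sub_ne_zero.2 hne)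
          positivity
        · exact hDC i _ hp.1 _ hp.2
      exact Measure.ae_smul_measure this _
    calc _ ≤ ∫ p, log (D i) ∂((pr n (C i)).prod (pr n (C i))) :=
          integral_mono_ae (pr_pair_int g2_int _ _).1 (integrable_const _) hle
      _ = _ := by simp
  have hsum : ∑ i, ∑ j ∈ Finset.univ.erase i, ∫ p, g2 p ∂((pr n (C i)).prod (pr n (C j))) =
      (n : ℝ) ^ 2 * (3 / 2 - 2 * log 2) - ∑ i, ∫ p, g2 p ∂((pr n (C i)).prod (pr n (C i))) := by
    rw [← g2_val, ← sum_pair hn C hC hd hP g2_int, ← Finset.sum_sub_distrib]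
    refine Finset.sum_congr rfl fun i _ => ?_
    rw [← Finset.sum_erase_add _ _ (Finset.mem_univ i)]
    ring
  rw [v, hsum]
  have := Finset.sum_le_sum fun i (_ : i ∈ Finset.univ) => hdiag i
  nlinarith

end Pool.Agent.H79.Sq
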