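import Pool.Agent.H79.Sq.L5
namespace Pool.Agent.H79.Sq
open MeasureTheory Real Set Filter Function
open scoped ENNReal Topology Nat

lemma sum_perm {n : ℕ} (σ : Equiv.Perm (Fin n)) (G : Fin n → Fin n → ℝ) :
    ∑ i, ∑ j ∈ Finset.univ.erase i, G (σ i) (σ j) = ∑ i, ∑ j ∈ Finset.univ.erase i, G i j := by
  have h1 : ∀ (K : Fin n → Fin n → ℝ) (i : Fin n), ∑ j ∈ Finset.univ.erase i, K i j = ∑ j, if i ≠ j then K i j else 0 := by
    intro K i
    rw [← Finset.sum_filter]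
    apply Finset.sum_congr _ (fun _ _ => rfl)
    ext j
    simp [eq_comm]
  simp_rw [h1 (fun i j => G (σ i) (σ j)), h1 G]
  rw [← Equiv.sum_comp σ (fun i => ∑ j, if i ≠ j then G i j else 0)]
  refine Finset.sum_congr rfl fun i _ => ?_
  rw [← Equiv.sum_comp σ (fun j => if σ i ≠ j then G (σ i) j else 0)]
  refine Finset.sum_congr rfl fun j _ => ?_
  simp

lemma Q_perm {n : ℕ} (σ : Equiv.Perm (Fin n)) (x : Fin n → E) : Q (x ∘ σ) = Q x := by
  by_cases hx : ∀ i j, i ≠ j → x i ≠ x j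
  · have hx' : ∀ i j, i ≠ j → (x ∘ σ) i ≠ (x ∘ σ) j := fun i j hij => hx _ _ (fun h => hij (σ.injective h))
    rw [Q_eq _ hx, Q_eq _ hx']
    congr 2
    exact sum_perm σ (fun i j => log (‖x i - x j‖ ^ 2))
  · have hx' : ¬ ∀ i j, i ≠ j → (x ∘ σ) i ≠ (x ∘ σ) j := by
      intro h
      apply hx
      intro i j hij
      have := h (σ.symm i) (σ.symm j) (fun h => hij (σ.symm.injective h))
      simpa using this
    rw [Q_zero _ hx, Q_zero _ hx']

lemma HH_perm {n : ℕ} (σ : Equiv.Perm (Fin n)) (x : Fin n → E) : HH (x ∘ σ) = HH x := by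
  unfold HH
  rw [Q_perm]
  congr 3
  exact Equiv.sum_comp σ (fun i => ‖x i‖ ^ 2)

lemma Q_smul {n : ℕ} (x : Fin n → E) {a : ℝ} (ha : 0 < a) : Q (a • x) = exp (n * (n - 1) * log a) * Q x := by
  by_cases hx : ∀ i j, i ≠ j → x i ≠ x j
  · have hx' : ∀ i j, i ≠ j → (a • x) i ≠ (a • x) j := by
      intro i j hij h
      apply hx i j hij
      have h2 : a • x i = a • x j := h
      exact smul_right_injective _ ha.ne' h2
    rw [Q_eq _ hx, Q_eq _ hx', ← Real.exp_add]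
    congr 1
    have := log_scale x hx ha
    simp only [Pi.smul_apply]
    rw [this]; ring
  · have hx' : ¬ ∀ i j, i ≠ j → (a • x) i ≠ (a • x) j := by
      intro h
      apply hx
      intro i j hij h2
      apply h i j hij
      simp only [Pi.smul_apply]
      rw [h2]
    rw [Q_zero _ hx, Q_zero _ hx', mul_zero]

lemma scaled_integrand {n : ℕ} (hn : 1 ≤ n) (x : Fin n → E) :
    Q (√(2 / 3 * n) • x) * exp (-∑ i, ‖(√(2 / 3 * n) • x) i‖ ^ 2) = exp (n * (n - 1) * log (√(2 / 3 * n))) * HH x := by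
  have hn0 : (0:ℝ) < n := by exact_mod_cast hn
  set a : ℝ := √(2 / 3 * n) with ha
  have ha0 : 0 < a := Real.sqrt_pos.2 (by positivity)
  have ha2 : a ^ 2 = 2 / 3 * n := Real.sq_sqrt (by positivity)
  rw [Q_smul x ha0]
  unfold HH
  have : ∑ i, ‖(a • x) i‖ ^ 2 = 2 / 3 * n * ∑ i, ‖x i‖ ^ 2 := by
    rw [Finset.mul_sum]
    refine Finset.sum_congr rfl fun i _ => ?_
    simp only [Pi.smul_apply]
    rw [norm_smul, Real.norm_of_nonneg ha0.le, mul_pow, ha2]
  rw [this, neg_mul]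
  ring

/-- scaling identity -/
theorem F1_scale {n : ℕ} (hn : 1 ≤ n) : F1 n = exp (((n : ℝ) ^ 2 / 2 + n) * log (2 / 3 * n)) * ∫ x : Fin n → E, HH x := by
  have hn0 : (0:ℝ) < n := by exact_mod_cast hn
  set a : ℝ := √(2 / 3 * n) with ha
  have ha0 : 0 < a := Real.sqrt_pos.2 (by positivity)
  have ha2 : a ^ 2 = 2 / 3 * n := Real.sq_sqrt (by positivity)
  have hla : log (2 / 3 * n) = 2 * log a := by rw [← ha2, Real.log_pow]; norm_num
  have h1 := Measure.integral_comp_smul (volume : Measure (Fin n → E)) (fun r : Fin n → E => Q r * exp (-∑ i, ‖r i‖ ^ 2)) a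
  have hf : Module.finrank ℝ (Fin n → E) = 3 * n := by
    rw [Module.finrank_pi_fintype]
    simp
    ring
  have h2 : ∀ x : Fin n → E, Q (a • x) * exp (-∑ i, ‖(a • x) i‖ ^ 2) = exp (n * (n - 1) * log a) * HH x :=
    fun x => scaled_integrand hn x
  simp_rw [h2] at h1
  rw [integral_const_mul, hf, smul_eq_mul, abs_of_nonneg (by positivity)] at h1
  have h3 : a ^ (3 * n) = exp (3 * n * log a) := by
    rw [← Real.exp_log (pow_pos ha0 _), Real.log_pow]; push_cast; ring_nf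
  have h4 : F1 n = a ^ (3 * n) * (exp (n * (n - 1) * log a) * ∫ x : Fin n → E, HH x) := by
    rw [h1]
    unfold F1
    field_simp
  rw [h4, h3, ← mul_assoc, ← Real.exp_add, hla]
  congr 2
  ring

lemma HH_integrable {n : ℕ} (hn : 1 ≤ n) : Integrable (HH : (Fin n → E) → ℝ) := by
  have hn0 : (0:ℝ) < n := by exact_mod_cast hn
  have ha0 : 0 < √(2 / 3 * (n:ℝ)) := Real.sqrt_pos.2 (by positivity)
  have h1 := (F1_int n).comp_smul ha0.ne'
  have h2 := h1.const_mul (exp (n * (n - 1) * log (√(2 / 3 * n))))⁻¹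
  refine h2.congr (Eventually.of_forall fun x => ?_)
  simp only
  have := scaled_integrand hn x
  rw [this, ← mul_assoc, inv_mul_cancel₀ (Real.exp_pos _).ne', one_mul]

theorem gibbs {n : ℕ} (hn : 1 ≤ n) (C : Fin n → Set Ω) (hC : ∀ i, MeasurableSet (C i)) (hd : Pairwise (Disjoint on C))
    (hP : ∀ i, P (C i) = (n : ℝ≥0∞)⁻¹) (D : Fin n → ℝ)
    (hDC : ∀ i, ∀ u ∈ C i, ∀ v ∈ C i, ‖Φ u - Φ v‖ ^ 2 ≤ D i) :
    ENNReal.ofReal (exp ((n : ℝ) ^ 2 * (1 / 4 - log 2) - 1 / 2 * ∑ i, log (D i) + n * ∫ u, lg u ∂P - n)) ≤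
      ∫⁻ x : Fin n → E, ENNReal.ofReal (HH x) := by
  have hprob : ∀ i, IsProbabilityMeasure (pr n (C i)) := fun i => pr_prob hn (hP i)
  obtain ⟨hint, hexp⟩ := expect hn C hC hd hP D hDC
  have hJ := jensen hint
  set B := (n : ℝ) ^ 2 * (1 / 4 - log 2) - 1 / 2 * ∑ i, log (D i) + n * ∫ u, lg u ∂P with hB
  set W : (Fin n → Ω) → ℝ≥0∞ := fun u => ENNReal.ofReal (HH (fun i => Φ (u i)) * ∏ i, g (Φ (u i))) with hW
  have hmg := g_meas
  have hmΦ := measurable_Φ
  have hmH : Measurable (HH : (Fin n → E) → ℝ) := HH_cont.measurable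
  have hWm : Measurable W := by
    apply Measurable.ennreal_ofReal
    apply Measurable.mul
    · apply hmH.comp
      fun_prop
    · fun_prop
  have hsym : ∀ (σ : Equiv.Perm (Fin n)) u, W (u ∘ σ) = W u := by
    intro σ u
    simp only [hW]
    congr 2
    · exact HH_perm σ (fun i => Φ (u i))
    · exact Equiv.prod_comp σ (fun i => g (Φ (u i)))
  have hperm := perm_bound C hC hd W hWm hsym
  have hlow := lower1 (HH : (Fin n → E) → ℝ) hmH HH_nonneg
  -- compare `W` with `exp hh`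
  have hac : (Measure.pi fun i => pr n (C i)) ≪ (Measure.pi fun _ : Fin n => P) := by
    rw [pi_pr]
    exact (Measure.absolutelyContinuous_of_le Measure.restrict_le_self).smul_left _
  have hae : ∀ᵐ u ∂(Measure.pi fun i => pr n (C i)), ENNReal.ofReal (exp (hh u)) = W u := by
    have h1 : ∀ i, ∀ᵐ u ∂(Measure.pi fun i => pr n (C i)), ‖Φ (u i)‖ < 1 := by
      intro i
      have h2 : ∀ᵐ v ∂(pr n (C i)), ‖Φ v‖ < 1 := (pr_abs n (C i)).ae_le ae_ball
      exact (measurePreserving_eval (fun i => pr n (C i)) i).quasiMeasurePreserving.ae h2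
    have h3 : ∀ i j, i ≠ j → ∀ᵐ u ∂(Measure.pi fun i => pr n (C i)), Φ (u i) ≠ Φ (u j) := by
      intro i j hij
      have h4 : ∀ᵐ p ∂((pr n (C i)).prod (pr n (C j))), Φ p.1 ≠ Φ p.2 := by
        rw [pr_pair]
        exact Measure.ae_smul_measure (ae_restrict_of_ae ae_dist) _
      rw [← pair_law (fun i => pr n (C i)) hij] at h4
      exact ae_of_ae_map ((measurable_pi_apply i).prodMk (measurable_pi_apply j)).aemeasurable h4
    have h5 : ∀ᵐ u ∂(Measure.pi fun i => pr n (C i)), ∀ i, ‖Φ (u i)‖ < 1 := ae_all_iff.2 h1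
    have h6 : ∀ᵐ u ∂(Measure.pi fun i => pr n (C i)), ∀ i j, i ≠ j → Φ (u i) ≠ Φ (u j) := by
      rw [ae_all_iff]; intro i
      rw [ae_all_iff]; intro j
      by_cases hij : i = j
      · exact Eventually.of_forall fun u h => absurd hij h
      · filter_upwards [h3 i j hij] with u hu _
        exact hu
    filter_upwards [h5, h6] with u h7 h8
    simp only [hW]
    rw [HH_hh u h8 h7]
  have hval : ∫⁻ u, W u ∂(Measure.pi fun i => pr n (C i)) =
      (n : ℝ≥0∞) ^ n * ∫⁻ u in univ.pi C, W u ∂(Measure.pi fun _ => P) := by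
    rw [pi_pr, lintegral_smul_measure, smul_eq_mul]
  rw [lintegral_congr_ae hae, hval] at hJ
  have hn0 : (0:ℝ) < n := by exact_mod_cast hn
  have hfac : exp (-(n:ℝ)) ≤ (n ! : ℝ) / (n : ℝ) ^ n := by
    have := Real.pow_div_factorial_le_exp (x := (n:ℝ)) (by positivity) n
    rw [Real.exp_neg, ← inv_div]
    exact inv_anti₀ (by positivity) this
  calc ENNReal.ofReal (exp (B - n)) ≤ ENNReal.ofReal ((n ! : ℝ) * (((n : ℝ) ^ n)⁻¹ * exp B)) := by
        apply ENNReal.ofReal_le_ofReal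
        rw [sub_eq_add_neg, Real.exp_add, mul_comm (exp B)]
        calc exp (-(n:ℝ)) * exp B ≤ (n ! : ℝ) / (n : ℝ) ^ n * exp B := by gcongr
          _ = _ := by field_simp
    _ ≤ (n ! : ℝ≥0∞) * ∫⁻ u in univ.pi C, W u ∂(Measure.pi fun _ => P) := by
        rw [ENNReal.ofReal_mul (by positivity), ENNReal.ofReal_natCast]
        gcongr
        rw [ENNReal.ofReal_mul (by positivity)]
        have h9 : ENNReal.ofReal (exp B) ≤ (n : ℝ≥0∞) ^ n * ∫⁻ u in univ.pi C, W u ∂(Measure.pi fun _ => P) := by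
          refine le_trans (ENNReal.ofReal_le_ofReal (Real.exp_le_exp.2 hexp)) hJ
        calc _ ≤ ENNReal.ofReal ((n : ℝ) ^ n)⁻¹ * ((n : ℝ≥0∞) ^ n * ∫⁻ u in univ.pi C, W u ∂(Measure.pi fun _ => P)) := by
              gcongr
          _ = _ := by
              rw [← mul_assoc, ENNReal.ofReal_inv_of_pos (by positivity), ENNReal.ofReal_pow hn0.le, ENNReal.ofReal_natCast,
                ENNReal.inv_mul_cancel, one_mul]
              · exact pow_ne_zero _ (by simp; omega)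
              · exact ENNReal.pow_ne_top (by simp)
    _ ≤ _ := hperm
    _ ≤ _ := hlow

theorem F1_lower {n : ℕ} (hn : 1 ≤ n) (C : Fin n → Set Ω) (hC : ∀ i, MeasurableSet (C i)) (hd : Pairwise (Disjoint on C))
    (hP : ∀ i, P (C i) = (n : ℝ≥0∞)⁻¹) (D : Fin n → ℝ)
    (hDC : ∀ i, ∀ u ∈ C i, ∀ v ∈ C i, ‖Φ u - Φ v‖ ^ 2 ≤ D i) :
    exp (((n : ℝ) ^ 2 / 2 + n) * log (2 / 3 * n) + ((n : ℝ) ^ 2 * (1 / 4 - log 2) - 1 / 2 * ∑ i, log (D i) +
      n * ∫ u, lg u ∂P - n)) ≤ F1 n := by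
  rw [F1_scale hn, Real.exp_add]
  apply mul_le_mul_of_nonneg_left _ (Real.exp_pos _).le
  have h1 := gibbs hn C hC hd hP D hDC
  rw [← ofReal_integral_eq_lintegral_ofReal (HH_integrable hn) (Eventually.of_forall HH_nonneg)] at h1
  exact (ENNReal.ofReal_le_ofReal_iff (integral_nonneg HH_nonneg)).1 h1

end Pool.Agent.H79.Sq
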