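import Pool.Agent.H79.Sq.L6
namespace Pool.Agent.H79.Sq
open MeasureTheory Real Set Filter Function
open scoped ENNReal Topology

lemma cos_lip (x y : ℝ) : |cos x - cos y| ≤ |x - y| := by
  have h1 : cos x - cos y = -2 * sin ((x + y) / 2) * sin ((x - y) / 2) := Real.cos_sub_cos x y
  rw [h1, abs_mul, abs_mul]
  have h2 := Real.abs_sin_le_one ((x + y) / 2)
  have h3 : |sin ((x - y) / 2)| ≤ |(x - y) / 2| := Real.abs_sin_le_abs
  rw [abs_div, show |(2:ℝ)| = 2 by norm_num] at h3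
  rw [show |(-2:ℝ)| = 2 by norm_num]
  nlinarith [abs_nonneg (sin ((x + y) / 2)), abs_nonneg (sin ((x - y) / 2)), abs_nonneg (x - y)]

/-- distance bound in parameter space -/
lemma Φ_dist {u v : Ω} (hu : u.1 ∈ Icc (0:ℝ) 1) (hv : v.1 ∈ Icc (0:ℝ) 1) {X Y Z W : ℝ}
    (h1 : |√u.1 - √v.1| ≤ X) (h2 : |√(1 - u.1) - √(1 - v.1)| ≤ Y) (h3 : |u.2.1 - v.2.1| ≤ Z)
    (h4 : |u.2.2 - v.2.2| ≤ W) : ‖Φ u - Φ v‖ ^ 2 ≤ (X + Y + 2 * π * Z + π * W) ^ 2 := by
  have hpi := pi_pos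
  have hX := (abs_nonneg _).trans h1
  have hY := (abs_nonneg _).trans h2
  have hZ := (abs_nonneg _).trans h3
  have hW := (abs_nonneg _).trans h4
  rw [EuclideanSpace.norm_sq_eq, Fin.sum_univ_three]
  simp only [PiLp.sub_apply, Real.norm_eq_abs, sq_abs, Φ_0, Φ_1, Φ_2]
  set r := √u.1
  set r' := √v.1
  have hr0 : 0 ≤ r := Real.sqrt_nonneg _
  have hr0' : 0 ≤ r' := Real.sqrt_nonneg _
  have hr1 : r ≤ 1 := by rw [Real.sqrt_le_one]; exact hu.2
  have hr1' : r' ≤ 1 := by rw [Real.sqrt_le_one]; exact hv.2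
  set p := √(1 - u.1)
  set p' := √(1 - v.1)
  have hp0' : 0 ≤ p' := Real.sqrt_nonneg _
  have hp1' : p' ≤ 1 := by rw [Real.sqrt_le_one]; linarith [hv.1]
  set a := 2 * π * u.2.1 with ha
  set a' := 2 * π * v.2.1 with ha'
  have hA : (-(r * cos a) - -(r' * cos a')) ^ 2 + (-(r * sin a) - -(r' * sin a')) ^ 2 ≤ (X + 2 * π * Z) ^ 2 := by
    have e : (-(r * cos a) - -(r' * cos a')) ^ 2 + (-(r * sin a) - -(r' * sin a')) ^ 2 =
        (r - r') ^ 2 + 2 * (r * r') * (1 - cos (a - a')) := by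
      rw [Real.cos_sub]
      have s1 := Real.sin_sq_add_cos_sq a
      have s2 := Real.sin_sq_add_cos_sq a'
      linear_combination r ^ 2 * s1 + r' ^ 2 * s2
    rw [e]
    have c1 := Real.one_sub_sq_div_two_le_cos (x := a - a')
    have c2 : |a - a'| ≤ 2 * π * Z := by
      rw [ha, ha', ← mul_sub, abs_mul, abs_of_pos (by positivity : (0:ℝ) < 2 * π)]
      gcongr
    have c3 : (a - a') ^ 2 ≤ (2 * π * Z) ^ 2 := by
      rw [← sq_abs]; exact pow_le_pow_left₀ (abs_nonneg _) c2 2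
    have c4 : (r - r') ^ 2 ≤ X ^ 2 := by
      rw [← sq_abs]; exact pow_le_pow_left₀ (abs_nonneg _) h1 2
    have c5 : r * r' ≤ 1 := mul_le_one₀ hr1 hr0' hr1'
    have c6 : 2 * (r * r') * (1 - cos (a - a')) ≤ (2 * π * Z) ^ 2 := by
      have c7 : 0 ≤ 1 - cos (a - a') := by linarith [Real.cos_le_one (a - a')]
      calc 2 * (r * r') * (1 - cos (a - a')) ≤ 2 * 1 * (1 - cos (a - a')) := by gcongr
        _ ≤ (a - a') ^ 2 := by linarith
        _ ≤ _ := c3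
    nlinarith [mul_nonneg hX (by positivity : (0:ℝ) ≤ 2 * π * Z)]
  have hB : (p * cos (π * u.2.2) - p' * cos (π * v.2.2)) ^ 2 ≤ (Y + π * W) ^ 2 := by
    rw [← sq_abs]
    apply pow_le_pow_left₀ (abs_nonneg _)
    have e : p * cos (π * u.2.2) - p' * cos (π * v.2.2) = (p - p') * cos (π * u.2.2) +
        p' * (cos (π * u.2.2) - cos (π * v.2.2)) := by ring
    rw [e]
    calc |(p - p') * cos (π * u.2.2) + p' * (cos (π * u.2.2) - cos (π * v.2.2))| ≤
        |(p - p') * cos (π * u.2.2)| + |p' * (cos (π * u.2.2) - cos (π * v.2.2))| := abs_add_le _ _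
      _ = |p - p'| * |cos (π * u.2.2)| + p' * |cos (π * u.2.2) - cos (π * v.2.2)| := by
        rw [abs_mul, abs_mul, abs_of_nonneg hp0']
      _ ≤ Y * 1 + 1 * (π * W) := by
        have d1 := Real.abs_cos_le_one (π * u.2.2)
        have d2 : |cos (π * u.2.2) - cos (π * v.2.2)| ≤ π * W := by
          refine (cos_lip _ _).trans ?_
          rw [← mul_sub, abs_mul, abs_of_pos hpi]
          gcongr
        gcongr
      _ = _ := by ring
  nlinarith [mul_nonneg (by positivity : (0:ℝ) ≤ X + 2 * π * Z) (by positivity : (0:ℝ) ≤ Y + π * W)]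

lemma Φ_norm_le {u : Ω} (hu : u.1 ∈ Icc (0:ℝ) 1) : ‖Φ u‖ ≤ 1 := by
  have h : ‖Φ u‖ ^ 2 ≤ 1 := by
    unfold Φ
    rw [norm_T_sq]
    simp only
    have h1 := Real.sq_sqrt hu.1
    have h2 := Real.sq_sqrt (show 0 ≤ 1 - u.1 by linarith [hu.2])
    have h3 := Real.sin_sq_add_cos_sq (2 * π * u.2.1)
    have : (-(√u.1 * cos (2 * π * u.2.1))) ^ 2 + (-(√u.1 * sin (2 * π * u.2.1))) ^ 2 + (√(1 - u.1) * cos (π * u.2.2)) ^ 2 =
      (√u.1) ^ 2 * (sin (2 * π * u.2.1) ^ 2 + cos (2 * π * u.2.1) ^ 2) + (√(1 - u.1)) ^ 2 * cos (π * u.2.2) ^ 2 := by ring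
    rw [this, h1, h2, h3, mul_one]
    have h4 := Real.cos_sq_le_one (π * u.2.2)
    nlinarith [hu.2]
  nlinarith [norm_nonneg (Φ u)]

lemma vol_Ico {a b : ℝ} (h0 : 0 ≤ a) (h1 : b ≤ 1) :
    (volume.restrict (Ioo (0:ℝ) 1)) (Ico a b) = ENNReal.ofReal (b - a) := by
  rw [Measure.restrict_apply measurableSet_Ico]
  apply le_antisymm
  · calc _ ≤ volume (Ico a b) := measure_mono inter_subset_left
      _ = _ := Real.volume_Ico
  · calc ENNReal.ofReal (b - a) = volume (Ioo a b) := Real.volume_Ioo.symm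
      _ ≤ _ := by
        apply measure_mono
        intro x hx
        exact ⟨⟨hx.1.le, hx.2⟩, lt_of_le_of_lt h0 hx.1, lt_of_lt_of_le hx.2 h1⟩

lemma Ico_disj {c : ℝ} (hc : 0 < c) {i j : ℕ} (hij : i ≠ j) : Disjoint (Ico ((i:ℝ) * c) ((i + 1) * c)) (Ico ((j:ℝ) * c) ((j + 1) * c)) := by
  rw [Set.disjoint_left]
  rintro x ⟨h1, h2⟩ ⟨h3, h4⟩
  apply hij
  have a1 : (i:ℝ) < j + 1 := by
    have := lt_of_le_of_lt h1 h4
    exact lt_of_mul_lt_mul_right this hc.le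
  have a2 : (j:ℝ) < i + 1 := by
    have := lt_of_le_of_lt h3 h2
    exact lt_of_mul_lt_mul_right this hc.le
  have b1 : i < j + 1 := by exact_mod_cast a1
  have b2 : j < i + 1 := by exact_mod_cast a2
  omega

end Pool.Agent.H79.Sq
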