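import Pool.Agent.H79.Sq.L7
namespace Pool.Agent.H79.Sq
open MeasureTheory Real Set Filter Function
open scoped ENNReal Topology

/-- cells of the stratification -/
abbrev Idx (J m q : ℕ) := (Fin J × Fin m × Fin m) ⊕ Fin q

noncomputable def cell (J m q : ℕ) (n : ℝ) : Idx J m q → Set Ω
  | .inl b => Ico ((b.1 : ℕ) * ((m:ℝ) ^ 2 / n)) (((b.1 : ℕ) + 1) * ((m:ℝ) ^ 2 / n)) ×ˢ
      (Ico ((b.2.1 : ℕ) * (1 / (m:ℝ))) (((b.2.1 : ℕ) + 1) * (1 / (m:ℝ))) ×ˢ
        Ico ((b.2.2 : ℕ) * (1 / (m:ℝ))) (((b.2.2 : ℕ) + 1) * (1 / (m:ℝ))))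
  | .inr i => Ico (((J * m ^ 2 + (i : ℕ) : ℕ) : ℝ) * (1 / n)) ((((J * m ^ 2 + (i : ℕ) : ℕ) : ℝ) + 1) * (1 / n)) ×ˢ
      (univ ×ˢ univ)

/-- diameter bounds of the cells -/
noncomputable def dd (J m q : ℕ) (n : ℝ) : Idx J m q → ℝ
  | .inl b => (√(((b.1 : ℕ) + 1) * ((m:ℝ) ^ 2 / n)) - √((b.1 : ℕ) * ((m:ℝ) ^ 2 / n))) +
      (√(1 - (b.1 : ℕ) * ((m:ℝ) ^ 2 / n)) - √(1 - ((b.1 : ℕ) + 1) * ((m:ℝ) ^ 2 / n))) + 2 * π * (1 / m) + π * (1 / m)
  | .inr _ => 2

variable {J m q n : ℕ}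

lemma cell_meas (i : Idx J m q) : MeasurableSet (cell J m q n i) := by
  rcases i with b | i
  · exact measurableSet_Ico.prod (measurableSet_Ico.prod measurableSet_Ico)
  · exact measurableSet_Ico.prod (MeasurableSet.univ.prod MeasurableSet.univ)

lemma cell_disj (hm : 1 ≤ m) (hn : 1 ≤ n) : Pairwise (Disjoint on cell J m q n) := by
  have hm0 : (0:ℝ) < m := by exact_mod_cast hm
  have hn0 : (0:ℝ) < n := by exact_mod_cast hn
  have hAB : ∀ (b : Fin J × Fin m × Fin m) (i : Fin q), Disjoint (cell J m q n (.inl b)) (cell J m q n (.inr i)) := by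
    intro b i
    rw [Set.disjoint_left]
    rintro u ⟨h1, -⟩ ⟨h2, -⟩
    have h3 : u.1 < ((b.1 : ℕ) + 1) * ((m:ℝ) ^ 2 / n) := h1.2
    have h4 : (((J * m ^ 2 + (i : ℕ) : ℕ) : ℝ)) * (1 / n) ≤ u.1 := h2.1
    have h5 : (((b.1 : ℕ) : ℝ) + 1) ≤ J := by exact_mod_cast b.1.2
    have h6 : (((b.1 : ℕ) : ℝ) + 1) * ((m:ℝ) ^ 2 / n) ≤ J * ((m:ℝ) ^ 2 / n) := by gcongr
    have h7 : (J:ℝ) * ((m:ℝ) ^ 2 / n) ≤ (((J * m ^ 2 + (i : ℕ) : ℕ) : ℝ)) * (1 / n) := by
      push_cast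
      have : (0:ℝ) ≤ (i : ℕ) := by positivity
      rw [mul_one_div, ← mul_div_assoc]
      gcongr
      linarith
    linarith
  intro x y hxy
  rcases x with b | i <;> rcases y with b' | i'
  · rw [Function.onFun, Set.disjoint_left]
    rintro u ⟨h1, h2, h3⟩ ⟨h1', h2', h3'⟩
    apply hxy
    have c1 : (0:ℝ) < (m:ℝ) ^ 2 / n := by positivity
    have c2 : (0:ℝ) < 1 / (m:ℝ) := by positivity
    have e1 : (b.1 : ℕ) = b'.1 := by
      by_contra hcon
      exact Set.disjoint_left.1 (Ico_disj c1 hcon) h1 h1'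
    have e2 : (b.2.1 : ℕ) = b'.2.1 := by
      by_contra hcon
      exact Set.disjoint_left.1 (Ico_disj c2 hcon) h2 h2'
    have e3 : (b.2.2 : ℕ) = b'.2.2 := by
      by_contra hcon
      exact Set.disjoint_left.1 (Ico_disj c2 hcon) h3 h3'
    congr 1
    ext1
    · exact Fin.ext e1
    · ext1
      · exact Fin.ext e2
      · exact Fin.ext e3
  · exact hAB b i'
  · exact (hAB b' i).symm
  · rw [Function.onFun, Set.disjoint_left]
    rintro u ⟨h1, -⟩ ⟨h1', -⟩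
    have c1 : (0:ℝ) < 1 / (n:ℝ) := by positivity
    have e1 : J * m ^ 2 + (i : ℕ) = J * m ^ 2 + (i' : ℕ) := by
      by_contra hcon
      exact Set.disjoint_left.1 (Ico_disj c1 hcon) h1 h1'
    apply hxy
    congr 1
    apply Fin.ext
    omega

lemma P_prod (A B C : Set ℝ) : P (A ×ˢ (B ×ˢ C)) = (volume.restrict (Ioo (0:ℝ) 1)) A *
    ((volume.restrict (Ioo (0:ℝ) 1)) B * (volume.restrict (Ioo (0:ℝ) 1)) C) := by
  unfold P
  rw [Measure.prod_prod, Measure.prod_prod]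

lemma cell_P (hm : 1 ≤ m) (hn : 1 ≤ n) (hJ : J * m ^ 2 + q = n) (i : Idx J m q) :
    P (cell J m q n i) = (n : ℝ≥0∞)⁻¹ := by
  have hm0 : (0:ℝ) < m := by exact_mod_cast hm
  have hn0 : (0:ℝ) < n := by exact_mod_cast hn
  have hJ' : (J:ℝ) * m ^ 2 + q = n := by exact_mod_cast hJ
  have hq0 : (0:ℝ) ≤ q := by positivity
  have hinv : (n : ℝ≥0∞)⁻¹ = ENNReal.ofReal (1 / n) := by
    rw [one_div, ENNReal.ofReal_inv_of_pos hn0, ENNReal.ofReal_natCast]
  have hI : ∀ k : Fin m, (volume.restrict (Ioo (0:ℝ) 1)) (Ico ((k : ℕ) * (1 / (m:ℝ))) (((k : ℕ) + 1) * (1 / (m:ℝ)))) =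
      ENNReal.ofReal (1 / m) := by
    intro k
    rw [vol_Ico (by positivity)]
    · congr 1; ring
    · have : (((k : ℕ) : ℝ) + 1) ≤ m := by exact_mod_cast k.2
      rw [mul_one_div, div_le_one hm0]; exact this
  rcases i with b | i
  · unfold cell
    rw [P_prod, hI, hI, vol_Ico (by positivity)]
    · rw [hinv, ← ENNReal.ofReal_mul (by positivity), ← ENNReal.ofReal_mul (by
        have : ((b.1 : ℕ) + 1) * ((m:ℝ) ^ 2 / n) - (b.1 : ℕ) * ((m:ℝ) ^ 2 / n) = (m:ℝ) ^ 2 / n := by ring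
        rw [this]; positivity)]
      congr 1
      field_simp
      ring
    · have h5 : (((b.1 : ℕ) : ℝ) + 1) ≤ J := by exact_mod_cast b.1.2
      calc (((b.1 : ℕ) : ℝ) + 1) * ((m:ℝ) ^ 2 / n) ≤ J * ((m:ℝ) ^ 2 / n) := by gcongr
        _ ≤ 1 := by
          rw [← mul_div_assoc, div_le_one hn0]; linarith
  · unfold cell
    rw [P_prod, vol_Ico (by positivity)]
    · rw [hinv]
      have : (volume.restrict (Ioo (0:ℝ) 1)) univ = 1 := by simp
      rw [this, mul_one, mul_one]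
      congr 1
      ring
    · have h5 : ((J * m ^ 2 + (i : ℕ) : ℕ) : ℝ) + 1 ≤ n := by
        have := i.2
        have h6 : J * m ^ 2 + (i : ℕ) + 1 ≤ n := by omega
        exact_mod_cast h6
      rw [mul_one_div, div_le_one hn0]; exact h5

lemma cell_D (hm : 1 ≤ m) (hn : 1 ≤ n) (hJ : J * m ^ 2 + q = n) (i : Idx J m q) :
    ∀ u ∈ cell J m q n i, ∀ v ∈ cell J m q n i, ‖Φ u - Φ v‖ ^ 2 ≤ (dd J m q n i) ^ 2 := by
  have hm0 : (0:ℝ) < m := by exact_mod_cast hm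
  have hn0 : (0:ℝ) < n := by exact_mod_cast hn
  have hJ' : (J:ℝ) * m ^ 2 + q = n := by exact_mod_cast hJ
  have hq0 : (0:ℝ) ≤ q := by positivity
  intro u hu v hv
  rcases i with b | i
  · obtain ⟨h1, h2, h3⟩ := hu
    obtain ⟨h1', h2', h3'⟩ := hv
    have ha0 : (0:ℝ) ≤ (b.1 : ℕ) * ((m:ℝ) ^ 2 / n) := by positivity
    have ha1 : (((b.1 : ℕ) : ℝ) + 1) * ((m:ℝ) ^ 2 / n) ≤ 1 := by
      have h5 : (((b.1 : ℕ) : ℝ) + 1) ≤ J := by exact_mod_cast b.1.2
      calc (((b.1 : ℕ) : ℝ) + 1) * ((m:ℝ) ^ 2 / n) ≤ J * ((m:ℝ) ^ 2 / n) := by gcongr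
        _ ≤ 1 := by
          rw [← mul_div_assoc, div_le_one hn0]; linarith
    have key : ∀ {x y a c : ℝ}, x ∈ Icc a c → y ∈ Icc a c → |x - y| ≤ c - a := by
      intro x y a c hx hy
      rw [abs_le]
      constructor <;> linarith [hx.1, hx.2, hy.1, hy.2]
    have := Φ_dist (u := u) (v := v) (X := √(((b.1 : ℕ) + 1) * ((m:ℝ) ^ 2 / n)) - √((b.1 : ℕ) * ((m:ℝ) ^ 2 / n)))
      (Y := √(1 - (b.1 : ℕ) * ((m:ℝ) ^ 2 / n)) - √(1 - ((b.1 : ℕ) + 1) * ((m:ℝ) ^ 2 / n))) (Z := 1 / m) (W := 1 / m)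
      ⟨by linarith [h1.1], by linarith [h1.2]⟩ ⟨by linarith [h1'.1], by linarith [h1'.2]⟩
      (key ⟨Real.sqrt_le_sqrt h1.1, Real.sqrt_le_sqrt h1.2.le⟩ ⟨Real.sqrt_le_sqrt h1'.1, Real.sqrt_le_sqrt h1'.2.le⟩)
      (key ⟨Real.sqrt_le_sqrt (by linarith [h1.2]), Real.sqrt_le_sqrt (by linarith [h1.1])⟩
        ⟨Real.sqrt_le_sqrt (by linarith [h1'.2]), Real.sqrt_le_sqrt (by linarith [h1'.1])⟩)
      (by
        have := key (Ico_subset_Icc_self h2) (Ico_subset_Icc_self h2')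
        linarith)
      (by
        have := key (Ico_subset_Icc_self h3) (Ico_subset_Icc_self h3')
        linarith)
    exact this
  · obtain ⟨h1, -⟩ := hu
    obtain ⟨h1', -⟩ := hv
    have hb : ∀ {x : ℝ}, x ∈ Ico (((J * m ^ 2 + (i : ℕ) : ℕ) : ℝ) * (1 / n)) ((((J * m ^ 2 + (i : ℕ) : ℕ) : ℝ) + 1) * (1 / (n:ℝ))) →
        x ∈ Icc (0:ℝ) 1 := by
      intro x hx
      have h5 : ((J * m ^ 2 + (i : ℕ) : ℕ) : ℝ) + 1 ≤ n := by
        have := i.2
        have h6 : J * m ^ 2 + (i : ℕ) + 1 ≤ n := by omega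
        exact_mod_cast h6
      have h7 : (((J * m ^ 2 + (i : ℕ) : ℕ) : ℝ) + 1) * (1 / (n:ℝ)) ≤ 1 := by
        rw [mul_one_div, div_le_one hn0]; exact h5
      have h8 : (0:ℝ) ≤ ((J * m ^ 2 + (i : ℕ) : ℕ) : ℝ) * (1 / n) := by positivity
      exact ⟨by linarith [hx.1], by linarith [hx.2]⟩
    have n1 := Φ_norm_le (hb h1)
    have n2 := Φ_norm_le (hb h1')
    have : ‖Φ u - Φ v‖ ≤ 2 := by linarith [norm_sub_le (Φ u) (Φ v)]
    show ‖Φ u - Φ v‖ ^ 2 ≤ 2 ^ 2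
    exact pow_le_pow_left₀ (norm_nonneg _) this 2

lemma dd_pos (hm : 1 ≤ m) (hn : 1 ≤ n) (i : Idx J m q) : 0 < dd J m q n i := by
  have hm0 : (0:ℝ) < m := by exact_mod_cast hm
  have hn0 : (0:ℝ) < n := by exact_mod_cast hn
  have hpi := pi_pos
  rcases i with b | i
  · have c1 : (0:ℝ) < (m:ℝ) ^ 2 / n := by positivity
    have h1 : √((b.1 : ℕ) * ((m:ℝ) ^ 2 / n)) ≤ √(((b.1 : ℕ) + 1) * ((m:ℝ) ^ 2 / n)) :=
      Real.sqrt_le_sqrt (by nlinarith)
    have h2 : √(1 - ((b.1 : ℕ) + 1) * ((m:ℝ) ^ 2 / n)) ≤ √(1 - (b.1 : ℕ) * ((m:ℝ) ^ 2 / n)) :=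
      Real.sqrt_le_sqrt (by nlinarith)
    have h3 : 0 < 2 * π * (1 / (m:ℝ)) := by positivity
    have h4 : 0 < π * (1 / (m:ℝ)) := by positivity
    unfold dd
    linarith
  · exact two_pos

lemma sum_log_dd (hm : 1 ≤ m) (hn : 1 ≤ n) (hJ : J * m ^ 2 + q = n) (hJm : m ≤ J) :
    ∑ i, log (dd J m q n i) ≤ J * m ^ 2 * log ((3 * π + 2) / m) + q * log 2 := by
  have hm0 : (0:ℝ) < m := by exact_mod_cast hm
  have hn0 : (0:ℝ) < n := by exact_mod_cast hn
  have hJ' : (J:ℝ) * m ^ 2 + q = n := by exact_mod_cast hJ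
  have hq0 : (0:ℝ) ≤ q := by positivity
  have hpi := pi_pos
  rw [Fintype.sum_sum_type, Fintype.sum_prod_type]
  have h2 : ∑ i : Fin q, log (dd J m q n (.inr i)) = q * log 2 := by
    have : ∀ i : Fin q, log (dd J m q n (.inr i)) = log 2 := fun i => rfl
    simp [this]
  rw [h2]
  set c : ℝ := 3 * π + 2 with hc
  set h : ℝ := (m:ℝ) ^ 2 / n with hh
  set A : ℕ → ℝ := fun j => √(j * h) with hA
  set B : ℕ → ℝ := fun j => -√(1 - j * h) with hB
  have hd : ∀ (j : Fin J) (kl : Fin m × Fin m), dd J m q n (.inl (j, kl)) =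
      (A (j + 1) - A j) + (B (j + 1) - B j) + 3 * π / m := by
    intro j kl
    simp only [dd, hA, hB]
    push_cast
    ring
  have h3 : ∀ j : Fin J, ∑ kl : Fin m × Fin m, log (dd J m q n (.inl (j, kl))) ≤
      m ^ 2 * (log (c / m) + ((m:ℝ) / c) * ((A (j + 1) - A j) + (B (j + 1) - B j) + 3 * π / m) - 1) := by
    intro j
    have h4 : ∀ kl : Fin m × Fin m, log (dd J m q n (.inl (j, kl))) ≤
        log (c / m) + ((m:ℝ) / c) * ((A (j + 1) - A j) + (B (j + 1) - B j) + 3 * π / m) - 1 := by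
      intro kl
      have hp := dd_pos (J := J) (q := q) hm hn (.inl (j, kl))
      rw [hd] at hp ⊢
      set d := (A (j + 1) - A j) + (B (j + 1) - B j) + 3 * π / m
      have hcm : 0 < c / m := by positivity
      have h5 := Real.log_le_sub_one_of_pos (show 0 < d / (c / m) by positivity)
      rw [Real.log_div hp.ne' hcm.ne'] at h5
      have h6 : d / (c / m) = (m / c) * d := by field_simp
      rw [h6] at h5
      linarith
    calc _ ≤ ∑ kl : Fin m × Fin m, (log (c / m) + ((m:ℝ) / c) * ((A (j + 1) - A j) + (B (j + 1) - B j) + 3 * π / m) - 1) :=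
          Finset.sum_le_sum fun kl _ => h4 kl
      _ = _ := by
          rw [Finset.sum_const, Finset.card_univ, Fintype.card_prod, Fintype.card_fin, nsmul_eq_mul]
          push_cast
          ring
  have h5 : ∑ j : Fin J, ((A (j + 1) - A j) + (B (j + 1) - B j) + 3 * π / m) ≤ 2 + 3 * π * J / m := by
    rw [Finset.sum_add_distrib, Finset.sum_add_distrib, Finset.sum_const, Finset.card_univ, Fintype.card_fin, nsmul_eq_mul,
      Fin.sum_univ_eq_sum_range (fun j => A (j + 1) - A j) J, Fin.sum_univ_eq_sum_range (fun j => B (j + 1) - B j) J,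
      Finset.sum_range_sub, Finset.sum_range_sub]
    have a1 : A J ≤ 1 := by
      simp only [hA]
      rw [Real.sqrt_le_one, hh, ← mul_div_assoc, div_le_one hn0]
      linarith
    have a2 : A 0 = 0 := by simp [hA]
    have a3 : B J ≤ 0 := by simp only [hB]; linarith [Real.sqrt_nonneg (1 - (J:ℝ) * h)]
    have a4 : B 0 = -1 := by simp [hB]
    rw [a2, a4]
    have : (J:ℝ) * (3 * π / m) = 3 * π * J / m := by ring
    linarith
  have h6 : ∑ j : Fin J, ∑ kl : Fin m × Fin m, log (dd J m q n (.inl (j, kl))) ≤ J * m ^ 2 * log (c / m) := by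
    calc _ ≤ ∑ j : Fin J, (m ^ 2 * (log (c / m) + ((m:ℝ) / c) * ((A (j + 1) - A j) + (B (j + 1) - B j) + 3 * π / m) - 1)) :=
          Finset.sum_le_sum fun j _ => h3 j
      _ = m ^ 2 * (J * log (c / m) - J) + m ^ 2 * ((m:ℝ) / c) * ∑ j : Fin J, ((A (j + 1) - A j) + (B (j + 1) - B j) + 3 * π / m) := by
          rw [← Finset.mul_sum, Finset.sum_sub_distrib, Finset.sum_add_distrib, Finset.sum_const, Finset.sum_const,
            Finset.card_univ, Fintype.card_fin, nsmul_eq_mul, nsmul_eq_mul, ← Finset.mul_sum]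
          ring
      _ ≤ m ^ 2 * (J * log (c / m) - J) + m ^ 2 * ((m:ℝ) / c) * (2 + 3 * π * J / m) := by gcongr
      _ ≤ _ := by
          have hc0 : 0 < c := by positivity
          have hJm' : (m:ℝ) ≤ J := by exact_mod_cast hJm
          have e : m ^ 2 * ((m:ℝ) / c) * (2 + 3 * π * J / m) = m ^ 2 * ((2 * m + 3 * π * J) / c) := by
            field_simp
          rw [e]
          have e2 : (2 * m + 3 * π * J) / c ≤ J := by
            rw [div_le_iff₀ hc0, hc]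
            nlinarith
          have e3 : (m:ℝ) ^ 2 * ((2 * m + 3 * π * J) / c) ≤ m ^ 2 * J := by gcongr
          nlinarith
  linarith

end Pool.Agent.H79.Sq
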