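import Pool.Agent.H79.Sq.L8
namespace Pool.Agent.H79.Sq
open MeasureTheory Real Set Filter Function
open scoped ENNReal Topology

lemma exists_root (n : ℕ) (hn : 1 ≤ n) : ∃ m : ℕ, 1 ≤ m ∧ m ^ 3 ≤ n ∧ n < (m + 1) ^ 3 := by
  induction n, hn using Nat.le_induction with
  | base => exact ⟨1, le_rfl, by norm_num, by norm_num⟩
  | succ n hn ih =>
    obtain ⟨m, h1, h2, h3⟩ := ih
    by_cases h : n + 1 < (m + 1) ^ 3
    · exact ⟨m, h1, by omega, h⟩
    · refine ⟨m + 1, by omega, by omega, ?_⟩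
      have : (m + 1) ^ 3 < (m + 1 + 1) ^ 3 := Nat.pow_lt_pow_left (by omega) (by norm_num)
      omega

/-- main term -/
noncomputable def main (n : ℕ) : ℝ :=
  1 / 2 * (n : ℝ) ^ 2 * log n + (1 / 4 - log 6 / 2) * (n : ℝ) ^ 2 + 4 / 3 * n * log n

theorem lower_final : ∃ C : ℝ, ∀ n : ℕ, 1 ≤ n → exp (main n - C * n) ≤ F1 n := by
  set Λ := ∫ u, lg u ∂P with hΛ
  refine ⟨2 + 2 * log 2 + log (3 * π + 2) + |Λ| + |log (2 / 3)|, fun n hn => ?_⟩
  obtain ⟨m, hm, hm1, hm2⟩ := exists_root n hn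
  set J := n / m ^ 2 with hJ
  set q := n % m ^ 2 with hq
  have hmm : 0 < m ^ 2 := by positivity
  have hJq : J * m ^ 2 + q = n := by
    rw [hJ, hq, mul_comm]; exact Nat.div_add_mod n (m ^ 2)
  have hJm : m ≤ J := by
    rw [hJ, Nat.le_div_iff_mul_le hmm]
    calc m * m ^ 2 = m ^ 3 := by ring
      _ ≤ n := hm1
  have hqm : q < m ^ 2 := Nat.mod_lt _ hmm
  have hcard : Fintype.card (Idx J m q) = n := by
    simp only [Fintype.card_sum, Fintype.card_prod, Fintype.card_fin]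
    rw [← hJq]; ring
  set e : Idx J m q ≃ Fin n := Fintype.equivFinOfCardEq hcard
  have hpi := pi_pos
  have hm0 : (0:ℝ) < m := by exact_mod_cast hm
  have hn0 : (0:ℝ) < n := by exact_mod_cast hn
  have hlow := F1_lower hn (fun i => cell J m q n (e.symm i)) (fun i => cell_meas _)
    (fun i j hij => cell_disj hm hn (fun h => hij (e.symm.injective h)))
    (fun i => cell_P hm hn hJq _) (fun i => (dd J m q n (e.symm i)) ^ 2) (fun i => cell_D hm hn hJq _)
  refine le_trans (Real.exp_le_exp.2 ?_) hlow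
  have hsum : 1 / 2 * ∑ i, log ((dd J m q n (e.symm i)) ^ 2) = ∑ i, log (dd J m q n i) := by
    rw [Finset.mul_sum, ← Equiv.sum_comp e.symm (fun i => log (dd J m q n i))]
    refine Finset.sum_congr rfl fun i _ => ?_
    rw [Real.log_pow]; push_cast; ring
  rw [hsum]
  have hS := sum_log_dd hm hn hJq hJm
  have hJq' : (J:ℝ) * m ^ 2 + q = n := by exact_mod_cast hJq
  have hq0 : (0:ℝ) ≤ q := by positivity
  have hqm' : (q:ℝ) ≤ m ^ 2 := by exact_mod_cast hqm.le
  have hm1' : (m:ℝ) ^ 3 ≤ n := by exact_mod_cast hm1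
  have hm2' : (n:ℝ) < (m + 1) ^ 3 := by exact_mod_cast hm2
  have hm1r : (1:ℝ) ≤ m := by exact_mod_cast hm
  have hc : log ((3 * π + 2) / m) = log (3 * π + 2) - log m := Real.log_div (by positivity) hm0.ne'
  have hlc : 0 ≤ log (3 * π + 2) := Real.log_nonneg (by linarith)
  have hl2 : 0 ≤ log 2 := Real.log_nonneg (by norm_num)
  have hln : 0 ≤ log n := Real.log_nonneg (by exact_mod_cast hn)
  have hlogm : 1 / 3 * log n - log 2 ≤ log m := by
    have h1 : (n:ℝ) ≤ (2 * m) ^ 3 := hm2'.le.trans (pow_le_pow_left₀ (by positivity) (by linarith) 3)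
    have h2 := Real.log_le_log hn0 h1
    rw [Real.log_pow, Real.log_mul (by norm_num) hm0.ne'] at h2
    push_cast at h2
    linarith
  have hqln : q * log n ≤ 3 * n := by
    have h1 : log n ≤ 3 * m := by
      have h2 := Real.log_le_log hn0 hm2'.le
      rw [Real.log_pow] at h2
      have h3 := Real.log_le_sub_one_of_pos (show (0:ℝ) < m + 1 by positivity)
      push_cast at h2
      linarith
    calc (q:ℝ) * log n ≤ m ^ 2 * (3 * m) := by gcongr
      _ = 3 * m ^ 3 := by ring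
      _ ≤ 3 * n := by linarith
  have hnq : (0:ℝ) ≤ n - q := by
    have : (0:ℝ) ≤ (J:ℝ) * m ^ 2 := by positivity
    linarith
  have hS2 : ∑ i, log (dd J m q n i) ≤ n * log (3 * π + 2) - (1 / 3 * n * log n - n - n * log 2) + n * log 2 := by
    refine hS.trans ?_
    rw [hc, show (J:ℝ) * m ^ 2 = n - q by linarith]
    have h1 : (n - q) * (1 / 3 * log n - log 2) ≤ (n - (q:ℝ)) * log m := mul_le_mul_of_nonneg_left hlogm hnq
    have h2 : (n - (q:ℝ)) * log (3 * π + 2) ≤ n * log (3 * π + 2) := by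
      apply mul_le_mul_of_nonneg_right _ hlc; linarith
    have h3 : (q:ℝ) * log 2 ≤ n * log 2 := by
      apply mul_le_mul_of_nonneg_right _ hl2; linarith
    nlinarith [mul_nonneg hq0 hl2]
  have hl23 : log (2 / 3 * n) = log (2 / 3) + log n := Real.log_mul (by norm_num) hn0.ne'
  have hl6 : log 6 = log 2 + log 3 := by
    rw [← Real.log_mul (by norm_num) (by norm_num)]; norm_num
  have hl23' : log (2 / 3) = log 2 - log 3 := Real.log_div (by norm_num) (by norm_num)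
  have hΛ1 : -(|Λ| * n) ≤ n * Λ := by nlinarith [neg_abs_le Λ]
  have h231 : -(|log (2 / 3)| * n) ≤ n * log (2 / 3) := by nlinarith [neg_abs_le (log (2 / 3))]
  unfold main
  rw [hl23, hl6]
  have : (n:ℝ) ^ 2 / 2 * log (2 / 3) = (n:ℝ) ^ 2 / 2 * (log 2 - log 3) := by rw [hl23']
  nlinarith

theorem upper_final : ∃ C : ℝ, ∀ n : ℕ, 1 ≤ n → F1 n ≤ exp (main n + n / 3 * log (1 + log n) + C * n) := by
  refine ⟨85 + |log (2 / 3)| + 3 / 2 * (log π + 1), fun n hn => ?_⟩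
  have hpi := pi_pos
  have hpi3 := Real.pi_gt_three
  have hn0 : (0:ℝ) < n := by exact_mod_cast hn
  have hn1 : (1:ℝ) ≤ n := by exact_mod_cast hn
  have hln : 0 ≤ log n := Real.log_nonneg hn1
  have hL : (0:ℝ) < 1 + log n := by linarith
  have hLL : 0 ≤ log (1 + log n) := Real.log_nonneg (by linarith)
  set T : ℝ := (n * (1 + log n)) ^ (2 / 3 : ℝ) with hT
  have hb : 1 ≤ n * (1 + log (n:ℝ)) := by nlinarith
  have hT1 : 1 ≤ T := Real.one_le_rpow hb (by norm_num)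
  have hlT : log T = 2 / 3 * (log n + log (1 + log n)) := by
    rw [hT, Real.log_rpow (by positivity), Real.log_mul hn0.ne' hL.ne']
  have hT32 : T ^ (-(3 / 2) : ℝ) = (n * (1 + log n))⁻¹ := by
    rw [hT, ← Real.rpow_mul (by positivity), show (2 / 3 * -(3 / 2) : ℝ) = -1 by norm_num, Real.rpow_neg_one]
  have hup := F1_upper n hT1
  refine hup.trans ?_
  have hbp : (0:ℝ) < 1 / ((n:ℝ) + 1) := by positivity
  have hgm : gm (1 / ((n:ℝ) + 1)) ^ n = exp (n * (3 / 2 * log (π * (n + 1)))) := by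
    rw [← Real.exp_log (pow_pos (gm_pos hbp) n), Real.log_pow, gm_eq hbp, Real.log_rpow (by positivity)]
    congr 3
    field_simp
  rw [hgm, ← Real.exp_add]
  apply Real.exp_le_exp.2
  unfold UB main
  have hl1 : log ((n:ℝ) + 1) ≤ log n + 1 / n := by
    have h1 : (n:ℝ) + 1 = n * (1 + 1 / n) := by field_simp
    rw [h1, Real.log_mul hn0.ne' (by positivity)]
    have := Real.log_le_sub_one_of_pos (show (0:ℝ) < 1 + 1 / n by positivity)
    linarith
  have hl2 : log (2 / 3 * ((n:ℝ) + 1)) = log (2 / 3) + log ((n:ℝ) + 1) := Real.log_mul (by norm_num) (by positivity)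
  have hl3 : log (π * ((n:ℝ) + 1)) = log π + log ((n:ℝ) + 1) := Real.log_mul (by positivity) (by positivity)
  have hl6 : log 6 = log 2 + log 3 := by
    rw [← Real.log_mul (by norm_num) (by norm_num)]; norm_num
  have hl23' : log (2 / 3) = log 2 - log 3 := Real.log_div (by norm_num) (by norm_num)
  have h231 : -(n / 2 * log (2 / 3)) ≤ n * |log (2 / 3)| := by nlinarith [neg_abs_le (log (2 / 3)), abs_nonneg (log (2 / 3))]
  -- last term
  have hLLn : log (1 + log n) ≤ log n := by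
    have := Real.log_le_sub_one_of_pos hL
    linarith
  have hlast : 20 * (n:ℝ) ^ 2 * ((3 + log T) * T ^ (-(3 / 2) : ℝ)) ≤ 80 * n := by
    rw [hT32, hlT]
    have h1 : 3 + 2 / 3 * (log n + log (1 + log n)) ≤ 4 * (1 + log n) := by linarith
    calc 20 * (n:ℝ) ^ 2 * ((3 + 2 / 3 * (log (n:ℝ) + log (1 + log (n:ℝ)))) * ((n:ℝ) * (1 + log (n:ℝ)))⁻¹) ≤
        20 * (n:ℝ) ^ 2 * ((4 * (1 + log (n:ℝ))) * ((n:ℝ) * (1 + log (n:ℝ)))⁻¹) := by gcongr
      _ = 80 * (n:ℝ) := by field_simp; ring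
  have hfirst : (n:ℝ) * (n - 1) / 2 * log ((n:ℝ) + 1) ≤ (n:ℝ) * (n - 1) / 2 * log n + n / 2 := by
    have h1 : (0:ℝ) ≤ (n:ℝ) * (n - 1) / 2 := by
      have : (0:ℝ) ≤ n - 1 := by linarith
      positivity
    have h2 := mul_le_mul_of_nonneg_left hl1 h1
    have h3 : (n:ℝ) * (n - 1) / 2 * (1 / n) = (n - 1) / 2 := by field_simp
    nlinarith
  have hthird : (n:ℝ) * (3 / 2 * log ((n:ℝ) + 1)) ≤ n * (3 / 2 * log n) + 3 / 2 * n := by
    have h3 : (n:ℝ) * (1 / n) = 1 := by field_simp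
    have h4 : (n:ℝ) * (3 / 2 * log ((n:ℝ) + 1)) ≤ n * (3 / 2 * (log n + 1 / n)) := by gcongr
    nlinarith
  rw [hl2, hl3, hlT]
  have h5 : (n:ℝ) * (n - 1) / 2 * log (2 / 3) = (n:ℝ) ^ 2 / 2 * log (2 / 3) - n / 2 * log (2 / 3) := by ring
  have h6 : (n:ℝ) ^ 2 / 2 * log (2 / 3) = (n:ℝ) ^ 2 / 2 * (log 2 - log 3) := by rw [hl23']
  rw [hlT] at hlast
  rw [hl6]
  nlinarith

end Pool.Agent.H79.Sq
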