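import Mathlib

/-! The measure `μ` on `ℝ³` (projection of the uniform measure of the 3-sphere) and its parametrization. -/

namespace Pool.Agent.H79.Sq
open MeasureTheory Real Set
open scoped ENNReal

abbrev E := EuclideanSpace ℝ (Fin 3)

/-- density of the projection to `ℝ³` of the uniform probability measure on the unit sphere of `ℝ⁴` -/
noncomputable def f (y : E) : ℝ := (π ^ 2 * √(1 - ‖y‖ ^ 2))⁻¹

noncomputable def μ : Measure E := volume.withDensity (fun y => ENNReal.ofReal (f y))

/-- coordinates -/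
noncomputable def T (p : ℝ × (ℝ × ℝ)) : E := !₂[p.2.1, p.2.2, p.1]

theorem T_mp : MeasurePreserving T volume volume := by
  have h1 : MeasurePreserving (MeasurableEquiv.finTwoArrow (α := ℝ)).symm volume volume :=
    (volume_preserving_finTwoArrow ℝ).symm _
  have h2 : MeasurePreserving (Prod.map (id : ℝ → ℝ) (MeasurableEquiv.finTwoArrow (α := ℝ)).symm)
      (volume : Measure (ℝ × (ℝ × ℝ))) volume := (MeasurePreserving.id volume).prod h1
  have h3 : MeasurePreserving (MeasurableEquiv.piFinSuccAbove (fun _ : Fin 3 => ℝ) 2).symm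
      volume volume := (volume_preserving_piFinSuccAbove (fun _ : Fin 3 => ℝ) 2).symm _
  have h4 := PiLp.volume_preserving_toLp (Fin 3)
  have h5 := h4.comp (h3.comp h2)
  have e : T = (WithLp.toLp 2 : (Fin 3 → ℝ) → E) ∘
      (MeasurableEquiv.piFinSuccAbove (fun _ : Fin 3 => ℝ) 2).symm ∘
      Prod.map (id : ℝ → ℝ) (MeasurableEquiv.finTwoArrow (α := ℝ)).symm := by
    funext p
    ext i
    fin_cases i <;> rfl
  rw [e]
  exact h5

theorem norm_T_sq (p : ℝ × (ℝ × ℝ)) : ‖T p‖ ^ 2 = p.2.1 ^ 2 + p.2.2 ^ 2 + p.1 ^ 2 := by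
  rw [EuclideanSpace.norm_sq_eq]
  simp [T, Fin.sum_univ_three]

end Pool.Agent.H79.Sq
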