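import Pool.Agent.H79.Sq.M1
namespace Pool.Agent.H79.Sq
open MeasureTheory Real Set
open scoped ENNReal

lemma subst_theta (H : ℝ → ℝ≥0∞) :
    ∫⁻ θ in Ioo (-π) π, H θ = ∫⁻ α in Ioo (0:ℝ) 1, ENNReal.ofReal (2 * π) * H (2 * π * α - π) := by
  have him : (fun α : ℝ => 2 * π * α - π) '' Ioo (0:ℝ) 1 = Ioo (-π) π := by
    ext x
    constructor
    · rintro ⟨α, ⟨h0, h1⟩, rfl⟩
      have := pi_pos
      exact ⟨by nlinarith, by nlinarith⟩
    · rintro ⟨h0, h1⟩
      have := pi_pos
      exact ⟨(x + π) / (2 * π), ⟨div_pos (by linarith) (by positivity),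
        (div_lt_one (by positivity)).2 (by linarith)⟩, by field_simp; ring⟩
  rw [← him, lintegral_image_eq_lintegral_abs_deriv_mul measurableSet_Ioo
    (f' := fun _ => 2 * π) (fun x _ => by
      have := ((hasDerivAt_id x).const_mul (2 * π)).sub_const π
      simpa using this.hasDerivWithinAt)
    (fun x _ y _ h => by
      have := pi_pos
      have h' : 2 * π * x - π = 2 * π * y - π := h
      have h2 : 2 * π * x = 2 * π * y := by linarith
      exact mul_left_cancel₀ (by positivity) h2)]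
  rw [abs_of_pos (by positivity)]

lemma subst_r (H : ℝ → ℝ≥0∞) :
    ∫⁻ r in Ioo (0:ℝ) 1, ENNReal.ofReal r * H r =
      ∫⁻ s in Ioo (0:ℝ) 1, ENNReal.ofReal (1 / 2) * H (√s) := by
  have him : (fun s : ℝ => √s) '' Ioo (0:ℝ) 1 = Ioo 0 1 := by
    ext x
    constructor
    · rintro ⟨α, ⟨h0, h1⟩, rfl⟩
      exact ⟨Real.sqrt_pos.2 h0, by rw [Real.sqrt_lt' one_pos]; simpa using h1⟩
    · rintro ⟨h0, h1⟩
      exact ⟨x ^ 2, ⟨by positivity, by nlinarith⟩, Real.sqrt_sq h0.le⟩
  conv_lhs => rw [← him]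
  rw [lintegral_image_eq_lintegral_abs_deriv_mul measurableSet_Ioo
    (f' := fun s => 1 / (2 * √s)) (fun x hx => (Real.hasDerivAt_sqrt hx.1.ne').hasDerivWithinAt)
    (fun x hx y hy h => by
      have := congrArg (· ^ 2) h
      simpa [Real.sq_sqrt hx.1.le, Real.sq_sqrt hy.1.le] using this)]
  refine setLIntegral_congr_fun measurableSet_Ioo fun s (hs : s ∈ Ioo (0:ℝ) 1) => ?_
  have h0 : 0 < √s := Real.sqrt_pos.2 hs.1
  rw [abs_of_pos (by positivity), ← mul_assoc, ← ENNReal.ofReal_mul (by positivity)]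
  congr 2
  field_simp

lemma subst_c {h : ℝ} (hh : 0 < h) (G : ℝ → ℝ≥0∞) :
    ∫⁻ c, G c * ENNReal.ofReal ((π ^ 2 * √(h ^ 2 - c ^ 2))⁻¹) =
      ∫⁻ β in Ioo (0:ℝ) 1, G (h * cos (π * β)) * ENNReal.ofReal π⁻¹ := by
  have hpi := pi_pos
  have hinj : InjOn (fun β : ℝ => h * cos (π * β)) (Ioo 0 1) := by
    intro x hx y hy hxy
    have h1 : cos (π * x) = cos (π * y) := mul_left_cancel₀ hh.ne' hxy
    have h2 := Real.injOn_cos ⟨by have := hx.1; positivity, by nlinarith [hx.2]⟩
      ⟨by have := hy.1; positivity, by nlinarith [hy.2]⟩ h1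
    exact mul_left_cancel₀ hpi.ne' h2
  have him : (fun β : ℝ => h * cos (π * β)) '' Ioo (0:ℝ) 1 = Ioo (-h) h := by
    ext x
    constructor
    · rintro ⟨β, ⟨h0, h1⟩, rfl⟩
      have hs : 0 < sin (π * β) := sin_pos_of_pos_of_lt_pi (by positivity) (by nlinarith)
      have hc := Real.sin_sq_add_cos_sq (π * β)
      have hc2 : cos (π * β) ^ 2 < 1 := by nlinarith
      have := abs_lt.1 ((sq_lt_one_iff_abs_lt_one _).1 hc2)
      simp only
      exact ⟨by nlinarith [this.1], by nlinarith [this.2]⟩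
    · rintro ⟨h0, h1⟩
      refine ⟨arccos (x / h) / π, ⟨?_, ?_⟩, ?_⟩
      · apply div_pos _ hpi
        rw [Real.arccos_pos]
        rwa [div_lt_one hh]
      · rw [div_lt_one hpi]
        refine lt_of_le_of_ne (Real.arccos_le_pi _) fun he => ?_
        rw [Real.arccos_eq_pi] at he
        rw [div_le_iff₀ hh] at he
        linarith
      · simp only
        rw [mul_div_cancel₀ _ hpi.ne', Real.cos_arccos]
        · field_simp
        · rw [le_div_iff₀ hh]; linarith
        · rw [div_le_one hh]; linarith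
  have hz : ∀ c ∉ Ioo (-h) h, G c * ENNReal.ofReal ((π ^ 2 * √(h ^ 2 - c ^ 2))⁻¹) = 0 := by
    intro c hc
    have : h ^ 2 - c ^ 2 ≤ 0 := by
      by_contra hcon
      push Not at hcon
      apply hc
      have : |c| < h := by
        apply lt_of_pow_lt_pow_left₀ 2 hh.le
        rw [sq_abs]; linarith
      exact abs_lt.1 this
    rw [Real.sqrt_eq_zero_of_nonpos this]
    simp
  have hsupp : ∫⁻ c, G c * ENNReal.ofReal ((π ^ 2 * √(h ^ 2 - c ^ 2))⁻¹) =
      ∫⁻ c in Ioo (-h) h, G c * ENNReal.ofReal ((π ^ 2 * √(h ^ 2 - c ^ 2))⁻¹) :=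
    (setLIntegral_eq_of_support_subset (fun c hc => by
      by_contra hcon
      exact hc (hz c hcon))).symm
  rw [hsupp, ← him,
    lintegral_image_eq_lintegral_abs_deriv_mul measurableSet_Ioo
    (f' := fun β => h * (-sin (π * β) * π)) (fun x _ => by
      have h1 : HasDerivAt (fun β : ℝ => π * β) π x := by
        simpa using (hasDerivAt_id x).const_mul π
      exact ((h1.cos).const_mul h).hasDerivWithinAt) hinj]
  refine setLIntegral_congr_fun measurableSet_Ioo fun β (hβ : β ∈ Ioo (0:ℝ) 1) => ?_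
  have hs : 0 < sin (π * β) := sin_pos_of_pos_of_lt_pi (by have := hβ.1; positivity) (by nlinarith [hβ.2])
  have hc := Real.sin_sq_add_cos_sq (π * β)
  rw [show h ^ 2 - (h * cos (π * β)) ^ 2 = (h * sin (π * β)) ^ 2 by nlinarith,
    Real.sqrt_sq (by positivity), show h * (-sin (π * β) * π) = -(h * sin (π * β) * π) by ring,
    abs_neg, abs_of_pos (by positivity), mul_comm, mul_assoc, ← ENNReal.ofReal_mul (by positivity)]
  congr 2
  field_simp

end Pool.Agent.H79.Sq
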