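import Pool.Agent.H79.Sq.M2
namespace Pool.Agent.H79.Sq
open MeasureTheory Real Set
open scoped ENNReal

lemma measurable_f : Measurable f := by
  unfold f
  fun_prop

lemma measurable_T : Measurable T := T_mp.measurable

lemma f_T (c a b : ℝ) : f (T (c, (a, b))) = (π ^ 2 * √(1 - a ^ 2 - b ^ 2 - c ^ 2))⁻¹ := by
  unfold f
  rw [norm_T_sq]
  congr 3
  simp only
  ring

theorem lintegral_mu_disc (F : E → ℝ≥0∞) (hF : Measurable F) :
    ∫⁻ y, F y ∂μ = ∫⁻ p : ℝ × ℝ in {p | p.1 ^ 2 + p.2 ^ 2 < 1}, ∫⁻ β in Ioo (0:ℝ) 1,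
      F (T (√(1 - p.1 ^ 2 - p.2 ^ 2) * cos (π * β), p)) * ENNReal.ofReal π⁻¹ := by
  unfold μ
  rw [lintegral_withDensity_eq_lintegral_mul _ (by have := measurable_f; fun_prop) hF]
  have hm : Measurable (fun y => ENNReal.ofReal (f y) * F y) := by
    have := measurable_f
    fun_prop
  simp only [Pi.mul_apply]
  rw [← T_mp.lintegral_comp hm]
  have hm2 : Measurable (fun p => ENNReal.ofReal (f (T p)) * F (T p)) := hm.comp measurable_T
  rw [show (volume : Measure (ℝ × (ℝ × ℝ))) = (volume : Measure ℝ).prod (volume : Measure (ℝ × ℝ)) from rfl,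
    lintegral_prod_symm _ hm2.aemeasurable]
  have hms : MeasurableSet {p : ℝ × ℝ | p.1 ^ 2 + p.2 ^ 2 < 1} := by
    apply measurableSet_lt <;> fun_prop
  rw [← lintegral_indicator hms]
  refine lintegral_congr fun p => ?_
  by_cases hp : p ∈ {p : ℝ × ℝ | p.1 ^ 2 + p.2 ^ 2 < 1}
  · rw [indicator_of_mem hp]
    simp only [Set.mem_ofPred_eq] at hp
    have hh : 0 < √(1 - p.1 ^ 2 - p.2 ^ 2) := Real.sqrt_pos.2 (by linarith)
    rw [← subst_c hh (fun c => F (T (c, p)))]
    refine lintegral_congr fun c => ?_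
    rw [show p = (p.1, p.2) from rfl, f_T, Real.sq_sqrt (by simp only; linarith), mul_comm]
  · rw [indicator_of_notMem hp]
    simp only [Set.mem_ofPred_eq, not_lt] at hp
    rw [lintegral_eq_zero_iff (by have := measurable_T; have := measurable_f; fun_prop)]
    refine Filter.Eventually.of_forall fun c => ?_
    simp only [Pi.zero_apply]
    rw [show p = (p.1, p.2) from rfl, f_T, Real.sqrt_eq_zero_of_nonpos (by nlinarith [sq_nonneg c])]
    simp

/-- parameter space and the parametrization -/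
abbrev Ω := ℝ × ℝ × ℝ

noncomputable def P : Measure Ω :=
  (volume.restrict (Ioo (0:ℝ) 1)).prod ((volume.restrict (Ioo (0:ℝ) 1)).prod (volume.restrict (Ioo (0:ℝ) 1)))

noncomputable def Φ (u : Ω) : E :=
  T (√(1 - u.1) * cos (π * u.2.2), (-(√u.1 * cos (2 * π * u.2.1)), -(√u.1 * sin (2 * π * u.2.1))))

lemma measurable_Φ : Measurable Φ := by
  unfold Φ
  apply measurable_T.comp
  fun_prop

instance : IsProbabilityMeasure (volume.restrict (Ioo (0:ℝ) 1)) := ⟨by simp⟩

instance : IsProbabilityMeasure P := by unfold P; infer_instance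

theorem lintegral_mu (F : E → ℝ≥0∞) (hF : Measurable F) :
    ∫⁻ y, F y ∂μ = ∫⁻ s in Ioo (0:ℝ) 1, ∫⁻ α in Ioo (0:ℝ) 1, ∫⁻ β in Ioo (0:ℝ) 1, F (Φ (s, α, β)) := by
  rw [lintegral_mu_disc F hF]
  have hms : MeasurableSet {p : ℝ × ℝ | p.1 ^ 2 + p.2 ^ 2 < 1} := by
    apply measurableSet_lt <;> fun_prop
  set G : ℝ × ℝ → ℝ≥0∞ := fun p => ∫⁻ β in Ioo (0:ℝ) 1,
      F (T (√(1 - p.1 ^ 2 - p.2 ^ 2) * cos (π * β), p)) * ENNReal.ofReal π⁻¹ with hG
  have hGm : Measurable G := by
    rw [hG]
    apply Measurable.lintegral_prod_right'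
      (f := fun q : (ℝ × ℝ) × ℝ => F (T (√(1 - q.1.1 ^ 2 - q.1.2 ^ 2) * cos (π * q.2), q.1)) * ENNReal.ofReal π⁻¹)
    apply Measurable.mul _ measurable_const
    apply hF.comp
    apply measurable_T.comp
    fun_prop
  rw [← lintegral_indicator hms, ← lintegral_comp_polarCoord_symm]
  rw [show polarCoord.target = Ioi (0:ℝ) ×ˢ Ioo (-π) π from rfl,
    show (volume : Measure (ℝ × ℝ)) = (volume : Measure ℝ).prod (volume : Measure ℝ) from rfl,
    ← Measure.prod_restrict]
  have hm3 : Measurable (fun p : ℝ × ℝ => ENNReal.ofReal p.1 •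
      ({p : ℝ × ℝ | p.1 ^ 2 + p.2 ^ 2 < 1}.indicator G) (polarCoord.symm p)) := by
    have h1 : Measurable (fun p : ℝ × ℝ => ENNReal.ofReal p.1) := by fun_prop
    exact h1.smul ((hGm.indicator hms).comp continuous_polarCoord_symm.measurable)
  rw [lintegral_prod _ hm3.aemeasurable]
  have hin : ∀ r ∈ Ioi (0:ℝ), (∫⁻ θ in Ioo (-π) π, ENNReal.ofReal r •
      ({p : ℝ × ℝ | p.1 ^ 2 + p.2 ^ 2 < 1}.indicator G) (polarCoord.symm (r, θ))) =
      (Ioo (0:ℝ) 1).indicator (fun r => ENNReal.ofReal r * ∫⁻ θ in Ioo (-π) π, G (r * cos θ, r * sin θ)) r := by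
    intro r hr
    have hr' : 0 < r := hr
    have hq : ∀ θ : ℝ, (r * cos θ) ^ 2 + (r * sin θ) ^ 2 = r ^ 2 := fun θ => by
      have := Real.sin_sq_add_cos_sq θ
      nlinarith
    by_cases h1 : r < 1
    · rw [indicator_of_mem (show r ∈ Ioo (0:ℝ) 1 from ⟨hr', h1⟩), ← lintegral_const_mul]
      · refine lintegral_congr fun θ => ?_
        rw [polarCoord_symm_apply, indicator_of_mem]
        · rfl
        · simp only [Set.mem_ofPred_eq]
          rw [hq]; nlinarith
      · apply hGm.comp
        fun_prop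
    · rw [indicator_of_notMem (fun h => h1 h.2)]
      rw [lintegral_eq_zero_iff]
      · refine Filter.Eventually.of_forall fun θ => ?_
        simp only [Pi.zero_apply]
        rw [polarCoord_symm_apply, indicator_of_notMem]
        · simp
        · simp only [Set.mem_ofPred_eq, not_lt]
          rw [hq]; push Not at h1; nlinarith
      · exact hm3.comp (measurable_const.prodMk measurable_id)
  rw [setLIntegral_congr_fun measurableSet_Ioi hin, setLIntegral_indicator measurableSet_Ioo,
    (show Ioo (0:ℝ) 1 ∩ Ioi 0 = Ioo 0 1 from inter_eq_left.2 (fun x (hx : x ∈ Ioo (0:ℝ) 1) => hx.1)), subst_r]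
  refine setLIntegral_congr_fun measurableSet_Ioo fun s (hs : s ∈ Ioo (0:ℝ) 1) => ?_
  rw [subst_theta, ← lintegral_const_mul]
  · refine lintegral_congr fun α => ?_
    have hcs : cos (2 * π * α - π) = - cos (2 * π * α) := Real.cos_sub_pi _
    have hsn : sin (2 * π * α - π) = - sin (2 * π * α) := Real.sin_sub_pi _
    rw [hG]
    simp only
    rw [hcs, hsn, ← lintegral_const_mul, ← lintegral_const_mul]
    · refine lintegral_congr fun β => ?_
      have h1 : 1 - (√s * -cos (2 * π * α)) ^ 2 - (√s * -sin (2 * π * α)) ^ 2 = 1 - s := by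
        have h2 := Real.sin_sq_add_cos_sq (2 * π * α)
        have h3 := Real.sq_sqrt hs.1.le
        have : (√s * -cos (2 * π * α)) ^ 2 + (√s * -sin (2 * π * α)) ^ 2 =
          (√s) ^ 2 * (sin (2 * π * α) ^ 2 + cos (2 * π * α) ^ 2) := by ring
        rw [h2, h3] at this
        linarith
      rw [h1, show Φ (s, α, β) = T (√(1 - s) * cos (π * β), (√s * -cos (2 * π * α), √s * -sin (2 * π * α))) by
        unfold Φ; simp]
      rw [mul_comm (F _), ← mul_assoc, ← mul_assoc, ← ENNReal.ofReal_mul (by positivity),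
        ← ENNReal.ofReal_mul (by positivity)]
      rw [show 1 / 2 * (2 * π) * π⁻¹ = 1 by have := pi_pos; field_simp]
      simp
    · apply Measurable.const_mul
      apply Measurable.mul _ measurable_const
      apply hF.comp
      apply measurable_T.comp
      fun_prop
    · apply Measurable.mul _ measurable_const
      apply hF.comp
      apply measurable_T.comp
      fun_prop
  · apply Measurable.const_mul
    apply hGm.comp
    fun_prop

theorem map_Φ : P.map Φ = μ := by
  ext A hA
  rw [Measure.map_apply measurable_Φ hA, ← lintegral_indicator_one hA,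
    lintegral_mu _ (measurable_one.indicator hA), ← lintegral_indicator_one (measurable_Φ hA)]
  unfold P
  rw [lintegral_prod _ (measurable_one.indicator (measurable_Φ hA)).aemeasurable]
  refine lintegral_congr fun s => ?_
  have hm : Measurable (fun y : ℝ × ℝ => (Φ ⁻¹' A).indicator (1 : Ω → ℝ≥0∞) (s, y)) :=
    (measurable_one.indicator (measurable_Φ hA)).comp (measurable_const.prodMk measurable_id)
  rw [lintegral_prod _ hm.aemeasurable]
  rfl

instance : IsProbabilityMeasure μ := by
  rw [← map_Φ]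
  exact Measure.isProbabilityMeasure_map measurable_Φ.aemeasurable

end Pool.Agent.H79.Sq
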