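import Pool.Agent.H79.Sq.D1
namespace Pool.Agent.H79.Sq
open MeasureTheory Real Set Filter
open scoped ENNReal Topology

/-- product of the squared distances -/
noncomputable def Q {n : ℕ} (r : Fin n → E) : ℝ := ∏ k : Fin n, ∏ j ∈ Finset.Ioi k, ‖r j - r k‖ ^ 2

/-- the Gaussian integral -/
noncomputable def F1 (n : ℕ) : ℝ := ∫ r : Fin n → E, Q r * Real.exp (-∑ i, ‖r i‖ ^ 2)

lemma Q_nonneg {n : ℕ} (r : Fin n → E) : 0 ≤ Q r :=
  Finset.prod_nonneg fun _ _ => Finset.prod_nonneg fun _ _ => by positivity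

lemma Q_cont {n : ℕ} : Continuous (Q : (Fin n → E) → ℝ) := by
  unfold Q
  fun_prop

lemma sum_sym {n : ℕ} (g : Fin n → Fin n → ℝ) (hg : ∀ i j, g i j = g j i) :
    ∑ i, ∑ j ∈ Finset.univ.erase i, g i j = 2 * ∑ k, ∑ j ∈ Finset.Ioi k, g j k := by
  have h1 : ∀ i : Fin n, ∑ j ∈ Finset.univ.erase i, g i j = ∑ j ∈ Finset.Iio i, g i j + ∑ j ∈ Finset.Ioi i, g i j := by
    intro i
    rw [← Finset.sum_union]
    · apply Finset.sum_congr _ (fun _ _ => rfl)
      ext j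
      simp
    · rw [Finset.disjoint_left]
      intro j h1 h2
      rw [Finset.mem_Iio] at h1
      rw [Finset.mem_Ioi] at h2
      exact lt_asymm h1 h2
  rw [Finset.sum_congr rfl fun i _ => h1 i, Finset.sum_add_distrib]
  have h2 : ∑ i, ∑ j ∈ Finset.Iio i, g i j = ∑ k, ∑ j ∈ Finset.Ioi k, g j k := by
    apply Finset.sum_comm'
    intro x y
    simp
  have h3 : ∑ i, ∑ j ∈ Finset.Ioi i, g i j = ∑ k, ∑ j ∈ Finset.Ioi k, g j k :=
    Finset.sum_congr rfl fun i _ => Finset.sum_congr rfl fun j _ => hg _ _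
  rw [h2, h3]; ring

/-- `Q` in terms of the symmetric sum of logarithms -/
lemma Q_eq {n : ℕ} (r : Fin n → E) (hr : ∀ i j, i ≠ j → r i ≠ r j) :
    Q r = exp (1 / 2 * ∑ i, ∑ j ∈ Finset.univ.erase i, log (‖r i - r j‖ ^ 2)) := by
  rw [sum_sym (fun i j => log (‖r i - r j‖ ^ 2)) (fun i j => by rw [norm_sub_rev])]
  rw [← mul_assoc, show (1:ℝ) / 2 * 2 = 1 by norm_num, one_mul, Real.exp_sum]
  unfold Q
  refine Finset.prod_congr rfl fun k _ => ?_
  rw [Real.exp_sum]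
  refine Finset.prod_congr rfl fun j hj => ?_
  have hjk : j ≠ k := (Finset.mem_Ioi.1 hj).ne'
  rw [Real.exp_log]
  have := norm_pos_iff.2 (sub_ne_zero.2 (hr j k hjk))
  positivity

lemma Q_zero {n : ℕ} (r : Fin n → E) (hr : ¬ ∀ i j, i ≠ j → r i ≠ r j) : Q r = 0 := by
  push Not at hr
  obtain ⟨i, j, hij, h⟩ := hr
  unfold Q
  rcases lt_or_gt_of_ne hij with hlt | hlt
  · apply Finset.prod_eq_zero (Finset.mem_univ i)
    apply Finset.prod_eq_zero (Finset.mem_Ioi.2 hlt)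
    rw [h]; simp
  · apply Finset.prod_eq_zero (Finset.mem_univ j)
    apply Finset.prod_eq_zero (Finset.mem_Ioi.2 hlt)
    rw [h]; simp

/-- scaling of `Q`, in logarithmic form -/
lemma log_scale {n : ℕ} (x : Fin n → E) (hx : ∀ i j, i ≠ j → x i ≠ x j) {a : ℝ} (ha : 0 < a) :
    ∑ i, ∑ j ∈ Finset.univ.erase i, log (‖a • x i - a • x j‖ ^ 2) =
      n * (n - 1) * (2 * log a) + ∑ i, ∑ j ∈ Finset.univ.erase i, log (‖x i - x j‖ ^ 2) := by
  have h1 : ∀ i : Fin n, ∑ j ∈ Finset.univ.erase i, log (‖a • x i - a • x j‖ ^ 2) =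
      ((n : ℝ) - 1) * (2 * log a) + ∑ j ∈ Finset.univ.erase i, log (‖x i - x j‖ ^ 2) := by
    intro i
    have hc : ((Finset.univ.erase i).card : ℝ) = (n : ℝ) - 1 := by
      rw [Finset.card_erase_of_mem (Finset.mem_univ i), Finset.card_univ, Fintype.card_fin, Nat.cast_sub (Fin.pos i)]
      simp
    rw [← hc, ← nsmul_eq_mul, ← Finset.sum_const, ← Finset.sum_add_distrib]
    refine Finset.sum_congr rfl fun j hj => ?_
    have hne : i ≠ j := (Finset.ne_of_mem_erase hj).symm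
    have hp := norm_pos_iff.2 (sub_ne_zero.2 (hx i j hne))
    rw [← smul_sub, norm_smul, Real.norm_of_nonneg ha.le, mul_pow, Real.log_mul (by positivity) (by positivity),
      Real.log_pow]
    norm_num
  rw [Finset.sum_congr rfl fun i _ => h1 i, Finset.sum_add_distrib, Finset.sum_const, Finset.card_univ,
    Fintype.card_fin, nsmul_eq_mul]
  ring

/-- the exponent of the upper bound -/
noncomputable def UB (n : ℕ) (T : ℝ) : ℝ :=
  n * (n - 1) / 2 * log (2 / 3 * (n + 1)) - (n : ℝ) ^ 2 * (log 2 - 1 / 4) + n / 2 * (log T + 2) +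
    20 * (n : ℝ) ^ 2 * ((3 + log T) * T ^ (-(3 / 2) : ℝ))

lemma Q_upper {n : ℕ} {T : ℝ} (hT : 1 ≤ T) (r : Fin n → E) :
    Q r * exp (-∑ i, ‖r i‖ ^ 2) ≤ exp (UB n T) * ∏ i, exp (-(1 / ((n : ℝ) + 1)) * ‖r i‖ ^ 2) := by
  have hn1 : (0:ℝ) < (n : ℝ) + 1 := by positivity
  by_cases hr : ∀ i j, i ≠ j → r i ≠ r j
  · set a : ℝ := √(2 / 3 * (n + 1)) with ha
    have ha0 : 0 < a := Real.sqrt_pos.2 (by positivity)
    have ha2 : a ^ 2 = 2 / 3 * (n + 1) := Real.sq_sqrt (by positivity)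
    set x : Fin n → E := fun i => a⁻¹ • r i with hx
    have hrx : ∀ i, r i = a • x i := fun i => by
      rw [hx]; simp only; rw [smul_smul, mul_inv_cancel₀ ha0.ne', one_smul]
    have hxd : ∀ i j, i ≠ j → x i ≠ x j := by
      intro i j hij h
      apply hr i j hij
      rw [hrx i, hrx j, h]
    have hE := energy x hxd hT
    rw [Fintype.card_fin] at hE
    have hnx : ∀ i, ‖r i‖ ^ 2 = a ^ 2 * ‖x i‖ ^ 2 := fun i => by
      rw [hrx i, norm_smul, Real.norm_of_nonneg ha0.le, mul_pow]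
    have hsum : ∑ i, ‖r i‖ ^ 2 = a ^ 2 * ∑ i, ‖x i‖ ^ 2 := by
      rw [Finset.mul_sum]
      exact Finset.sum_congr rfl fun i _ => hnx i
    rw [Q_eq r hr, ← Real.exp_sum, ← Real.exp_add, ← Real.exp_add]
    apply Real.exp_le_exp.2
    have hls := log_scale x hxd ha0
    have e1 : ∑ i, ∑ j ∈ Finset.univ.erase i, log (‖r i - r j‖ ^ 2) =
        n * (n - 1) * (2 * log a) + ∑ i, ∑ j ∈ Finset.univ.erase i, log (‖x i - x j‖ ^ 2) := by
      rw [← hls]
      exact Finset.sum_congr rfl fun i _ => Finset.sum_congr rfl fun j _ => by rw [← hrx, ← hrx]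
    have hla : 2 * log a = log (2 / 3 * (n + 1)) := by
      rw [← ha2, Real.log_pow]; norm_num
    rw [e1, hla, ← Finset.mul_sum, hsum, ha2]
    unfold UB
    have e2 : 1 / ((n : ℝ) + 1) * (2 / 3 * (n + 1) * ∑ i, ‖x i‖ ^ 2) = 2 / 3 * ∑ i, ‖x i‖ ^ 2 := by
      field_simp
    have e3 : -(1 / ((n : ℝ) + 1)) * (2 / 3 * (n + 1) * ∑ i, ‖x i‖ ^ 2) = -(2 / 3 * ∑ i, ‖x i‖ ^ 2) := by
      rw [neg_mul, e2]
    rw [e3]
    nlinarith
  · rw [Q_zero r hr, zero_mul]
    positivity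

lemma prod_gauss (n : ℕ) {b : ℝ} (hb : 0 < b) : Integrable (fun r : Fin n → E => ∏ i, exp (-b * ‖r i‖ ^ 2)) ∧
    ∫ r : Fin n → E, ∏ i, exp (-b * ‖r i‖ ^ 2) = gm b ^ n := by
  constructor
  · exact Integrable.fintype_prod (fun _ => gauss_int hb)
  · have := integral_fintype_prod_volume_eq_pow (ι := Fin n) (fun z : E => exp (-b * ‖z‖ ^ 2))
    rw [Fintype.card_fin] at this
    exact this

theorem F1_int (n : ℕ) : Integrable (fun r : Fin n → E => Q r * exp (-∑ i, ‖r i‖ ^ 2)) := by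
  have hb : (0:ℝ) < 1 / ((n : ℝ) + 1) := by positivity
  refine ((prod_gauss n hb).1.const_mul (exp (UB n 1))).mono' ?_ ?_
  · apply Continuous.aestronglyMeasurable
    have := Q_cont (n := n)
    fun_prop
  · refine Eventually.of_forall fun r => ?_
    rw [Real.norm_of_nonneg (mul_nonneg (Q_nonneg r) (Real.exp_pos _).le)]
    exact Q_upper le_rfl r

theorem F1_upper (n : ℕ) {T : ℝ} (hT : 1 ≤ T) : F1 n ≤ exp (UB n T) * gm (1 / ((n : ℝ) + 1)) ^ n := by
  have hb : (0:ℝ) < 1 / ((n : ℝ) + 1) := by positivity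
  unfold F1
  rw [← (prod_gauss n hb).2, ← integral_const_mul]
  exact integral_mono (F1_int n) ((prod_gauss n hb).1.const_mul _) fun r => Q_upper hT r

end Pool.Agent.H79.Sq
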